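import Mathlib

/-!
# Straight-line words over `ZMod q` (reduced arithmetic formulas), their values and degrees
-/

set_option autoImplicit false

namespace Pool.Agent.PIT

open MvPolynomial

/-- Symbols `(k, α, β)`: `k = 0` is a gate `α (a + b) + β`, `k = 1` a gate `α (a b) + β`, and
`k = i + 2` is a leaf `α x_i + β`. -/
abbrev Sym : Type := ℕ × (ℕ × ℕ)

/-- One step of the stack machine evaluating a word modulo `q` at the point `x`. -/
def wstep (q : ℕ) (x : List ℕ) (st : List ℕ) (s : Sym) : List ℕ :=
  if s.1 = 0 then
    if st.tail = [] then st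
    else (s.2.1 * (st.tail.headD 0 + st.headD 0) + s.2.2) % q :: st.tail.tail
  else if s.1 = 1 then
    if st.tail = [] then st
    else (s.2.1 * (st.tail.headD 0 * st.headD 0) + s.2.2) % q :: st.tail.tail
  else (s.2.1 * x.getD (s.1 - 2) 0 + s.2.2) % q :: st

/-- The value of a word at the point `x` modulo `q`. -/
def wval (q : ℕ) (x : List ℕ) (w : List Sym) : ℕ := (w.foldl (wstep q x) []).headD 0

theorem wstep_lt {q : ℕ} (hq : 0 < q) (x : List ℕ) (st : List ℕ) (h : ∀ a ∈ st, a < q) (s : Sym) :
    ∀ a ∈ wstep q x st s, a < q := by
  have htl : ∀ l : List ℕ, (∀ a ∈ l, a < q) → ∀ a ∈ l.tail, a < q :=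
    fun l hl a ha => hl a (List.mem_of_mem_tail ha)
  unfold wstep
  split_ifs
  · exact h
  · intro a ha
    rcases List.mem_cons.1 ha with rfl | ha
    · exact Nat.mod_lt _ hq
    · exact htl _ (htl _ h) a ha
  · exact h
  · intro a ha
    rcases List.mem_cons.1 ha with rfl | ha
    · exact Nat.mod_lt _ hq
    · exact htl _ (htl _ h) a ha
  · intro a ha
    rcases List.mem_cons.1 ha with rfl | ha
    · exact Nat.mod_lt _ hq
    · exact h a ha

theorem foldl_wstep_lt {q : ℕ} (hq : 0 < q) (x : List ℕ) (w : List Sym) :
    ∀ st : List ℕ, (∀ a ∈ st, a < q) → ∀ a ∈ w.foldl (wstep q x) st, a < q := by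
  induction w with
  | nil => exact fun st h => h
  | cons s w ih => exact fun st h => ih _ (wstep_lt hq x st h s)

theorem wval_lt {q : ℕ} (hq : 0 < q) (x : List ℕ) (w : List Sym) : wval q x w < q := by
  have h := foldl_wstep_lt hq x w [] (by simp)
  unfold wval
  generalize w.foldl (wstep q x) [] = l at h
  match l, h with
  | [], _ => exact hq
  | a :: l, h => exact h a List.mem_cons_self

section poly

variable (q n : ℕ)

/-- The polynomial version of `wstep`. -/
noncomputable def pstep (st : List (MvPolynomial (Fin n) (ZMod q))) (s : Sym) :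
    List (MvPolynomial (Fin n) (ZMod q)) :=
  open Classical in
  if s.1 = 0 then
    if st.tail = [] then st
    else (C (s.2.1 : ZMod q) * (st.tail.headD 0 + st.headD 0) + C (s.2.2 : ZMod q)) ::
      st.tail.tail
  else if s.1 = 1 then
    if st.tail = [] then st
    else (C (s.2.1 : ZMod q) * (st.tail.headD 0 * st.headD 0) + C (s.2.2 : ZMod q)) ::
      st.tail.tail
  else (C (s.2.1 : ZMod q) * (if h : s.1 - 2 < n then X ⟨s.1 - 2, h⟩ else 0) +
    C (s.2.2 : ZMod q)) :: st

/-- The polynomial of a word. -/
noncomputable def wpoly (w : List Sym) : MvPolynomial (Fin n) (ZMod q) :=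
  (w.foldl (pstep q n) []).headD 0

variable {q n}

theorem getD_ofFn (x : Fin n → ZMod q) (i : ℕ) :
    (List.ofFn (fun i => (x i).val)).getD i 0 = if h : i < n then (x ⟨i, h⟩).val else 0 := by
  split_ifs with h
  · rw [List.getD_eq_getElem _ _ (by simpa using h)]
    simp
  · rw [List.getD_eq_default]
    simpa using h

theorem wstep_pstep [NeZero q] (x : Fin n → ZMod q) (st : List ℕ)
    (pt : List (MvPolynomial (Fin n) (ZMod q))) (h : st.map (Nat.cast : ℕ → ZMod q) = pt.map (eval x))
    (s : Sym) :
    (wstep q (List.ofFn (fun i => (x i).val)) st s).map (Nat.cast : ℕ → ZMod q) =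
      (pstep q n pt s).map (eval x) := by
  have hlen : st.length = pt.length := by
    have := congrArg List.length h
    simpa using this
  have htail : st.tail = [] ↔ pt.tail = [] := by
    rw [← List.length_eq_zero_iff, ← List.length_eq_zero_iff, List.length_tail, List.length_tail,
      hlen]
  unfold wstep pstep
  by_cases h0 : s.1 = 0
  · rw [if_pos h0, if_pos h0]
    by_cases ht : st.tail = []
    · rw [if_pos ht, if_pos (htail.1 ht), h]
    · rw [if_neg ht, if_neg (fun h' => ht (htail.2 h'))]
      match st, pt, h, ht with
      | [], _, _, ht => exact absurd rfl ht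
      | [a], _, _, ht => exact absurd rfl ht
      | b :: a :: st, [], h, _ => simp at h
      | b :: a :: st, [_], h, _ => simp at h
      | b :: a :: st, pb :: pa :: pt, h, _ =>
        simp only [List.map_cons, List.cons.injEq] at h
        simp only [List.tail_cons, List.headD_cons, List.map_cons, h.2.2, List.cons.injEq, and_true]
        rw [ZMod.natCast_mod]
        push_cast
        rw [h.1, h.2.1]
        simp
  · rw [if_neg h0, if_neg h0]
    by_cases h1 : s.1 = 1
    · rw [if_pos h1, if_pos h1]
      by_cases ht : st.tail = []
      · rw [if_pos ht, if_pos (htail.1 ht), h]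
      · rw [if_neg ht, if_neg (fun h' => ht (htail.2 h'))]
        match st, pt, h, ht with
        | [], _, _, ht => exact absurd rfl ht
        | [a], _, _, ht => exact absurd rfl ht
        | b :: a :: st, [], h, _ => simp at h
        | b :: a :: st, [_], h, _ => simp at h
        | b :: a :: st, pb :: pa :: pt, h, _ =>
          simp only [List.map_cons, List.cons.injEq] at h
          simp only [List.tail_cons, List.headD_cons, List.map_cons, h.2.2, List.cons.injEq,
            and_true]
          rw [ZMod.natCast_mod]
          push_cast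
          rw [h.1, h.2.1]
          simp
    · rw [if_neg h1, if_neg h1]
      simp only [List.map_cons, h, List.cons.injEq, and_true]
      rw [getD_ofFn, ZMod.natCast_mod]
      push_cast
      split_ifs with hi
      · simp
      · simp

theorem foldl_wstep_pstep [NeZero q] (x : Fin n → ZMod q) (w : List Sym) :
    ∀ (st : List ℕ) (pt : List (MvPolynomial (Fin n) (ZMod q))),
    st.map (Nat.cast : ℕ → ZMod q) = pt.map (eval x) →
    (w.foldl (wstep q (List.ofFn (fun i => (x i).val))) st).map (Nat.cast : ℕ → ZMod q) =
      (w.foldl (pstep q n) pt).map (eval x) := by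
  induction w with
  | nil => intro st pt h; exact h
  | cons s w ih =>
    intro st pt h
    exact ih _ _ (wstep_pstep x st pt h s)

theorem wval_eq [NeZero q] (x : Fin n → ZMod q) (w : List Sym) :
    ((wval q (List.ofFn (fun i => (x i).val)) w : ℕ) : ZMod q) = eval x (wpoly q n w) := by
  have h := foldl_wstep_pstep x w [] [] rfl
  unfold wval wpoly
  generalize w.foldl (wstep q (List.ofFn (fun i => (x i).val))) [] = l at h
  generalize w.foldl (pstep q n) [] = m at h
  match l, m, h with
  | [], [], _ => simp
  | [], _ :: _, h => simp at h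
  | _ :: _, [], h => simp at h
  | a :: l, b :: m, h =>
    simp only [List.map_cons, List.cons.injEq] at h
    simpa using h.1

theorem degree_pstep (st : List (MvPolynomial (Fin n) (ZMod q))) (s : Sym) :
    ((pstep q n st s).map totalDegree).sum ≤ (st.map totalDegree).sum + 1 := by
  unfold pstep
  have hC : ∀ (c d : ZMod q) (p : MvPolynomial (Fin n) (ZMod q)),
      (C c * p + C d).totalDegree ≤ p.totalDegree := by
    intro c d p
    refine (totalDegree_add _ _).trans ?_
    rw [totalDegree_C, Nat.max_zero]
    refine (totalDegree_mul _ _).trans ?_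
    rw [totalDegree_C, Nat.zero_add]
  split_ifs with h0 ht h1 ht' hi
  · omega
  · match st, ht with
    | [], ht => exact absurd rfl ht
    | [a], ht => exact absurd rfl ht
    | b :: a :: st, _ =>
      simp only [List.tail_cons, List.headD_cons, List.map_cons, List.sum_cons]
      have h1 := hC (s.2.1 : ZMod q) (s.2.2 : ZMod q) (a + b)
      have h2 := totalDegree_add a b
      have h3 : max a.totalDegree b.totalDegree ≤ a.totalDegree + b.totalDegree := by omega
      omega
  · omega
  · match st, ht' with
    | [], ht => exact absurd rfl ht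
    | [a], ht => exact absurd rfl ht
    | b :: a :: st, _ =>
      simp only [List.tail_cons, List.headD_cons, List.map_cons, List.sum_cons]
      have h1 := hC (s.2.1 : ZMod q) (s.2.2 : ZMod q) (a * b)
      have h2 := totalDegree_mul a b
      omega
  · simp only [List.map_cons, List.sum_cons]
    have h1 := hC (s.2.1 : ZMod q) (s.2.2 : ZMod q) (X ⟨s.1 - 2, hi⟩)
    have h2 : (X ⟨s.1 - 2, hi⟩ : MvPolynomial (Fin n) (ZMod q)).totalDegree ≤ 1 := by
      rcases subsingleton_or_nontrivial (ZMod q) with h | h
      · have : (X ⟨s.1 - 2, hi⟩ : MvPolynomial (Fin n) (ZMod q)) = 0 := Subsingleton.elim _ _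
        rw [this]; simp
      · rw [totalDegree_X]
    omega
  · simp only [List.map_cons, List.sum_cons]
    have h1 := hC (s.2.1 : ZMod q) (s.2.2 : ZMod q) 0
    rw [totalDegree_zero] at h1
    omega

theorem degree_foldl (w : List Sym) : ∀ (st : List (MvPolynomial (Fin n) (ZMod q))),
    ((w.foldl (pstep q n) st).map totalDegree).sum ≤ (st.map totalDegree).sum + w.length := by
  induction w with
  | nil => intro st; simp
  | cons s w ih =>
    intro st
    rw [List.foldl_cons, List.length_cons]
    have h1 := ih (pstep q n st s)
    have h2 := degree_pstep st s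
    omega

theorem totalDegree_wpoly (w : List Sym) : (wpoly q n w).totalDegree ≤ w.length := by
  have h := degree_foldl (q := q) (n := n) w []
  unfold wpoly
  generalize w.foldl (pstep q n) [] = m at h
  match m, h with
  | [], _ => simp
  | b :: m, h =>
    simp only [List.map_cons, List.sum_cons, List.map_nil, List.sum_nil] at h
    simp only [List.headD_cons]
    omega

end poly

end Pool.Agent.PIT
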