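import Mathlib
import Pool.Agent.Work.MP_3c5c20_lc.Words

/-!
# Greedy hitting sets for short words
-/

set_option autoImplicit false

namespace Pool.Agent.PIT

open MvPolynomial

/-- All lists of length `n` with entries in `{0, …, q-1}`. -/
def pts (q : ℕ) : ℕ → List (List ℕ)
  | 0 => [[]]
  | n + 1 => (pts q n).flatMap (fun l => (List.range q).map (fun v => v :: l))

theorem mem_pts {q n : ℕ} {l : List ℕ} : l ∈ pts q n ↔ l.length = n ∧ ∀ v ∈ l, v < q := by
  induction n generalizing l with
  | zero =>
    simp only [pts, List.mem_singleton]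
    constructor
    · rintro rfl; simp
    · rintro ⟨h, -⟩; exact List.length_eq_zero_iff.1 h
  | succ n ih =>
    simp only [pts, List.mem_flatMap, List.mem_map, List.mem_range]
    constructor
    · rintro ⟨l', hl', v, hv, rfl⟩
      have := ih.1 hl'
      refine ⟨by simp [this.1], ?_⟩
      intro u hu
      rcases List.mem_cons.1 hu with rfl | hu
      · exact hv
      · exact this.2 u hu
    · rintro ⟨h1, h2⟩
      match l, h1, h2 with
      | v :: l', h1, h2 =>
        refine ⟨l', ih.2 ⟨by simpa using h1, fun u hu => h2 u (List.mem_cons_of_mem _ hu)⟩, v,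
          h2 v List.mem_cons_self, rfl⟩

theorem length_pts (q n : ℕ) : (pts q n).length = q ^ n := by
  induction n with
  | zero => rfl
  | succ n ih =>
    simp only [pts, List.length_flatMap, List.length_map, List.length_range, List.map_const',
      List.sum_replicate, ih, smul_eq_mul, pow_succ]

theorem nodup_pts (q n : ℕ) : (pts q n).Nodup := by
  induction n with
  | zero => simp [pts]
  | succ n ih =>
    rw [pts, List.nodup_flatMap]
    refine ⟨fun l _ => ?_, ?_⟩
    · refine List.Nodup.map ?_ List.nodup_range
      intro a b h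
      exact (List.cons.inj h).1
    · refine List.Pairwise.imp_of_mem ?_ ih
      intro l l' _ _ hne x hx hx'
      simp only [List.mem_map] at hx hx'
      obtain ⟨v, _, rfl⟩ := hx
      obtain ⟨v', _, h⟩ := hx'
      exact hne (List.cons.inj h).2.symm

/-- The list of coordinates of a point of `(ZMod q)^n`. -/
def toL {q n : ℕ} (x : Fin n → ZMod q) : List ℕ := List.ofFn (fun i => (x i).val)

theorem toL_injective {q n : ℕ} [NeZero q] : Function.Injective (toL (q := q) (n := n)) := by
  intro x y h
  have := List.ofFn_injective h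
  funext i
  exact ZMod.val_injective q (congrFun this i)

theorem toL_mem_pts {q n : ℕ} [NeZero q] (x : Fin n → ZMod q) : toL x ∈ pts q n := by
  rw [mem_pts]
  refine ⟨by simp [toL], ?_⟩
  intro v hv
  simp only [toL, List.mem_ofFn] at hv
  obtain ⟨i, rfl⟩ := hv
  exact ZMod.val_lt _

theorem exists_toL {q n : ℕ} [NeZero q] {l : List ℕ} (h : l ∈ pts q n) :
    ∃ x : Fin n → ZMod q, toL x = l := by
  rw [mem_pts] at h
  obtain ⟨h1, h2⟩ := h
  refine ⟨fun i => ((l[i.val]'(by rw [h1]; exact i.2) : ℕ) : ZMod q), ?_⟩
  apply List.ext_getElem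
  · simp [toL, h1]
  · intro i hi hi'
    simp only [toL, List.getElem_ofFn]
    exact ZMod.val_cast_of_lt (h2 _ (List.getElem_mem _))

theorem countP_pts {q n : ℕ} [NeZero q] (P : List ℕ → Bool) :
    (pts q n).countP P = (Finset.univ.filter (fun x : Fin n → ZMod q => P (toL x) = true)).card := by
  have hperm : (pts q n).Perm ((Finset.univ : Finset (Fin n → ZMod q)).toList.map toL) := by
    rw [List.perm_ext_iff_of_nodup (nodup_pts q n)
      ((Finset.nodup_toList _).map toL_injective)]
    intro l
    simp only [List.mem_map, Finset.mem_toList, Finset.mem_univ, true_and]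
    exact ⟨fun h => exists_toL h, fun ⟨x, hx⟩ => hx ▸ toL_mem_pts x⟩
  have h2 : (Finset.univ.filter (fun x : Fin n → ZMod q => P (toL x) = true)).card =
      Multiset.countP (fun x : Fin n → ZMod q => P (toL x) = true) Finset.univ.val := by
    rw [Multiset.countP_eq_card_filter]
    rfl
  rw [h2, hperm.countP_eq, List.countP_map, ← Finset.coe_toList, Multiset.coe_countP]
  congr 1
  funext x
  simp

/-- **Schwartz-Zippel for words**: a word of length at most `q / 2` that does not vanish
identically vanishes on at most half of the points. -/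
theorem two_mul_countP_le {q n : ℕ} (hq : q.Prime) (w : List Sym) (hw : 2 * w.length ≤ q)
    (hne : ∃ x ∈ pts q n, wval q x w ≠ 0) :
    2 * (pts q n).countP (fun x => decide (wval q x w = 0)) ≤ (pts q n).length := by
  have : Fact q.Prime := ⟨hq⟩
  have : NeZero q := ⟨hq.ne_zero⟩
  have hval : ∀ x : Fin n → ZMod q, wval q (toL x) w = 0 ↔ eval x (wpoly q n w) = 0 := by
    intro x
    rw [← wval_eq]
    show wval q (toL x) w = 0 ↔ ((wval q (toL x) w : ℕ) : ZMod q) = 0
    rw [ZMod.natCast_eq_zero_iff]
    constructor
    · intro h; rw [h]; exact dvd_zero _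
    · intro h
      exact Nat.eq_zero_of_dvd_of_lt h (wval_lt hq.pos _ _)
  have hp : wpoly q n w ≠ 0 := by
    intro h0
    obtain ⟨l, hl, hne⟩ := hne
    obtain ⟨x, rfl⟩ := exists_toL hl
    exact hne ((hval x).2 (by rw [h0]; simp))
  rw [countP_pts, length_pts]
  have h1 := schwartz_zippel_totalDegree hp (Finset.univ : Finset (ZMod q))
  rw [Finset.card_univ, ZMod.card, Fintype.piFinset_univ] at h1
  have h2 : (Finset.univ.filter (fun x : Fin n → ZMod q => decide (wval q (toL x) w = 0) = true)) =
      (Finset.univ.filter (fun x : Fin n → ZMod q => eval x (wpoly q n w) = 0)) := by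
    apply Finset.filter_congr
    intro x _
    rw [decide_eq_true_iff]
    exact hval x
  rw [h2]
  generalize (Finset.univ.filter (fun x : Fin n → ZMod q => eval x (wpoly q n w) = 0)).card = c at h1
  have hq0 : (0 : ℚ≥0) < q := by exact_mod_cast hq.pos
  rw [div_le_div_iff₀ (pow_pos hq0 n) hq0] at h1
  have h3 : c * q ≤ (wpoly q n w).totalDegree * q ^ n := by exact_mod_cast h1
  have h4 := totalDegree_wpoly (q := q) (n := n) w
  have h5 : 2 * c * q ≤ q ^ n * q := by
    calc 2 * c * q = 2 * (c * q) := by ring
      _ ≤ 2 * ((wpoly q n w).totalDegree * q ^ n) := Nat.mul_le_mul_left _ h3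
      _ ≤ 2 * (w.length * q ^ n) := by gcongr
      _ = (2 * w.length) * q ^ n := by ring
      _ ≤ q * q ^ n := Nat.mul_le_mul_right _ hw
      _ = q ^ n * q := by ring
  exact Nat.le_of_mul_le_mul_right h5 hq.pos

/-! ### The greedy algorithm -/

/-- The number of words of `R` not vanishing at `x`. -/
def score (q : ℕ) (R : List (List Sym)) (x : List ℕ) : ℕ :=
  (R.filter (fun w => !decide (wval q x w = 0))).length

/-- The first point of `P` at which at least half of the words of `R` do not vanish. -/
def pickPt (q : ℕ) (P : List (List ℕ)) (R : List (List Sym)) : List ℕ :=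
  (P.filter (fun x => decide (R.length ≤ 2 * score q R x))).headD []

/-- One step of the greedy algorithm. -/
def gstep (q : ℕ) (P : List (List ℕ)) (s : List (List Sym) × List (List ℕ)) :
    List (List Sym) × List (List ℕ) :=
  (s.1.filter (fun w => decide (wval q (pickPt q P s.1) w = 0)), pickPt q P s.1 :: s.2)

/-- The greedy hitting set after `T` steps. -/
def greedy (q : ℕ) (P : List (List ℕ)) (R : List (List Sym)) (T : ℕ) : List (List ℕ) :=
  ((gstep q P)^[T] (R, [])).2

theorem score_cons (q : ℕ) (w : List Sym) (R : List (List Sym)) (x : List ℕ) :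
    score q (w :: R) x = (if wval q x w = 0 then 0 else 1) + score q R x := by
  unfold score
  rw [List.filter_cons]
  by_cases h : wval q x w = 0
  · simp [h]
  · simp [h]; omega

theorem sum_score (q : ℕ) (P : List (List ℕ)) (R : List (List Sym)) :
    (P.map (score q R)).sum =
      (R.map (fun w => (P.countP (fun x => !decide (wval q x w = 0))))).sum := by
  induction R with
  | nil =>
    have h0 : ∀ Q : List (List ℕ), (Q.map (score q [])).sum = 0 := by
      intro Q
      induction Q with
      | nil => rfl
      | cons x Q ih => rw [List.map_cons, List.sum_cons, ih]; rfl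
    rw [h0]; rfl
  | cons w R ih =>
    rw [List.map_cons, List.sum_cons, ← ih]
    have h1 : ∀ Q : List (List ℕ), (Q.map (score q (w :: R))).sum =
        Q.countP (fun x => !decide (wval q x w = 0)) + (Q.map (score q R)).sum := by
      intro Q
      induction Q with
      | nil => simp
      | cons x Q ihQ =>
        rw [List.map_cons, List.sum_cons, List.map_cons, List.sum_cons, ihQ, score_cons,
          List.countP_cons]
        by_cases h : wval q x w = 0
        · simp [h]; omega
        · simp [h]; omega
    exact h1 P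

theorem exists_good_point {q n : ℕ} (hq : q.Prime) (R : List (List Sym))
    (hR : ∀ w ∈ R, 2 * w.length ≤ q ∧ ∃ x ∈ pts q n, wval q x w ≠ 0) :
    ∃ x ∈ pts q n, R.length ≤ 2 * score q R x := by
  by_contra hcon
  push Not at hcon
  have hpos : 0 < (pts q n).length := by
    rw [length_pts]; exact pow_pos hq.pos _
  have h1 : ∀ Q : List (List ℕ), (∀ x ∈ Q, 2 * score q R x < R.length) →
      2 * (Q.map (score q R)).sum + Q.length ≤ Q.length * R.length := by
    intro Q
    induction Q with
    | nil => intro _; simp
    | cons x Q ih =>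
      intro h
      have h2 := h x List.mem_cons_self
      have h3 := ih (fun y hy => h y (List.mem_cons_of_mem _ hy))
      rw [List.map_cons, List.sum_cons, List.length_cons, Nat.add_mul, Nat.one_mul]
      omega
  have h2 := h1 (pts q n) hcon
  rw [sum_score] at h2
  have h3 : ∀ R' : List (List Sym), (∀ w ∈ R', 2 * w.length ≤ q ∧ ∃ x ∈ pts q n, wval q x w ≠ 0) →
      (pts q n).length * R'.length ≤ 2 * (R'.map (fun w =>
        ((pts q n).countP (fun x => !decide (wval q x w = 0))))).sum := by
    intro R'
    induction R' with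
    | nil => intro _; simp
    | cons w R' ih =>
      intro h
      have h4 := ih (fun y hy => h y (List.mem_cons_of_mem _ hy))
      have h5 := h w List.mem_cons_self
      have h6 := two_mul_countP_le hq w h5.1 h5.2
      have h7 := List.length_eq_countP_add_countP (fun x => decide (wval q x w = 0))
        (l := pts q n)
      have h8 : (pts q n).countP (fun x => !decide (wval q x w = 0)) =
          (pts q n).countP (fun a => decide ¬decide (wval q a w = 0) = true) := by
        congr 1
        funext x
        by_cases hx : wval q x w = 0 <;> simp [hx]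
      rw [List.map_cons, List.sum_cons, List.length_cons, Nat.mul_succ, h8]
      omega
  have h4 := h3 R hR
  have h5 : (pts q n).length * R.length = (pts q n).length * R.length := rfl
  omega

theorem pickPt_spec {q n : ℕ} (hq : q.Prime) (R : List (List Sym))
    (hR : ∀ w ∈ R, 2 * w.length ≤ q ∧ ∃ x ∈ pts q n, wval q x w ≠ 0) :
    pickPt q (pts q n) R ∈ pts q n ∧ R.length ≤ 2 * score q R (pickPt q (pts q n) R) := by
  obtain ⟨x, hx, hx'⟩ := exists_good_point hq R hR
  have hmem : x ∈ (pts q n).filter (fun x => decide (R.length ≤ 2 * score q R x)) := by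
    rw [List.mem_filter]
    exact ⟨hx, by simpa using hx'⟩
  unfold pickPt
  generalize hl : (pts q n).filter (fun x => decide (R.length ≤ 2 * score q R x)) = l at hmem
  match l, hmem with
  | a :: l, _ =>
    have : a ∈ (pts q n).filter (fun x => decide (R.length ≤ 2 * score q R x)) := by
      rw [hl]; exact List.mem_cons_self
    rw [List.mem_filter] at this
    simp only [List.headD_cons]
    exact ⟨this.1, by simpa using this.2⟩

theorem greedy_invariant {q n : ℕ} (hq : q.Prime) (R : List (List Sym))
    (hR : ∀ w ∈ R, 2 * w.length ≤ q ∧ ∃ x ∈ pts q n, wval q x w ≠ 0) (t : ℕ) :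
    (∀ w ∈ ((gstep q (pts q n))^[t] (R, [])).1, w ∈ R) ∧
    (∀ w ∈ R, w ∈ ((gstep q (pts q n))^[t] (R, [])).1 ∨
      ∃ x ∈ ((gstep q (pts q n))^[t] (R, [])).2, wval q x w ≠ 0) ∧
    (∀ x ∈ ((gstep q (pts q n))^[t] (R, [])).2, x ∈ pts q n) ∧
    ((gstep q (pts q n))^[t] (R, [])).1.length * 2 ^ t ≤ R.length ∧
    ((gstep q (pts q n))^[t] (R, [])).2.length = t := by
  induction t with
  | zero => simp
  | succ t ih =>
    rw [Function.iterate_succ_apply']
    generalize (gstep q (pts q n))^[t] (R, []) = s at ih
    obtain ⟨h1, h2, h3, h4, h5⟩ := ih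
    have hspec := pickPt_spec hq s.1 (fun w hw => hR w (h1 w hw))
    refine ⟨?_, ?_, ?_, ?_, ?_⟩
    · intro w hw
      exact h1 w (List.mem_of_mem_filter hw)
    · intro w hw
      rcases h2 w hw with h | ⟨x, hx, hxw⟩
      · by_cases h0 : wval q (pickPt q (pts q n) s.1) w = 0
        · left
          exact List.mem_filter.2 ⟨h, by simpa using h0⟩
        · right
          exact ⟨_, List.mem_cons_self, h0⟩
      · right
        exact ⟨x, List.mem_cons_of_mem _ hx, hxw⟩
    · intro x hx
      rcases List.mem_cons.1 hx with rfl | hx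
      · exact hspec.1
      · exact h3 x hx
    · have h6 : (s.1.filter (fun w => decide (wval q (pickPt q (pts q n) s.1) w = 0))).length +
          score q s.1 (pickPt q (pts q n) s.1) = s.1.length := by
        unfold score
        rw [← List.length_eq_length_filter_add]
      have h7 : 2 * (s.1.filter (fun w => decide (wval q (pickPt q (pts q n) s.1) w = 0))).length
          ≤ s.1.length := by omega
      show (s.1.filter (fun w => decide (wval q (pickPt q (pts q n) s.1) w = 0))).length *
        2 ^ (t + 1) ≤ R.length
      calc _ = 2 * (s.1.filter (fun w =>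
            decide (wval q (pickPt q (pts q n) s.1) w = 0))).length * 2 ^ t := by ring
        _ ≤ s.1.length * 2 ^ t := Nat.mul_le_mul_right _ h7
        _ ≤ R.length := h4
    · show (pickPt q (pts q n) s.1 :: s.2).length = t + 1
      rw [List.length_cons, h5]

/-- The greedy set hits every word of `R`. -/
theorem greedy_hits {q n : ℕ} (hq : q.Prime) (R : List (List Sym))
    (hR : ∀ w ∈ R, 2 * w.length ≤ q ∧ ∃ x ∈ pts q n, wval q x w ≠ 0) {T : ℕ}
    (hT : R.length < 2 ^ T) :
    ∀ w ∈ R, ∃ x ∈ greedy q (pts q n) R T, wval q x w ≠ 0 := by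
  intro w hw
  obtain ⟨h1, h2, h3, h4, h5⟩ := greedy_invariant hq R hR T
  have hnil : ((gstep q (pts q n))^[T] (R, [])).1 = [] := by
    rw [← List.length_eq_zero_iff]
    by_contra hne
    have : 1 ≤ ((gstep q (pts q n))^[T] (R, [])).1.length := Nat.one_le_iff_ne_zero.2 hne
    have h6 : 1 * 2 ^ T ≤ ((gstep q (pts q n))^[T] (R, [])).1.length * 2 ^ T :=
      Nat.mul_le_mul_right _ this
    omega
  rcases h2 w hw with h | h
  · rw [hnil] at h
    simp at h
  · exact h

theorem greedy_mem {q n : ℕ} (hq : q.Prime) (R : List (List Sym))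
    (hR : ∀ w ∈ R, 2 * w.length ≤ q ∧ ∃ x ∈ pts q n, wval q x w ≠ 0) (T : ℕ) :
    ∀ x ∈ greedy q (pts q n) R T, x ∈ pts q n :=
  (greedy_invariant hq R hR T).2.2.1

theorem greedy_length (q : ℕ) (P : List (List ℕ)) (R : List (List Sym)) (T : ℕ) :
    (greedy q P R T).length = T := by
  unfold greedy
  induction T with
  | zero => rfl
  | succ T ih =>
    rw [Function.iterate_succ_apply']
    show ((gstep q P)^[T] (R, [])).2.length + 1 = T + 1
    rw [ih]

end Pool.Agent.PIT
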