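import Mathlib
import Pool.Agent.Work.MP_3c5c20_lc.Greedy

/-!
# Hitting sets for all words of bounded length
-/

set_option autoImplicit false

namespace Pool.Agent.PIT

open MvPolynomial

/-- The alphabet: all symbols `(k, α, β)` with `k < σ + 2` and `α, β < q`. -/
def alph (q σ : ℕ) : List Sym :=
  (List.range (σ + 2)).flatMap (fun k => (List.range q).flatMap (fun α =>
    (List.range q).map (fun β => (k, (α, β)))))

theorem mem_alph {q σ : ℕ} {s : Sym} : s ∈ alph q σ ↔ s.1 < σ + 2 ∧ s.2.1 < q ∧ s.2.2 < q := by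
  obtain ⟨k, α, β⟩ := s
  simp only [alph, List.mem_flatMap, List.mem_range, List.mem_map, Prod.mk.injEq]
  constructor
  · rintro ⟨k', hk, α', hα, β', hβ, rfl, rfl, rfl⟩
    exact ⟨hk, hα, hβ⟩
  · rintro ⟨hk, hα, hβ⟩
    exact ⟨k, hk, α, hα, β, hβ, rfl, rfl, rfl⟩

theorem length_alph (q σ : ℕ) : (alph q σ).length = (σ + 2) * (q * q) := by
  simp [alph, List.length_flatMap, List.map_const', List.sum_replicate]

/-- All words of length at most `L` over the alphabet `A` (lists clipped at length `N`). -/
def allW (N : ℕ) (A : List Sym) (L : ℕ) : List (List Sym) :=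
  (fun W : List (List Sym) => ([] :: A.flatMap (fun s => W.map (fun w => s :: w))).take N)^[L] [[]]

/-- Clipped version of `pts`. -/
def cpts (N q n : ℕ) : List (List ℕ) :=
  (fun P : List (List ℕ) =>
    (P.flatMap (fun l => (List.range q).map (fun v => v :: l))).take N)^[n] [[]]

theorem cpts_eq {N q : ℕ} (hq : 0 < q) : ∀ n : ℕ, q ^ n ≤ N → cpts N q n = pts q n := by
  intro n
  induction n with
  | zero => intro _; rfl
  | succ n ih =>
    intro h
    have h1 : q ^ n ≤ N := (Nat.pow_le_pow_right hq (Nat.le_succ n)).trans h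
    unfold cpts at ih ⊢
    rw [Function.iterate_succ_apply', ih h1]
    have h2 : (pts q (n + 1)).length ≤ N := by rw [length_pts]; exact h
    exact List.take_of_length_le h2

theorem length_allW_le (N : ℕ) (A : List Sym) (L : ℕ) : (allW N A L).length ≤ (A.length + 1) ^ L := by
  induction L with
  | zero => simp [allW]
  | succ L ih =>
    unfold allW at ih ⊢
    rw [Function.iterate_succ_apply', List.length_take, List.length_cons, List.length_flatMap]
    generalize (fun W : List (List Sym) =>
      ([] :: A.flatMap (fun s => W.map (fun w => s :: w))).take N)^[L] [[]] = W at ih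
    have h1 : (A.map (fun s => (W.map (fun w => s :: w)).length)).sum = A.length * W.length := by
      simp
    rw [h1, pow_succ]
    have h2 : 1 ≤ (A.length + 1) ^ L := Nat.one_le_pow _ _ (by omega)
    have h3 := Nat.mul_le_mul_left A.length ih
    refine (Nat.min_le_right _ _).trans ?_
    rw [Nat.mul_comm ((A.length + 1) ^ L), Nat.add_mul, Nat.one_mul]
    omega

theorem mem_allW {N : ℕ} {A : List Sym} : ∀ {L : ℕ}, (A.length + 1) ^ L ≤ N →
    ∀ {w : List Sym}, w.length ≤ L → (∀ s ∈ w, s ∈ A) → w ∈ allW N A L := by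
  intro L
  induction L with
  | zero =>
    intro _ w hw _
    have : w = [] := List.length_eq_zero_iff.1 (by omega)
    subst this
    simp [allW]
  | succ L ih =>
    intro hN w hw hA
    have h1 : (A.length + 1) ^ L ≤ N :=
      (Nat.pow_le_pow_right (by omega) (Nat.le_succ L)).trans hN
    have hlen := length_allW_le N A L
    have ih' := fun w => @ih h1 w
    unfold allW at ih' hlen ⊢
    rw [Function.iterate_succ_apply']
    generalize (fun W : List (List Sym) =>
      ([] :: A.flatMap (fun s => W.map (fun w => s :: w))).take N)^[L] [[]] = W at ih' hlen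
    rw [List.take_of_length_le]
    · match w, hw, hA with
      | [], _, _ => exact List.mem_cons_self
      | s :: w, hw, hA =>
        refine List.mem_cons_of_mem _ (List.mem_flatMap.2 ⟨s, hA s List.mem_cons_self, ?_⟩)
        exact List.mem_map.2 ⟨w, ih' w (by simpa using hw)
          (fun t ht => hA t (List.mem_cons_of_mem _ ht)), rfl⟩
    · rw [List.length_cons, List.length_flatMap]
      have h3 : (A.map (fun s => (W.map (fun w => s :: w)).length)).sum = A.length * W.length := by
        simp
      rw [h3]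
      have h2 : 1 ≤ (A.length + 1) ^ L := Nat.one_le_pow _ _ (by omega)
      have h4 := Nat.mul_le_mul_left A.length hlen
      rw [pow_succ, Nat.mul_comm ((A.length + 1) ^ L), Nat.add_mul, Nat.one_mul] at hN
      omega

theorem length_of_mem_allW {N : ℕ} {A : List Sym} {L : ℕ} : ∀ w ∈ allW N A L,
    w.length ≤ L ∧ ∀ s ∈ w, s ∈ A := by
  induction L with
  | zero => intro w hw; simp [allW] at hw; subst hw; simp
  | succ L ih =>
    intro w hw
    unfold allW at ih hw
    rw [Function.iterate_succ_apply'] at hw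
    have hw' := List.mem_of_mem_take hw
    rcases List.mem_cons.1 hw' with rfl | hw'
    · simp
    · obtain ⟨s, hs, hw''⟩ := List.mem_flatMap.1 hw'
      obtain ⟨w', hw3, rfl⟩ := List.mem_map.1 hw''
      obtain ⟨h1, h2⟩ := ih w' hw3
      refine ⟨by simpa using h1, ?_⟩
      intro t ht
      rcases List.mem_cons.1 ht with rfl | ht
      · exact hs
      · exact h2 t ht

/-- The words of length at most `L` which do not vanish identically on the points. -/
def relW (N q σ L : ℕ) : List (List Sym) :=
  (allW N (alph q σ) L).filter (fun w => (cpts N q σ).any (fun x => !decide (wval q x w = 0)))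

/-- The hitting set of size `T` for words of length at most `L`. -/
def hset (N q σ L T : ℕ) : List (List ℕ) := greedy q (cpts N q σ) (relW N q σ L) T

theorem length_hset (N q σ L T : ℕ) : (hset N q σ L T).length = T := greedy_length _ _ _ _

theorem relW_spec {N q σ L : ℕ} (hq : q.Prime) (hL : 2 * L ≤ q) (hN : q ^ σ ≤ N) :
    ∀ w ∈ relW N q σ L, 2 * w.length ≤ q ∧ ∃ x ∈ pts q σ, wval q x w ≠ 0 := by
  intro w hw
  unfold relW at hw
  rw [List.mem_filter] at hw
  obtain ⟨h1, h2⟩ := hw
  have h3 := (length_of_mem_allW w h1).1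
  refine ⟨by omega, ?_⟩
  rw [List.any_eq_true] at h2
  obtain ⟨x, hx, hx2⟩ := h2
  rw [cpts_eq hq.pos σ hN] at hx
  exact ⟨x, hx, by simpa using hx2⟩

theorem hset_mem {N q σ L T : ℕ} (hq : q.Prime) (hL : 2 * L ≤ q) (hN : q ^ σ ≤ N) :
    ∀ x ∈ hset N q σ L T, x ∈ pts q σ := by
  unfold hset
  rw [cpts_eq hq.pos σ hN]
  exact greedy_mem hq _ (relW_spec hq hL hN) T

theorem hset_hits {N q σ L T : ℕ} (hq : q.Prime) (hL : 2 * L ≤ q) (hN : q ^ σ ≤ N)
    (hW : ((alph q σ).length + 1) ^ L ≤ N) (hT : ((alph q σ).length + 1) ^ L < 2 ^ T)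
    (w : List Sym) (hw : w.length ≤ L) (hA : ∀ s ∈ w, s ∈ alph q σ)
    (hne : ∃ x ∈ pts q σ, wval q x w ≠ 0) :
    ∃ x ∈ hset N q σ L T, wval q x w ≠ 0 := by
  unfold hset
  rw [cpts_eq hq.pos σ hN]
  refine greedy_hits hq _ (relW_spec hq hL hN) ?_ w ?_
  · refine lt_of_le_of_lt ?_ hT
    exact (List.length_filter_le _ _).trans (length_allW_le _ _ _)
  · unfold relW
    rw [List.mem_filter]
    refine ⟨mem_allW hW hw hA, ?_⟩
    rw [List.any_eq_true, cpts_eq hq.pos σ hN]
    obtain ⟨x, hx, hx2⟩ := hne
    exact ⟨x, hx, by simpa using hx2⟩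

end Pool.Agent.PIT
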