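import Mathlib

/-!
# The language of arithmetic expressions

Arithmetic expressions over the rational numbers as strings, their trees and their polynomials.
-/

set_option autoImplicit false

namespace Pool.Agent.PIT

open MvPolynomial

/-- Names of variables and digit strings: lists of binary digits. -/
abbrev Name : Type := List Bool

/-- The natural number with the given binary digits (most significant digit first). -/
def natOf (l : List Bool) : ℕ := l.foldl (fun a b => 2 * a + (if b then 1 else 0)) 0

/-- Trees of arithmetic expressions: variables (with the digits of their index), rational constants
(sign, digits of the numerator, digits of the denominator), sums, differences, products. -/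
inductive Ex : Type
  | var (v : Name)
  | const (neg : Bool) (num den : List Bool)
  | add (a b : Ex)
  | sub (a b : Ex)
  | mul (a b : Ex)

/-- The polynomial with rational coefficients defined by an expression: the variable whose index has
the binary digits `v` is `X j`, where `j` is the number with these digits. -/
noncomputable def Ex.npoly : Ex → MvPolynomial ℕ ℚ
  | .var v => X (natOf v)
  | .const neg num den =>
    C ((if neg then -(natOf num : ℚ) else (natOf num : ℚ)) / (natOf den : ℚ))
  | .add a b => a.npoly + b.npoly
  | .sub a b => a.npoly - b.npoly
  | .mul a b => a.npoly * b.npoly

/-- The symbols of arithmetic expressions: `x`, the binary digits, `/`, `+`, `-`, `×`, `(`, `)`. -/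
inductive Sy : Type
  | x | zero | one | slash | plus | minus | times | lp | rp
  deriving DecidableEq

/-- A string of binary digits. -/
def digs (l : List Bool) : List Sy := l.map (fun b => if b then Sy.one else Sy.zero)

/-- The sign of a constant. -/
def sgn (neg : Bool) : List Sy := if neg then [Sy.minus] else []

/-- The grammar: `Der 2 s E` if the string `s` is a factor, `Der 1 s E` if it is a term,
`Der 0 s E` if it is an expression, with tree `E`. Variables are written as `x` followed by
the binary representation of their (positive) index, constants as numerator `/` denominator, in
binary (the numerator possibly with a minus sign, the denominator nonzero). Products bind stronger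
than sums and differences, operations of equal strength associate to the left, and there may be
any number of parentheses. -/
inductive Der : ℕ → List Sy → Ex → Prop
  | var (l : List Bool) : Der 2 (Sy.x :: digs (true :: l)) (.var (true :: l))
  | const (neg : Bool) (num den : List Bool) (h1 : num ≠ []) (h2 : natOf den ≠ 0) :
      Der 2 (sgn neg ++ (digs num ++ Sy.slash :: digs den)) (.const neg num den)
  | paren {s : List Sy} {E : Ex} : Der 0 s E → Der 2 (Sy.lp :: (s ++ [Sy.rp])) E
  | factor {s : List Sy} {E : Ex} : Der 2 s E → Der 1 s E
  | mul {s t : List Sy} {a b : Ex} : Der 1 s a → Der 2 t b → Der 1 (s ++ Sy.times :: t) (.mul a b)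
  | term {s : List Sy} {E : Ex} : Der 1 s E → Der 0 s E
  | add {s t : List Sy} {a b : Ex} : Der 0 s a → Der 1 t b → Der 0 (s ++ Sy.plus :: t) (.add a b)
  | sub {s t : List Sy} {a b : Ex} : Der 0 s a → Der 1 t b → Der 0 (s ++ Sy.minus :: t) (.sub a b)

/-- The set NONZERO of arithmetic expressions which define a nonzero polynomial. -/
def Nonzero : Set (List Sy) := {s | ∃ E : Ex, Der 0 s E ∧ E.npoly ≠ 0}

/-- Four bits for each symbol. -/
def Sy.bits : Sy → List Bool
  | .x => [false, false, false, false]
  | .zero => [false, false, false, true]
  | .one => [false, false, true, false]
  | .slash => [false, false, true, true]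
  | .plus => [false, true, false, false]
  | .minus => [false, true, false, true]
  | .times => [false, true, true, false]
  | .lp => [false, true, true, true]
  | .rp => [true, false, false, false]

/-- The binary encoding of a string, four bits for each symbol. -/
def scode (s : List Sy) : List Bool := s.flatMap Sy.bits

end Pool.Agent.PIT
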