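import Mathlib
import Pool.Agent.Work.MP_3c5c20_lc.Lang

/-!
# Arithmetic expressions as trees, postfix notation, numerators and denominators
-/

set_option autoImplicit false

namespace Pool.Agent.PIT

open MvPolynomial

/-- All denominators are nonzero. -/
def Ex.ok : Ex → Prop
  | .var _ => True
  | .const _ _ den => natOf den ≠ 0
  | .add a b => a.ok ∧ b.ok
  | .sub a b => a.ok ∧ b.ok
  | .mul a b => a.ok ∧ b.ok

/-- The polynomial of an expression. -/
noncomputable def Ex.poly : Ex → MvPolynomial Name ℚ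
  | .var v => X v
  | .const neg num den =>
    C ((if neg then -(natOf num : ℚ) else (natOf num : ℚ)) / (natOf den : ℚ))
  | .add a b => a.poly + b.poly
  | .sub a b => a.poly - b.poly
  | .mul a b => a.poly * b.poly

/-- Numerator and denominator of the value of an expression in a commutative ring. -/
def Ex.nd {R : Type*} [CommRing R] (g : Name → R) : Ex → R × R
  | .var v => (g v, 1)
  | .const neg num den => (if neg then -(natOf num : R) else (natOf num : R), (natOf den : R))
  | .add a b => ((a.nd g).1 * (b.nd g).2 + (b.nd g).1 * (a.nd g).2, (a.nd g).2 * (b.nd g).2)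
  | .sub a b => ((a.nd g).1 * (b.nd g).2 - (b.nd g).1 * (a.nd g).2, (a.nd g).2 * (b.nd g).2)
  | .mul a b => ((a.nd g).1 * (b.nd g).1, (a.nd g).2 * (b.nd g).2)

theorem Ex.nd_map {R S : Type*} [CommRing R] [CommRing S] (φ : R →+* S) (g : Name → R) (E : Ex) :
    (E.nd (fun v => φ (g v))) = (φ (E.nd g).1, φ (E.nd g).2) := by
  induction E with
  | var v => simp [Ex.nd]
  | const neg num den => cases neg <;> simp [Ex.nd]
  | add a b iha ihb => simp only [Ex.nd, iha, ihb, map_add, map_mul]
  | sub a b iha ihb => simp only [Ex.nd, iha, ihb, map_sub, map_mul]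
  | mul a b iha ihb => simp only [Ex.nd, iha, ihb, map_mul]

/-- The denominator of an expression as a natural number. -/
def Ex.den : Ex → ℕ
  | .var _ => 1
  | .const _ _ den => natOf den
  | .add a b => a.den * b.den
  | .sub a b => a.den * b.den
  | .mul a b => a.den * b.den

theorem Ex.nd_snd {R : Type*} [CommRing R] (g : Name → R) (E : Ex) :
    (E.nd g).2 = (E.den : R) := by
  induction E with
  | var v => simp [Ex.nd, Ex.den]
  | const neg num den => simp [Ex.nd, Ex.den]
  | add a b iha ihb => simp [Ex.nd, Ex.den, iha, ihb]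
  | sub a b iha ihb => simp [Ex.nd, Ex.den, iha, ihb]
  | mul a b iha ihb => simp [Ex.nd, Ex.den, iha, ihb]

theorem Ex.den_ne_zero {E : Ex} (h : E.ok) : E.den ≠ 0 := by
  induction E with
  | var v => simp [Ex.den]
  | const neg num den => simpa [Ex.den, Ex.ok] using h
  | add a b iha ihb => exact mul_ne_zero (iha h.1) (ihb h.2)
  | sub a b iha ihb => exact mul_ne_zero (iha h.1) (ihb h.2)
  | mul a b iha ihb => exact mul_ne_zero (iha h.1) (ihb h.2)

theorem Ex.poly_mul_den {E : Ex} (h : E.ok) :
    E.poly * C (E.den : ℚ) = (E.nd (fun v => (X v : MvPolynomial Name ℚ))).1 := by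
  have hC : ∀ n : ℕ, ((n : ℕ) : MvPolynomial Name ℚ) = C (n : ℚ) := fun n => (map_natCast C n).symm
  have hC' : ∀ n : ℕ, (-((n : ℕ) : MvPolynomial Name ℚ)) = C (-(n : ℚ)) := fun n => by
    rw [hC, C_neg]
  induction E with
  | var v => simp [Ex.nd, Ex.den, Ex.poly]
  | const neg num den =>
    have hd : (natOf den : ℚ) ≠ 0 := by exact_mod_cast h
    simp only [Ex.nd, Ex.den, Ex.poly]
    rw [← C_mul, div_mul_cancel₀ _ hd]
    cases neg
    · exact (hC _).symm
    · exact (hC' _).symm
  | add a b iha ihb =>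
    simp only [Ex.nd, Ex.den, Ex.poly, ← iha h.1, ← ihb h.2, Ex.nd_snd, hC, Nat.cast_mul, C_mul]
    ring
  | sub a b iha ihb =>
    simp only [Ex.nd, Ex.den, Ex.poly, ← iha h.1, ← ihb h.2, Ex.nd_snd, hC, Nat.cast_mul, C_mul]
    ring
  | mul a b iha ihb =>
    simp only [Ex.nd, Ex.den, Ex.poly, ← iha h.1, ← ihb h.2, Nat.cast_mul, C_mul]
    ring

theorem Ex.eval_nd (g : Name → ℤ) (E : Ex) :
    eval (fun v => (g v : ℚ)) (E.nd (fun v => (X v : MvPolynomial Name ℚ))).1 =
      ((E.nd g).1 : ℚ) := by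
  have h1 := E.nd_map (eval (fun v => (g v : ℚ))) (fun v => (X v : MvPolynomial Name ℚ))
  have h2 := E.nd_map (Int.castRingHom ℚ) g
  have h3 : (fun v => (eval (fun v => (g v : ℚ))) (X v : MvPolynomial Name ℚ)) =
      fun v => (Int.castRingHom ℚ) (g v) := by
    funext v; simp
  rw [h3, h2] at h1
  have := congrArg Prod.fst h1
  simpa using this.symm

theorem Ex.eval_poly_eq {E : Ex} (h : E.ok) (g : Name → ℤ) :
    eval (fun v => (g v : ℚ)) E.poly * (E.den : ℚ) = ((E.nd g).1 : ℚ) := by
  rw [← E.eval_nd g, ← Ex.poly_mul_den h, map_mul, eval_C]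

/-- Soundness: a nonzero numerator in any commutative ring, at an integral point, certifies that
the polynomial is nonzero. -/
theorem Ex.poly_ne_zero_of_nd {R : Type*} [CommRing R] {E : Ex} (h : E.ok) (g : Name → ℕ)
    (hg : (E.nd (fun v => (g v : R))).1 ≠ 0) : E.poly ≠ 0 := by
  intro h0
  apply hg
  have h1 := E.nd_map (Int.castRingHom R) (fun v => (g v : ℤ))
  have h2 := Ex.eval_poly_eq h (fun v => (g v : ℤ))
  rw [h0, map_zero, zero_mul] at h2
  have h3 : (E.nd (fun v => (g v : ℤ))).1 = 0 := by exact_mod_cast h2.symm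
  have h4 : (E.nd (fun v => (g v : R))) = E.nd (fun v => (Int.castRingHom R) ((g v : ℕ) : ℤ)) := by
    congr 1
    funext v; simp
  rw [h4, h1, h3]
  simp

/-! ### Sizes -/

/-- The number of tokens and digits of an expression. -/
def Ex.size : Ex → ℕ
  | .var v => v.length + 1
  | .const _ num den => num.length + den.length + 1
  | .add a b => a.size + b.size + 1
  | .sub a b => a.size + b.size + 1
  | .mul a b => a.size + b.size + 1

theorem Ex.size_pos (E : Ex) : 1 ≤ E.size := by
  cases E <;> simp [Ex.size]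

theorem natOf_lt (l : List Bool) : natOf l < 2 ^ l.length := by
  have key : ∀ (l : List Bool) (a : ℕ),
      l.foldl (fun a b => 2 * a + (if b then 1 else 0)) a < (a + 1) * 2 ^ l.length := by
    intro l
    induction l with
    | nil => intro a; simp
    | cons b l ih =>
      intro a
      refine lt_of_lt_of_le (ih _) ?_
      rw [List.length_cons, pow_succ, Nat.mul_comm (2 ^ l.length) 2, ← Nat.mul_assoc]
      refine Nat.mul_le_mul_right _ ?_
      show 2 * a + (if b = true then 1 else 0) + 1 ≤ (a + 1) * 2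
      split_ifs <;> omega
  simpa [natOf] using key l 0

/-- The total degree of the polynomial of an expression. -/
theorem Ex.totalDegree_poly_le (E : Ex) : E.poly.totalDegree ≤ E.size := by
  induction E with
  | var v =>
    simp only [Ex.poly, Ex.size, totalDegree_X]
    omega
  | const neg num den => simp [Ex.poly]
  | add a b iha ihb =>
    simp only [Ex.poly, Ex.size]
    have := totalDegree_add a.poly b.poly
    omega
  | sub a b iha ihb =>
    simp only [Ex.poly, Ex.size]
    have := totalDegree_sub a.poly b.poly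
    omega
  | mul a b iha ihb =>
    simp only [Ex.poly, Ex.size]
    have := totalDegree_mul a.poly b.poly
    omega

theorem Ex.abs_nd_le {m : ℕ} (g : Name → ℤ) (hg : ∀ v, |g v| ≤ m) (E : Ex) :
    |(E.nd g).1| ≤ (m + 2) ^ E.size ∧ |(E.nd g).2| ≤ (m + 2) ^ E.size := by
  have hm : (0 : ℤ) ≤ m := by positivity
  have hdig : ∀ l : List Bool, ∀ k, l.length ≤ k → |((natOf l : ℕ) : ℤ)| ≤ ((m : ℤ) + 2) ^ k := by
    intro l k hk
    rw [abs_of_nonneg (by positivity)]
    have h1 : ((natOf l : ℕ) : ℤ) ≤ 2 ^ l.length := by exact_mod_cast (natOf_lt l).le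
    have h2 : (2 : ℤ) ^ l.length ≤ (m + 2) ^ l.length :=
      pow_le_pow_left₀ (by norm_num) (by omega) _
    have h3 : ((m : ℤ) + 2) ^ l.length ≤ (m + 2) ^ k := pow_le_pow_right₀ (by omega) hk
    exact h1.trans (h2.trans h3)
  have hgate : ∀ (x y z w : ℤ) (k l : ℕ), |x| ≤ ((m : ℤ) + 2) ^ k → |y| ≤ ((m : ℤ) + 2) ^ l →
      |z| ≤ ((m : ℤ) + 2) ^ l → |w| ≤ ((m : ℤ) + 2) ^ k →
      |x * y| + |z * w| ≤ ((m : ℤ) + 2) ^ (k + l + 1) := by
    intro x y z w k l hx hy hz hw
    rw [abs_mul, abs_mul]
    have h1 : |x| * |y| ≤ ((m : ℤ) + 2) ^ k * ((m : ℤ) + 2) ^ l :=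
      mul_le_mul hx hy (abs_nonneg _) (by positivity)
    have h2 : |z| * |w| ≤ ((m : ℤ) + 2) ^ l * ((m : ℤ) + 2) ^ k :=
      mul_le_mul hz hw (abs_nonneg _) (by positivity)
    have h3 : ((m : ℤ) + 2) ^ (k + l + 1) =
        ((m : ℤ) + 2) ^ k * ((m : ℤ) + 2) ^ l * (m + 2) := by rw [pow_succ, pow_add]
    have h4 : 0 ≤ ((m : ℤ) + 2) ^ k * ((m : ℤ) + 2) ^ l := by positivity
    rw [h3]
    nlinarith
  have hmul : ∀ (x y : ℤ) (k l : ℕ), |x| ≤ ((m : ℤ) + 2) ^ k → |y| ≤ ((m : ℤ) + 2) ^ l →
      |x * y| ≤ ((m : ℤ) + 2) ^ (k + l + 1) := by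
    intro x y k l hx hy
    have h1 := hgate x y 0 0 k l hx hy (by simp; positivity) (by simp; positivity)
    simpa using h1
  induction E with
  | var v =>
    simp only [Ex.nd, Ex.size, abs_one]
    constructor
    · refine (hg v).trans ?_
      have h1 : ((m : ℤ) + 2) ^ 1 ≤ (m + 2) ^ (v.length + 1) :=
        pow_le_pow_right₀ (by omega) (by omega)
      rw [pow_one] at h1
      omega
    · exact one_le_pow₀ (by omega)
  | const neg num den =>
    simp only [Ex.nd, Ex.size]
    constructor
    · cases neg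
      · simpa using hdig num (num.length + den.length + 1) (by omega)
      · simpa using hdig num (num.length + den.length + 1) (by omega)
    · exact hdig den (num.length + den.length + 1) (by omega)
  | add a b iha ihb =>
    simp only [Ex.nd, Ex.size]
    refine ⟨(abs_add_le _ _).trans (hgate _ _ _ _ _ _ iha.1 ihb.2 ihb.1 iha.2),
      hmul _ _ _ _ iha.2 ihb.2⟩
  | sub a b iha ihb =>
    simp only [Ex.nd, Ex.size]
    refine ⟨(abs_sub _ _).trans (hgate _ _ _ _ _ _ iha.1 ihb.2 ihb.1 iha.2),
      hmul _ _ _ _ iha.2 ihb.2⟩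
  | mul a b iha ihb =>
    simp only [Ex.nd, Ex.size]
    exact ⟨hmul _ _ _ _ iha.1 ihb.1, hmul _ _ _ _ iha.2 ihb.2⟩

/-- A nonzero polynomial of total degree at most `m` does not vanish at some point with
coordinates in `{0, …, m}`. -/
theorem exists_nat_point {p : MvPolynomial Name ℚ} (hp : p ≠ 0) {m : ℕ}
    (hm : p.totalDegree ≤ m) :
    ∃ g : Name → ℕ, (∀ v, g v ≤ m) ∧ eval (fun v => (g v : ℚ)) p ≠ 0 := by
  classical
  obtain ⟨s, q, rfl⟩ := exists_finset_rename p
  have hq : q ≠ 0 := by
    rintro rfl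
    exact hp (by simp)
  by_contra hcon
  push Not at hcon
  apply hq
  refine eq_zero_of_eval_zero_at_prod_finset q
    (fun _ => (Finset.range (m + 1)).image (fun i : ℕ => (i : ℚ))) (fun i => ?_) (fun x hx => ?_)
  · rw [Finset.card_image_of_injective _ Nat.cast_injective, Finset.card_range]
    have h1 := degreeOf_le_totalDegree (rename Subtype.val q) i.val
    rw [degreeOf_rename_of_injective Subtype.val_injective] at h1
    omega
  · choose y hy1 hy2 using fun i => Finset.mem_image.1 (hx i)
    have h2 := hcon (fun v => if h : v ∈ s then y ⟨v, h⟩ else 0) (fun v => by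
      split_ifs with h
      · have := hy1 ⟨v, h⟩
        rw [Finset.mem_range] at this
        omega
      · omega)
    rw [eval_rename] at h2
    rw [← h2]
    congr 2
    funext i
    simp [hy2]

/-- Completeness over the integers: if the polynomial is nonzero, then the numerator is nonzero at
a small point. -/
theorem Ex.exists_point {E : Ex} (h : E.ok) (hne : E.poly ≠ 0) {m : ℕ} (hm : E.size ≤ m) :
    ∃ g : Name → ℕ, (E.nd (fun v => (g v : ℤ))).1 ≠ 0 ∧
      (E.nd (fun v => (g v : ℤ))).1.natAbs ≤ (m + 2) ^ m := by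
  obtain ⟨g, hg1, hg2⟩ := exists_nat_point hne (E.totalDegree_poly_le.trans hm)
  refine ⟨g, ?_, ?_⟩
  · intro h0
    have h1 := Ex.eval_poly_eq h (fun v => (g v : ℤ))
    rw [h0] at h1
    have hd : (E.den : ℚ) ≠ 0 := by exact_mod_cast Ex.den_ne_zero h
    have h2 : eval (fun v => (g v : ℚ)) E.poly * (E.den : ℚ) = 0 := by simpa using h1
    rcases mul_eq_zero.1 h2 with h3 | h3
    · exact hg2 h3
    · exact hd h3
  · have h1 := (E.abs_nd_le (m := m) (fun v => (g v : ℤ)) (fun v => by
      rw [abs_of_nonneg (by positivity)]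
      exact_mod_cast hg1 v)).1
    have h2 : (m + 2) ^ E.size ≤ (m + 2) ^ m := Nat.pow_le_pow_right (by omega) hm
    refine le_trans ?_ h2
    zify
    exact h1

end Pool.Agent.PIT
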