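import Mathlib
import Pool.Agent.Work.MP_3c5c20_lc.Ex

/-!
# Evaluation of postfix token lists modulo `q`
-/

set_option autoImplicit false

namespace Pool.Agent.PIT

/-- Tokens `(tag, (digits, digits))`: tag `0` is `+`, `1` is `-`, `2` is `×`, `3` is a variable
(with its name), `4` a nonnegative constant (numerator, denominator), `5` a negative constant. -/
abbrev Tok : Type := ℕ × (List Bool × List Bool)

/-- Postfix notation of an expression. -/
def Ex.toks : Ex → List Tok
  | .var v => [(3, (v, []))]
  | .const neg num den => [(if neg then 5 else 4, (num, den))]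
  | .add a b => a.toks ++ (b.toks ++ [(0, ([], []))])
  | .sub a b => a.toks ++ (b.toks ++ [(1, ([], []))])
  | .mul a b => a.toks ++ (b.toks ++ [(2, ([], []))])

/-- Environments: association lists. -/
abbrev Env : Type := List (Name × ℕ)

/-- Look up the value of a variable (default `0`). -/
def look (env : Env) (v : Name) : ℕ :=
  ((env.filter (fun p => decide (p.1 = v))).headD ([], 0)).2

theorem look_nil (v : Name) : look [] v = 0 := rfl

theorem look_cons (v : Name) (c : ℕ) (env : Env) :
    look ((v, c) :: env) = Function.update (look env) v c := by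
  funext u
  unfold look
  by_cases h : u = v
  · subst h
    simp
  · rw [Function.update_of_ne h, List.filter_cons_of_neg (by simpa using fun e => h e.symm)]

/-- The residue of a digit string. -/
def nmod (q : ℕ) (l : List Bool) : ℕ :=
  l.foldl (fun a b => (2 * a + (if b then 1 else 0)) % q) 0

theorem nmod_eq (q : ℕ) (l : List Bool) : nmod q l = natOf l % q := by
  have key : ∀ (l : List Bool) (a : ℕ),
      l.foldl (fun a b => (2 * a + (if b then 1 else 0)) % q) (a % q) =
        (l.foldl (fun a b => 2 * a + (if b then 1 else 0)) a) % q := by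
    intro l
    induction l with
    | nil => intro a; rfl
    | cons b l ih =>
      intro a
      rw [List.foldl_cons, List.foldl_cons, ← ih]
      congr 1
      show (2 * (a % q) + (if b = true then 1 else 0)) % q =
        (2 * a + (if b = true then 1 else 0)) % q
      rw [Nat.add_mod, Nat.mul_mod, Nat.mod_mod, ← Nat.mul_mod, ← Nat.add_mod]
  have := key l 0
  rw [Nat.zero_mod] at this
  exact this

/-- One step of the evaluation of a token list modulo `q` (the stack holds pairs consisting of a
numerator and a denominator). -/
def estep (q : ℕ) (env : Env) (st : List (ℕ × ℕ)) (t : Tok) : List (ℕ × ℕ) :=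
  if t.1 = 0 then
    (((st.tail.headD (0, 0)).1 * (st.headD (0, 0)).2 +
      (st.headD (0, 0)).1 * (st.tail.headD (0, 0)).2) % q,
      ((st.tail.headD (0, 0)).2 * (st.headD (0, 0)).2) % q) :: st.tail.tail
  else if t.1 = 1 then
    (((st.tail.headD (0, 0)).1 * (st.headD (0, 0)).2 +
      (q - ((st.headD (0, 0)).1 * (st.tail.headD (0, 0)).2) % q)) % q,
      ((st.tail.headD (0, 0)).2 * (st.headD (0, 0)).2) % q) :: st.tail.tail
  else if t.1 = 2 then
    (((st.tail.headD (0, 0)).1 * (st.headD (0, 0)).1) % q,
      ((st.tail.headD (0, 0)).2 * (st.headD (0, 0)).2) % q) :: st.tail.tail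
  else if t.1 = 3 then (look env t.2.1 % q, 1 % q) :: st
  else if t.1 = 4 then (nmod q t.2.1, nmod q t.2.2) :: st
  else ((q - nmod q t.2.1) % q, nmod q t.2.2) :: st

/-- The numerator modulo `q` of the value of a token list. -/
def evalT (q : ℕ) (env : Env) (toks : List Tok) : ℕ :=
  ((toks.foldl (estep q env) []).headD (0, 0)).1

theorem toks_foldl {q : ℕ} [NeZero q] (env : Env) (E : Ex) : ∀ st : List (ℕ × ℕ),
    E.toks.foldl (estep q env) st =
      ((E.nd (fun v => (look env v : ZMod q))).1.val,
        (E.nd (fun v => (look env v : ZMod q))).2.val) :: st := by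
  have hq : 0 < q := Nat.pos_of_ne_zero (NeZero.ne q)
  have hneg : ∀ x : ℕ, x < q → (((q - x : ℕ) : ZMod q)) = - (x : ZMod q) := by
    intro x hx
    rw [Nat.cast_sub hx.le]
    simp
  induction E with
  | var v =>
    intro st
    simp [Ex.toks, Ex.nd, estep, ZMod.val_natCast, ZMod.val_one_eq_one_mod]
  | const neg num den =>
    intro st
    cases neg
    · simp [Ex.toks, Ex.nd, estep, nmod_eq, ZMod.val_natCast]
    · simp only [Ex.toks, Ex.nd, estep, nmod_eq, List.foldl_cons, List.foldl_nil, if_true,
        ZMod.val_natCast]
      norm_num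
      rw [← ZMod.val_natCast, hneg _ (Nat.mod_lt _ hq), ZMod.natCast_mod]
  | add a b iha ihb =>
    intro st
    rw [Ex.toks, List.foldl_append, List.foldl_append, iha, ihb]
    simp only [List.foldl_cons, List.foldl_nil, estep, if_true, List.headD_cons, List.tail_cons,
      Ex.nd]
    congr 2
    · rw [← ZMod.val_natCast]
      push_cast
      simp only [ZMod.natCast_val, ZMod.cast_id', id_eq]
    · rw [← ZMod.val_natCast]
      push_cast
      simp only [ZMod.natCast_val, ZMod.cast_id', id_eq]
  | sub a b iha ihb =>
    intro st
    rw [Ex.toks, List.foldl_append, List.foldl_append, iha, ihb]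
    simp only [List.foldl_cons, List.foldl_nil, estep, List.headD_cons, List.tail_cons,
      Ex.nd, if_true, one_ne_zero, if_false]
    congr 2
    · rw [← ZMod.val_natCast, Nat.cast_add, hneg _ (Nat.mod_lt _ hq), ZMod.natCast_mod]
      push_cast
      simp only [ZMod.natCast_val, ZMod.cast_id', id_eq]
      rw [sub_eq_add_neg]
    · rw [← ZMod.val_natCast]
      push_cast
      simp only [ZMod.natCast_val, ZMod.cast_id', id_eq]
  | mul a b iha ihb =>
    intro st
    rw [Ex.toks, List.foldl_append, List.foldl_append, iha, ihb]
    simp only [List.foldl_cons, List.foldl_nil, estep, List.headD_cons, List.tail_cons,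
      Ex.nd, if_true, OfNat.ofNat_ne_zero, OfNat.ofNat_ne_one, if_false]
    congr 2
    · rw [← ZMod.val_natCast]
      push_cast
      simp only [ZMod.natCast_val, ZMod.cast_id', id_eq]
    · rw [← ZMod.val_natCast]
      push_cast
      simp only [ZMod.natCast_val, ZMod.cast_id', id_eq]

theorem evalT_toks {q : ℕ} [NeZero q] (env : Env) (E : Ex) :
    evalT q env E.toks = (E.nd (fun v => (look env v : ZMod q))).1.val := by
  unfold evalT
  rw [toks_foldl]
  rfl

theorem evalT_ne_zero {q : ℕ} [NeZero q] (env : Env) (E : Ex) :
    evalT q env E.toks ≠ 0 ↔ (E.nd (fun v => (look env v : ZMod q))).1 ≠ 0 := by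
  rw [evalT_toks, Ne, ZMod.val_eq_zero]

/-- The names of the variables (with multiplicity). -/
def Ex.names : Ex → List Name
  | .var v => [v]
  | .const _ _ _ => []
  | .add a b => a.names ++ b.names
  | .sub a b => a.names ++ b.names
  | .mul a b => a.names ++ b.names

/-- The names in a token list. -/
def namesT (toks : List Tok) : List Name :=
  toks.filterMap (fun t => if t.1 = 3 then some t.2.1 else none)

theorem namesT_toks (E : Ex) : namesT E.toks = E.names := by
  unfold namesT
  induction E with
  | var v => simp [Ex.toks, Ex.names]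
  | const neg num den => cases neg <;> simp [Ex.toks, Ex.names]
  | add a b iha ihb => simp [Ex.toks, Ex.names, iha, ihb]
  | sub a b iha ihb => simp [Ex.toks, Ex.names, iha, ihb]
  | mul a b iha ihb => simp [Ex.toks, Ex.names, iha, ihb]

/-- The value of an expression depends only on the values of its variables. -/
theorem Ex.nd_congr {R : Type*} [CommRing R] {g g' : Name → R} {E : Ex}
    (h : ∀ v ∈ E.names, g v = g' v) : E.nd g = E.nd g' := by
  induction E with
  | var v => simp [Ex.nd, h v (by simp [Ex.names])]
  | const neg num den => rfl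
  | add a b iha ihb =>
    simp only [Ex.nd, iha (fun v hv => h v (List.mem_append_left _ hv)),
      ihb (fun v hv => h v (List.mem_append_right _ hv))]
  | sub a b iha ihb =>
    simp only [Ex.nd, iha (fun v hv => h v (List.mem_append_left _ hv)),
      ihb (fun v hv => h v (List.mem_append_right _ hv))]
  | mul a b iha ihb =>
    simp only [Ex.nd, iha (fun v hv => h v (List.mem_append_left _ hv)),
      ihb (fun v hv => h v (List.mem_append_right _ hv))]

end Pool.Agent.PIT
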