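import Mathlib
import Pool.Agent.Work.MP_3c5c20_lc.HSet
import Pool.Agent.Work.MP_3c5c20_lc.Machine

/-!
# Restrictions of expressions to few variable occurrences are short words
-/

set_option autoImplicit false

namespace Pool.Agent.PIT

/-- Update the values of the variables `B` by the entries of `h`. -/
def upd (g : Name → ℕ) : List Name → List ℕ → (Name → ℕ)
  | [], _ => g
  | v :: B, h => upd (Function.update g v (h.headD 0)) B h.tail

theorem upd_append (B : List Name) (v : Name) : ∀ (g : Name → ℕ) (h : List ℕ),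
    upd g (B ++ [v]) h = Function.update (upd g B h) v ((h.drop B.length).headD 0) := by
  induction B with
  | nil => intro g h; simp [upd]
  | cons u B ih =>
    intro g h
    rw [List.cons_append, upd, ih, upd, List.length_cons]
    congr 2
    cases h <;> simp

theorem upd_spec (B : List Name) (u : Name) :
    (u ∉ B ∧ ∀ g h, upd g B h u = g u) ∨
      (u ∈ B ∧ ∃ i < B.length, ∀ g h, upd g B h u = h.getD i 0) := by
  induction B with
  | nil => left; simp [upd]
  | cons v B ih =>
    rcases ih with ⟨h1, h2⟩ | ⟨h1, i, hi, h2⟩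
    · by_cases huv : u = v
      · right
        subst huv
        refine ⟨List.mem_cons_self, 0, by simp, fun g h => ?_⟩
        rw [upd, h2, Function.update_self]
        cases h <;> simp
      · left
        refine ⟨by simp [huv, h1], fun g h => ?_⟩
        rw [upd, h2, Function.update_of_ne huv]
    · right
      refine ⟨List.mem_cons_of_mem _ h1, i + 1, by simpa using hi, fun g h => ?_⟩
      rw [upd, h2]
      cases h <;> simp

theorem upd_map_self (a : Name → ℕ) (B : List Name) (l : List ℕ) : upd a B (B.map a ++ l) = a := by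
  induction B with
  | nil => rfl
  | cons v B ih =>
    rw [upd, List.map_cons, List.cons_append, List.headD_cons, List.tail_cons,
      Function.update_eq_self, ih]

theorem upd_congr {B : List Name} {g g' : Name → ℕ} (h : ∀ u, u ∉ B → g u = g' u)
    (x : List ℕ) : upd g B x = upd g' B x := by
  funext u
  rcases upd_spec B u with ⟨h1, h2⟩ | ⟨h1, i, _, h2⟩
  · rw [h2, h2, h u h1]
  · rw [h2, h2]

section

variable {q : ℕ} (σ : ℕ)

/-- Up to affine maps, the function `F` is computed by words of length less than `2k`. -/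
def Cmp (F : List ℕ → ZMod q) (k : ℕ) : Prop :=
  ∀ α β : ZMod q, ∃ w : List Sym, w.length + 1 ≤ 2 * k ∧ (∀ s ∈ w, s ∈ alph q σ) ∧
    ∀ x st, w.foldl (wstep q x) st = (α * F x + β).val :: st

variable {σ}

theorem Cmp.mono {F : List ℕ → ZMod q} {k l : ℕ} (h : Cmp σ F k) (hkl : k ≤ l) : Cmp σ F l := by
  intro α β
  obtain ⟨w, h1, h2, h3⟩ := h α β
  exact ⟨w, by omega, h2, h3⟩

theorem Cmp.affine {F : List ℕ → ZMod q} {k : ℕ} (h : Cmp σ F k) (c d : ZMod q) :
    Cmp σ (fun x => c * F x + d) k := by
  intro α β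
  obtain ⟨w, h1, h2, h3⟩ := h (α * c) (α * d + β)
  refine ⟨w, h1, h2, fun x st => ?_⟩
  rw [h3]
  congr 2
  ring

theorem Cmp.congr {F G : List ℕ → ZMod q} {k : ℕ} (h : Cmp σ F k) (e : ∀ x, F x = G x) :
    Cmp σ G k := by
  have : F = G := funext e
  rwa [← this]

theorem val_gate [NeZero q] (α β z : ZMod q) (n : ℕ) (hn : (n : ZMod q) = z) :
    (α.val * n + β.val) % q = (α * z + β).val := by
  rw [← ZMod.val_natCast]
  push_cast
  rw [hn]
  simp only [ZMod.natCast_val, ZMod.cast_id', id_eq]

theorem Cmp.add [NeZero q] {F G : List ℕ → ZMod q} {k l : ℕ} (hF : Cmp σ F k) (hG : Cmp σ G l) :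
    Cmp σ (fun x => F x + G x) (k + l) := by
  intro α β
  obtain ⟨w1, a1, a2, a3⟩ := hF 1 0
  obtain ⟨w2, b1, b2, b3⟩ := hG 1 0
  refine ⟨w1 ++ (w2 ++ [(0, (α.val, β.val))]), ?_, ?_, fun x st => ?_⟩
  · simp only [List.length_append, List.length_cons, List.length_nil]
    omega
  · intro s hs
    simp only [List.mem_append, List.mem_singleton] at hs
    rcases hs with hs | hs | rfl
    · exact a2 s hs
    · exact b2 s hs
    · rw [mem_alph]
      exact ⟨by simp, ZMod.val_lt _, ZMod.val_lt _⟩
  · rw [List.foldl_append, List.foldl_append, a3, b3]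
    simp only [List.foldl_cons, List.foldl_nil, wstep, if_true, List.tail_cons,
      List.headD_cons, reduceCtorEq, if_false]
    rw [val_gate α β (F x + G x)]
    push_cast
    simp only [ZMod.natCast_val, ZMod.cast_id', id_eq]
    ring

theorem Cmp.mul [NeZero q] {F G : List ℕ → ZMod q} {k l : ℕ} (hF : Cmp σ F k) (hG : Cmp σ G l) :
    Cmp σ (fun x => F x * G x) (k + l) := by
  intro α β
  obtain ⟨w1, a1, a2, a3⟩ := hF 1 0
  obtain ⟨w2, b1, b2, b3⟩ := hG 1 0
  refine ⟨w1 ++ (w2 ++ [(1, (α.val, β.val))]), ?_, ?_, fun x st => ?_⟩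
  · simp only [List.length_append, List.length_cons, List.length_nil]
    omega
  · intro s hs
    simp only [List.mem_append, List.mem_singleton] at hs
    rcases hs with hs | hs | rfl
    · exact a2 s hs
    · exact b2 s hs
    · rw [mem_alph]
      exact ⟨by simp, ZMod.val_lt _, ZMod.val_lt _⟩
  · rw [List.foldl_append, List.foldl_append, a3, b3]
    simp only [List.foldl_cons, List.foldl_nil, wstep, if_true, List.tail_cons,
      List.headD_cons, reduceCtorEq, if_false, one_ne_zero]
    rw [val_gate α β (F x * G x)]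
    push_cast
    simp only [ZMod.natCast_val, ZMod.cast_id', id_eq]
    ring

theorem Cmp.leaf [NeZero q] {i : ℕ} (hi : i < σ) :
    Cmp σ (fun x => ((x.getD i 0 : ℕ) : ZMod q)) 1 := by
  intro α β
  refine ⟨[(i + 2, (α.val, β.val))], by simp, ?_, fun x st => ?_⟩
  · intro s hs
    rw [List.mem_singleton] at hs
    subst hs
    rw [mem_alph]
    exact ⟨by simp; omega, ZMod.val_lt _, ZMod.val_lt _⟩
  · simp only [List.foldl_cons, List.foldl_nil, wstep]
    rw [if_neg (by omega), if_neg (by omega), Nat.add_sub_cancel]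
    rw [val_gate α β ((x.getD i 0 : ℕ) : ZMod q) _ rfl]

/-- **Reduction lemma.** As a function of the values of the variables in `B`, the numerator of an
expression modulo `q` is constant or computed by short words. -/
theorem reduce [NeZero q] (a : Name → ℕ) {B : List Name} (hB : B.length ≤ σ) (E : Ex) :
    (∃ c : ZMod q, ∀ x, (E.nd (fun v => ((upd a B x v : ℕ) : ZMod q))).1 = c) ∨
      Cmp σ (fun x => (E.nd (fun v => ((upd a B x v : ℕ) : ZMod q))).1)
        (E.names.countP (fun v => decide (v ∈ B))) := by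
  induction E with
  | var v =>
    rcases upd_spec B v with ⟨h1, h2⟩ | ⟨h1, i, hi, h2⟩
    · left
      exact ⟨(a v : ZMod q), fun x => by simp [Ex.nd, h2]⟩
    · right
      have h3 : (Ex.var v).names.countP (fun v => decide (v ∈ B)) = 1 := by
        simp [Ex.names, h1]
      rw [h3]
      refine (Cmp.leaf (q := q) (σ := σ) (i := i) (by omega)).congr (fun x => ?_)
      simp [Ex.nd, h2]
  | const neg num den =>
    left
    exact ⟨_, fun x => rfl⟩
  | add E1 E2 ih1 ih2 =>
    simp only [Ex.nd, Ex.names, List.countP_append, Ex.nd_snd]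
    rcases ih1 with ⟨c1, h1⟩ | h1
    · rcases ih2 with ⟨c2, h2⟩ | h2
      · left
        exact ⟨_, fun x => by rw [h1, h2]⟩
      · right
        refine ((h2.affine (E1.den : ZMod q) (c1 * (E2.den : ZMod q))).mono
          (Nat.le_add_left _ _)).congr (fun x => ?_)
        rw [h1]; ring
    · rcases ih2 with ⟨c2, h2⟩ | h2
      · right
        refine ((h1.affine (E2.den : ZMod q) (c2 * (E1.den : ZMod q))).mono
          (Nat.le_add_right _ _)).congr (fun x => ?_)
        rw [h2]; ring
      · right
        refine ((h1.affine (E2.den : ZMod q) 0).add (h2.affine (E1.den : ZMod q) 0)).congr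
          (fun x => ?_)
        ring
  | sub E1 E2 ih1 ih2 =>
    simp only [Ex.nd, Ex.names, List.countP_append, Ex.nd_snd]
    rcases ih1 with ⟨c1, h1⟩ | h1
    · rcases ih2 with ⟨c2, h2⟩ | h2
      · left
        exact ⟨_, fun x => by rw [h1, h2]⟩
      · right
        refine ((h2.affine (-(E1.den : ZMod q)) (c1 * (E2.den : ZMod q))).mono
          (Nat.le_add_left _ _)).congr (fun x => ?_)
        rw [h1]; ring
    · rcases ih2 with ⟨c2, h2⟩ | h2
      · right
        refine ((h1.affine (E2.den : ZMod q) (-(c2 * (E1.den : ZMod q)))).mono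
          (Nat.le_add_right _ _)).congr (fun x => ?_)
        rw [h2]; ring
      · right
        refine ((h1.affine (E2.den : ZMod q) 0).add (h2.affine (-(E1.den : ZMod q)) 0)).congr
          (fun x => ?_)
        ring
  | mul E1 E2 ih1 ih2 =>
    simp only [Ex.nd, Ex.names, List.countP_append]
    rcases ih1 with ⟨c1, h1⟩ | h1
    · rcases ih2 with ⟨c2, h2⟩ | h2
      · left
        exact ⟨_, fun x => by rw [h1, h2]⟩
      · right
        refine ((h2.affine c1 0).mono (Nat.le_add_left _ _)).congr (fun x => ?_)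
        rw [h1]; ring
    · rcases ih2 with ⟨c2, h2⟩ | h2
      · right
        refine ((h1.affine c2 0).mono (Nat.le_add_right _ _)).congr (fun x => ?_)
        rw [h2]; ring
      · right
        exact h1.mul h2

end

/-- The hitting property: the values of few variables can be replaced by the entries of an
element of the hitting set, keeping the value nonzero. -/
theorem hit {N q σ L T : ℕ} (hq : q.Prime) (hL : 2 * L ≤ q) (hσL : 2 * σ ≤ L) (hN : q ^ σ ≤ N)
    (hW : ((alph q σ).length + 1) ^ L ≤ N) (hT : ((alph q σ).length + 1) ^ L < 2 ^ T)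
    {E : Ex} {B : List Name} (hB : B.length ≤ σ)
    (hocc : E.names.countP (fun v => decide (v ∈ B)) ≤ σ) {a : Name → ℕ} (ha : ∀ v, a v < q)
    (hne : (E.nd (fun v => ((a v : ℕ) : ZMod q))).1 ≠ 0) :
    ∃ h ∈ hset N q σ L T, (E.nd (fun v => ((upd a B h v : ℕ) : ZMod q))).1 ≠ 0 := by
  have : NeZero q := ⟨hq.ne_zero⟩
  have hx0 : (B.map a ++ List.replicate (σ - B.length) 0) ∈ pts q σ := by
    rw [mem_pts]
    refine ⟨by simp; omega, ?_⟩
    intro v hv
    rcases List.mem_append.1 hv with hv | hv
    · obtain ⟨u, _, rfl⟩ := List.mem_map.1 hv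
      exact ha u
    · obtain ⟨_, rfl⟩ := List.mem_replicate.1 hv
      exact hq.pos
  have hval0 := upd_map_self a B (List.replicate (σ - B.length) 0)
  rcases reduce (q := q) (σ := σ) a hB E with ⟨c, hc⟩ | h
  · have hTpos : T ≠ 0 := by
      rintro rfl
      have : 1 ≤ ((alph q σ).length + 1) ^ L := Nat.one_le_pow _ _ (by omega)
      simp only [pow_zero] at hT
      omega
    have hlen := length_hset N q σ L T
    obtain ⟨h, hh⟩ := List.exists_mem_of_length_pos (l := hset N q σ L T) (by omega)
    refine ⟨h, hh, ?_⟩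
    rw [hc h, ← hc (B.map a ++ List.replicate (σ - B.length) 0), hval0]
    exact hne
  · obtain ⟨w, w1, w2, w3⟩ := h 1 0
    have hwval : ∀ x, wval q x w = (E.nd (fun v => ((upd a B x v : ℕ) : ZMod q))).1.val := by
      intro x
      unfold wval
      rw [w3, List.headD_cons]
      simp
    obtain ⟨x, hx, hx2⟩ := hset_hits hq hL hN hW hT w (by omega) w2 ⟨_, hx0, by
      rw [hwval, hval0]
      rwa [Ne, ZMod.val_eq_zero]⟩
    refine ⟨x, hx, ?_⟩
    rw [hwval] at hx2
    rwa [Ne, ZMod.val_eq_zero] at hx2

end Pool.Agent.PIT
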