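import Mathlib
import Pool.Agent.Work.MP_3c5c20_lc.Reduce

/-!
# The enumeration of assignments
-/

set_option autoImplicit false

namespace Pool.Agent.PIT

/-- States of the enumeration: unused coordinates of the current point of the hitting set and the
current environment. -/
abbrev St : Type := List ℕ × Env

/-- One step of the enumeration: give a value to the variable `vc.1` with `vc.2` occurrences. -/
def vstep (N σ ℓ q : ℕ) (H : List (List ℕ)) (s : ℕ × List St) (vc : Name × ℕ) : ℕ × List St :=
  if vc.2 ≤ s.1 ∧ ℓ ≤ vc.1.length then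
    (s.1 - vc.2, s.2.map (fun p => (p.1.tail, (vc.1, p.1.headD 0) :: p.2)))
  else
    (σ, (s.2.flatMap (fun p => (List.range q).flatMap (fun c =>
      H.map (fun h => (h, (vc.1, c) :: p.2))))).take N)

/-- The number of breaks. -/
def breaks (σ ℓ : ℕ) : ℕ → List (Name × ℕ) → ℕ
  | _, [] => 0
  | r, vc :: vs =>
    if vc.2 ≤ r ∧ ℓ ≤ vc.1.length then breaks σ ℓ (r - vc.2) vs else 1 + breaks σ ℓ σ vs

/-- The total number of occurrences of long variables. -/
def longOcc (ℓ : ℕ) (vs : List (Name × ℕ)) : ℕ :=
  (vs.map (fun vc => if ℓ ≤ vc.1.length then vc.2 else 0)).sum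

/-- The number of short variables. -/
def shortVars (ℓ : ℕ) (vs : List (Name × ℕ)) : ℕ :=
  vs.countP (fun vc => decide (vc.1.length < ℓ))

theorem breaks_le (σ ℓ : ℕ) (vs : List (Name × ℕ)) : ∀ r, r ≤ σ →
    (σ + 1) * breaks σ ℓ r vs ≤ (σ - r) + longOcc ℓ vs + (σ + 1) * shortVars ℓ vs := by
  induction vs with
  | nil => intro r _; simp [breaks]
  | cons vc vs ih =>
    intro r hr
    unfold breaks
    have hl : longOcc ℓ (vc :: vs) = (if ℓ ≤ vc.1.length then vc.2 else 0) + longOcc ℓ vs := by
      simp [longOcc]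
    have hs : shortVars ℓ (vc :: vs) = shortVars ℓ vs + (if vc.1.length < ℓ then 1 else 0) := by
      simp [shortVars, List.countP_cons]
    rw [hl, hs]
    by_cases h : vc.2 ≤ r ∧ ℓ ≤ vc.1.length
    · rw [if_pos h, if_pos h.2, if_neg (by omega)]
      simp only [Nat.add_zero]
      have := ih (r - vc.2) (by omega)
      omega
    · rw [if_neg h]
      have h1 := ih σ (le_refl _)
      by_cases h2 : ℓ ≤ vc.1.length
      · rw [if_pos h2, if_neg (by omega), Nat.mul_add, Nat.mul_one]
        simp only [Nat.add_zero]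
        have h3 : r < vc.2 := by
          by_contra h3
          exact h ⟨by omega, h2⟩
        omega
      · rw [if_neg h2, if_pos (by omega), Nat.mul_add, Nat.mul_one, Nat.mul_add, Nat.mul_one]
        omega

theorem vfold_length (N σ ℓ q : ℕ) (H : List (List ℕ))
    (vs : List (Name × ℕ)) : ∀ (r : ℕ) (S : List St),
    (vs.foldl (vstep N σ ℓ q H) (r, S)).2.length ≤
      S.length * (q * H.length) ^ breaks σ ℓ r vs := by
  induction vs with
  | nil => intro r S; simp [breaks]
  | cons vc vs ih =>
    intro r S
    rw [List.foldl_cons]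
    unfold breaks vstep
    by_cases h : vc.2 ≤ r ∧ ℓ ≤ vc.1.length
    · rw [if_pos h, if_pos h]
      refine (ih _ _).trans ?_
      rw [List.length_map]
    · rw [if_neg h, if_neg h]
      refine (ih _ _).trans ?_
      rw [pow_add, pow_one, ← Nat.mul_assoc]
      refine Nat.mul_le_mul_right _ ?_
      rw [List.length_take]
      refine (Nat.min_le_right _ _).trans ?_
      rw [List.length_flatMap]
      simp

theorem countP_snoc_le (l B : List Name) (v : Name) :
    l.countP (fun u => decide (u ∈ B ++ [v])) ≤ l.countP (fun u => decide (u ∈ B)) + l.count v := by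
  induction l with
  | nil => simp
  | cons u l ihl =>
    rw [List.countP_cons, List.countP_cons, List.count_cons]
    by_cases h3 : u = v
    · have h4 : (u == v) = true := by simpa using h3
      have h5 : decide (u ∈ B ++ [v]) = true := by simp [h3]
      rw [h4, h5]
      simp only [if_true]
      omega
    · by_cases h2 : u ∈ B
      · have h5 : decide (u ∈ B ++ [v]) = true := by simp [h2]
        have h6 : decide (u ∈ B) = true := by simp [h2]
        rw [h5, h6]
        simp only [if_true]
        omega
      · have h5 : decide (u ∈ B ++ [v]) = false := by simp [h2, h3]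
        rw [h5]
        simp only [Bool.false_eq_true, if_false]
        omega

/-- The key lemma: some assignment of the enumeration keeps the value nonzero. -/
theorem vfold_complete {N σ ℓ L T q : ℕ} (hq : q.Prime) (hL : 2 * L ≤ q) (hσL : 2 * σ ≤ L)
    (hN : q ^ σ ≤ N)
    (hW : ((alph q σ).length + 1) ^ L ≤ N) (hT : ((alph q σ).length + 1) ^ L < 2 ^ T)
    {E : Ex} (vs : List (Name × ℕ)) : ∀ (B : List Name) (r : ℕ) (g a : Name → ℕ) (S : List St),
    (∀ vc ∈ vs, vc.2 = E.names.count vc.1 ∧ 1 ≤ vc.2) →
    B.length + r ≤ σ → E.names.countP (fun v => decide (v ∈ B)) + r ≤ σ →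
    (∀ v, a v < q) →
    (∀ v ∈ E.names, v ∉ B → v ∉ vs.map Prod.fst → a v = g v) →
    (E.nd (fun v => ((a v : ℕ) : ZMod q))).1 ≠ 0 →
    (∀ h ∈ hset N q σ L T, ∃ p ∈ S, p.1 = h.drop B.length ∧ look p.2 = upd g B h) →
    S.length * (q * T) ^ breaks σ ℓ r vs ≤ N →
    ∃ p ∈ (vs.foldl (vstep N σ ℓ q (hset N q σ L T)) (r, S)).2,
      (E.nd (fun v => ((look p.2 v : ℕ) : ZMod q))).1 ≠ 0 := by
  have hT1 : 1 ≤ T := by
    rcases Nat.eq_zero_or_pos T with rfl | h
    · have : 1 ≤ ((alph q σ).length + 1) ^ L := Nat.one_le_pow _ _ (by omega)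
      simp only [pow_zero] at hT
      omega
    · exact h
  have hqT : 1 ≤ q * T := Nat.mul_pos hq.pos hT1
  induction vs with
  | nil =>
    intro B r g a S _ hB hocc ha hag hne hS _
    obtain ⟨h, hh, hne'⟩ := hit (B := B) hq hL hσL hN hW hT (by omega) (by omega) ha hne
    obtain ⟨p, hp, hp1, hp2⟩ := hS h hh
    refine ⟨p, hp, ?_⟩
    rw [hp2]
    have : E.nd (fun v => ((upd g B h v : ℕ) : ZMod q)) =
        E.nd (fun v => ((upd a B h v : ℕ) : ZMod q)) := by
      apply Ex.nd_congr
      intro v hv
      rcases upd_spec B v with ⟨h1, h2⟩ | ⟨h1, i, _, h2⟩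
      · rw [h2, h2, hag v hv h1 (by simp)]
      · rw [h2, h2]
    rw [this]
    exact hne'
  | cons vc vs ih =>
    intro B r g a S hvs hB hocc ha hag hne hS hlen
    obtain ⟨v, c⟩ := vc
    have hvc := hvs (v, c) List.mem_cons_self
    simp only at hvc
    have hvs' : ∀ vc ∈ vs, vc.2 = E.names.count vc.1 ∧ 1 ≤ vc.2 :=
      fun vc h => hvs vc (List.mem_cons_of_mem _ h)
    rw [List.foldl_cons]
    unfold breaks at hlen
    by_cases hbr : c ≤ r ∧ ℓ ≤ v.length
    · -- no break
      have hstep : vstep N σ ℓ q (hset N q σ L T) (r, S) (v, c) =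
          (r - c, S.map (fun p => (p.1.tail, (v, p.1.headD 0) :: p.2))) := by
        unfold vstep; rw [if_pos hbr]
      rw [hstep]
      rw [if_pos hbr] at hlen
      refine ih (B ++ [v]) (r - c) g a _ hvs' ?_ ?_ ha ?_ hne ?_ ?_
      · rw [List.length_append, List.length_singleton]
        omega
      · have h1 := countP_snoc_le E.names B v
        omega
      · intro u hu h1 h2
        refine hag u hu (fun h => h1 (List.mem_append_left _ h)) ?_
        intro h3
        rw [List.map_cons] at h3
        rcases List.mem_cons.1 h3 with h3 | h3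
        · exact h1 (by rw [h3]; simp)
        · exact h2 h3
      · intro h hh
        obtain ⟨p, hp, hp1, hp2⟩ := hS h hh
        refine ⟨_, List.mem_map.2 ⟨p, hp, rfl⟩, ?_, ?_⟩
        · show p.1.tail = _
          rw [hp1, List.tail_drop, List.length_append, List.length_singleton]
        · show look ((v, p.1.headD 0) :: p.2) = _
          rw [look_cons, upd_append, hp1, hp2]
      · rw [List.length_map]
        exact hlen
    · -- break
      have hfull : (S.flatMap (fun p => (List.range q).flatMap (fun c' =>
          (hset N q σ L T).map (fun h => (h, (v, c') :: p.2))))).length = S.length * (q * T) := by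
        rw [List.length_flatMap]
        simp [length_hset]
      rw [if_neg hbr] at hlen
      rw [pow_add, pow_one, ← Nat.mul_assoc] at hlen
      have hle : S.length * (q * T) ≤ N := by
        refine le_trans ?_ hlen
        exact Nat.le_mul_of_pos_right _ (pow_pos hqT _)
      have hstep : vstep N σ ℓ q (hset N q σ L T) (r, S) (v, c) =
          (σ, S.flatMap (fun p => (List.range q).flatMap (fun c' =>
            (hset N q σ L T).map (fun h => (h, (v, c') :: p.2))))) := by
        unfold vstep
        rw [if_neg hbr, List.take_of_length_le]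
        rw [hfull]
        exact hle
      rw [hstep]
      obtain ⟨h, hh, hne'⟩ := hit (B := B) hq hL hσL hN hW hT (by omega) (by omega) ha hne
      obtain ⟨p, hp, hp1, hp2⟩ := hS h hh
      have hhpts := hset_mem hq hL hN h hh
      rw [mem_pts] at hhpts
      have ha' : ∀ u, upd a B h u < q := by
        intro u
        rcases upd_spec B u with ⟨h1, h2⟩ | ⟨h1, i, _, h2⟩
        · rw [h2]; exact ha u
        · rw [h2]
          by_cases hi : i < h.length
          · rw [List.getD_eq_getElem _ _ hi]
            exact hhpts.2 _ (List.getElem_mem _)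
          · rw [List.getD_eq_default _ _ (by omega)]
            exact hq.pos
      refine ih [] σ (look ((v, upd a B h v) :: p.2)) (upd a B h) _ hvs' (by simp) (by simp)
        ha' ?_ hne' ?_ ?_
      · intro u hu _ h2
        rw [look_cons]
        by_cases huv : u = v
        · subst huv
          rw [Function.update_self]
        · rw [Function.update_of_ne huv, hp2]
          rcases upd_spec B u with ⟨h3, h4⟩ | ⟨h3, i, _, h4⟩
          · rw [h4, h4]
            refine hag u hu h3 ?_
            rw [List.map_cons]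
            intro h5
            rcases List.mem_cons.1 h5 with h5 | h5
            · exact huv h5
            · exact h2 h5
          · rw [h4, h4]
      · intro h' hh'
        refine ⟨(h', (v, upd a B h v) :: p.2), ?_, by simp, rfl⟩
        rw [List.mem_flatMap]
        refine ⟨p, hp, ?_⟩
        rw [List.mem_flatMap]
        exact ⟨upd a B h v, List.mem_range.2 (ha' v), List.mem_map.2 ⟨h', hh', rfl⟩⟩
      · rw [hfull]
        exact hlen

/-- The final list of states. -/
def enum (N σ ℓ q : ℕ) (H : List (List ℕ)) (vs : List (Name × ℕ)) : List St :=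
  (vs.foldl (vstep N σ ℓ q H) (σ, H.map (fun h => (h, [])))).2

theorem enum_complete {N σ ℓ L T q : ℕ} (hq : q.Prime) (hL : 2 * L ≤ q) (hσL : 2 * σ ≤ L)
    (hN : q ^ σ ≤ N)
    (hW : ((alph q σ).length + 1) ^ L ≤ N) (hT : ((alph q σ).length + 1) ^ L < 2 ^ T)
    {E : Ex} (vs : List (Name × ℕ)) (hvs : ∀ vc ∈ vs, vc.2 = E.names.count vc.1 ∧ 1 ≤ vc.2)
    (hall : ∀ v ∈ E.names, v ∈ vs.map Prod.fst)
    {a : Name → ℕ} (hne : (E.nd (fun v => ((a v : ℕ) : ZMod q))).1 ≠ 0)
    (hlen : T * (q * T) ^ breaks σ ℓ σ vs ≤ N) :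
    ∃ p ∈ enum N σ ℓ q (hset N q σ L T) vs,
      (E.nd (fun v => ((look p.2 v : ℕ) : ZMod q))).1 ≠ 0 := by
  have hne' : (E.nd (fun v => (((a v % q : ℕ)) : ZMod q))).1 ≠ 0 := by
    simpa using hne
  refine vfold_complete hq hL hσL hN hW hT vs [] σ (look []) (fun v => a v % q) _ hvs (by simp)
    (by simp) (fun v => Nat.mod_lt _ hq.pos) (fun v hv _ h => absurd (hall v hv) h) hne' ?_ ?_
  · intro h hh
    exact ⟨(h, []), List.mem_map.2 ⟨h, hh, rfl⟩, by simp, rfl⟩
  · rw [List.length_map, length_hset]
    exact hlen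

end Pool.Agent.PIT
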