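import Mathlib

/-!
# Small primes not dividing a given number
-/

set_option autoImplicit false

namespace Pool.Agent.PIT

open Nat

theorem two_pow_le_pow_pi (n : ℕ) (hn : n ≠ 0) : 2 ^ n ≤ (n + 1) ^ (primeCounting n + 1) := by
  refine (Chebyshev.two_pow_le_mul_lcmUpto n).trans ?_
  rw [pow_succ, Nat.mul_comm]
  refine Nat.mul_le_mul_right _ ?_
  rw [Nat.lcmUpto_eq_prod_pow_log]
  calc ∏ p ∈ primesLE n, p ^ p.log n ≤ ∏ _p ∈ primesLE n, (n + 1) := by
        refine Finset.prod_le_prod' (fun p _ => ?_)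
        exact (Nat.pow_log_le_self p hn).trans (Nat.le_succ n)
    _ = (n + 1) ^ primeCounting n := by
        rw [Finset.prod_const]
        simp

theorem sq_le_pi {y : ℕ} (hy : 5 ≤ y) : y ^ 2 ≤ primeCounting (y ^ 4 - 1) := by
  by_contra hcon
  push Not at hcon
  have h4 : 5 ^ 4 ≤ y ^ 4 := Nat.pow_le_pow_left hy 4
  have h1 := two_pow_le_pow_pi (y ^ 4 - 1) (by omega)
  have h2 : y ^ 4 - 1 + 1 = y ^ 4 := by omega
  rw [h2] at h1
  have h3 : (y ^ 4) ^ (primeCounting (y ^ 4 - 1) + 1) ≤ 2 ^ (4 * y * y ^ 2) := by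
    calc (y ^ 4) ^ (primeCounting (y ^ 4 - 1) + 1) ≤ (y ^ 4) ^ (y ^ 2) :=
          Nat.pow_le_pow_right (by positivity) (by omega)
      _ ≤ ((2 ^ y) ^ 4) ^ (y ^ 2) := by
          have := (Nat.lt_two_pow_self (n := y)).le
          gcongr
      _ = 2 ^ (4 * y * y ^ 2) := by rw [← pow_mul, ← pow_mul]; ring_nf
  have h5 := (Nat.pow_le_pow_iff_right (by norm_num)).1 (h1.trans h3)
  have h6 : 4 * y * y ^ 2 + 1 < y ^ 4 := by nlinarith [pow_pos (by omega : 0 < y) 3]
  omega

theorem exists_prime_not_dvd {W K lo hi : ℕ} (hW : W ≠ 0) (hK : W < 2 ^ K)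
    (h : lo + K ≤ primeCounting hi) : ∃ q, q.Prime ∧ lo < q ∧ q ≤ hi ∧ ¬ q ∣ W := by
  by_contra hcon
  push Not at hcon
  have h1 : ((primesLE hi).filter (fun p => lo < p)).prod (fun p => p) ∣ W := by
    refine Finset.prod_primes_dvd _ (fun p hp => ?_) (fun p hp => ?_)
    · rw [Finset.mem_filter] at hp
      exact (Nat.mem_primesLE.1 hp.1).2.prime
    · rw [Finset.mem_filter] at hp
      exact hcon p (Nat.mem_primesLE.1 hp.1).2 hp.2 (Nat.mem_primesLE.1 hp.1).1
  have h2 := Nat.le_of_dvd (Nat.pos_of_ne_zero hW) h1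
  have h3 : 2 ^ ((primesLE hi).filter (fun p => lo < p)).card ≤
      ((primesLE hi).filter (fun p => lo < p)).prod (fun p => p) := by
    rw [← Finset.prod_const]
    refine Finset.prod_le_prod' (fun p hp => ?_)
    rw [Finset.mem_filter] at hp
    exact (Nat.mem_primesLE.1 hp.1).2.two_le
  have h4 : ((primesLE hi).filter (fun p => lo < p)).card < K := by
    rw [← Nat.pow_lt_pow_iff_right (a := 2) (by norm_num)]
    omega
  have h5 : (primesLE hi).card ≤ ((primesLE hi).filter (fun p => lo < p)).card +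
      ((primesLE hi).filter (fun p => ¬ lo < p)).card := by
    rw [Finset.card_filter_add_card_filter_not]
  have h6 : ((primesLE hi).filter (fun p => ¬ lo < p)).card ≤ lo := by
    have : (primesLE hi).filter (fun p => ¬ lo < p) ⊆ Finset.Ioc 0 lo := by
      intro p hp
      rw [Finset.mem_filter] at hp
      rw [Finset.mem_Ioc]
      exact ⟨(Nat.mem_primesLE.1 hp.1).2.pos, by omega⟩
    have := Finset.card_le_card this
    simpa using this
  have h7 : (primesLE hi).card = primeCounting hi := by simp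
  omega

/-- The prime used by the algorithm. -/
theorem exists_good_prime {m W : ℕ} (hW : W ≠ 0) (hle : W ≤ (m + 2) ^ m) :
    ∃ q, q.Prime ∧ 4 * (m + 2) < q ∧ q < (m + 5) ^ 4 ∧ ¬ q ∣ W := by
  have h1 : (m + 2) ^ m ≤ 2 ^ (m * (m + 1)) := by
    calc (m + 2) ^ m ≤ (2 ^ (m + 1)) ^ m :=
          Nat.pow_le_pow_left (Nat.lt_two_pow_self (n := m + 1)) m
      _ = 2 ^ (m * (m + 1)) := by rw [← pow_mul]; ring_nf
  have h2 : 2 ^ (m * (m + 1)) < 2 ^ (m * (m + 1) + 1) :=
    Nat.pow_lt_pow_right (by norm_num) (by omega)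
  obtain ⟨q, hq, h3, h4, h5⟩ := exists_prime_not_dvd (lo := 4 * (m + 2))
    (hi := (m + 5) ^ 4 - 1) hW (hle.trans_lt (h1.trans_lt h2))
    (le_trans (by nlinarith) (sq_le_pi (y := m + 5) (by omega)))
  have h6 : 0 < (m + 5) ^ 4 := by positivity
  exact ⟨q, hq, h3, by omega, h5⟩

end Pool.Agent.PIT
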