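import Mathlib
import Pool.Agent.Work.MP_3c5c20_lc.Assign
import Pool.Agent.Work.MP_3c5c20_lc.Primes

/-!
# The identity testing algorithm and its correctness
-/

set_option autoImplicit false

namespace Pool.Agent.PIT

/-! ### The list of variables -/

/-- Remove duplicates. -/
def dedupN (l : List Name) : List Name :=
  l.foldl (fun acc v => if v ∈ acc then acc else v :: acc) []

theorem dedupN_spec (l : List Name) : (dedupN l).Nodup ∧ ∀ v, v ∈ dedupN l ↔ v ∈ l := by
  have key : ∀ (l acc : List Name), acc.Nodup →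
      (l.foldl (fun acc v => if v ∈ acc then acc else v :: acc) acc).Nodup ∧
      ∀ v, v ∈ l.foldl (fun acc v => if v ∈ acc then acc else v :: acc) acc ↔
        v ∈ acc ∨ v ∈ l := by
    intro l
    induction l with
    | nil => intro acc h; exact ⟨h, fun v => by simp⟩
    | cons u l ih =>
      intro acc h
      rw [List.foldl_cons]
      by_cases hu : u ∈ acc
      · rw [if_pos hu]
        refine ⟨(ih acc h).1, fun v => ?_⟩
        rw [(ih acc h).2 v, List.mem_cons]
        constructor
        · rintro (h1 | h1)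
          · exact Or.inl h1
          · exact Or.inr (Or.inr h1)
        · rintro (h1 | rfl | h1)
          · exact Or.inl h1
          · exact Or.inl hu
          · exact Or.inr h1
      · rw [if_neg hu]
        have h' : (u :: acc).Nodup := List.nodup_cons.2 ⟨hu, h⟩
        refine ⟨(ih _ h').1, fun v => ?_⟩
        rw [(ih _ h').2 v, List.mem_cons, List.mem_cons]
        tauto
  have := key l [] List.nodup_nil
  exact ⟨this.1, fun v => by rw [dedupN, this.2 v]; simp⟩

/-- The list of variables of a token list, with numbers of occurrences. -/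
def varsT (toks : List Tok) : List (Name × ℕ) :=
  (dedupN (namesT toks)).map (fun v => (v, (namesT toks).count v))

theorem varsT_spec (E : Ex) :
    (∀ vc ∈ varsT E.toks, vc.2 = E.names.count vc.1 ∧ 1 ≤ vc.2) ∧
    (∀ v ∈ E.names, v ∈ (varsT E.toks).map Prod.fst) := by
  unfold varsT
  rw [namesT_toks]
  obtain ⟨h1, h2⟩ := dedupN_spec E.names
  constructor
  · intro vc hvc
    obtain ⟨v, hv, rfl⟩ := List.mem_map.1 hvc
    exact ⟨rfl, List.count_pos_iff.2 ((h2 v).1 hv)⟩
  · intro v hv
    rw [List.map_map, List.mem_map]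
    exact ⟨v, (h2 v).2 hv, rfl⟩

theorem sum_count_le (P : Name → Prop) [DecidablePred P] (D : List Name) (hD : D.Nodup)
    (l : List Name) :
    (D.map (fun v => if P v then l.count v else 0)).sum ≤ l.countP (fun v => decide (P v)) := by
  induction l with
  | nil =>
    have : ∀ D : List Name, (D.map (fun v => if P v then List.count v [] else 0)).sum = 0 := by
      intro D
      induction D with
      | nil => rfl
      | cons a D ih => rw [List.map_cons, List.sum_cons, ih]; simp
    rw [this]
    exact Nat.zero_le _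
  | cons u l ih =>
    have h1 : ∀ D : List Name, (D.map (fun v => if P v then (u :: l).count v else 0)).sum =
        (D.map (fun v => if P v then l.count v else 0)).sum +
          (if P u then D.count u else 0) := by
      intro D
      induction D with
      | nil => simp
      | cons a D ihD =>
        rw [List.map_cons, List.sum_cons, List.map_cons, List.sum_cons, ihD, List.count_cons,
          List.count_cons]
        by_cases hau : a = u
        · subst hau
          by_cases hP : P a
          · simp only [hP, if_true, beq_self_eq_true]; omega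
          · simp only [hP, if_false]; omega
        · have e1 : (u == a) = false := by simpa using fun e => hau e.symm
          have e2 : (a == u) = false := by simpa using hau
          rw [e1, e2]
          by_cases hP : P a <;> simp only [hP, if_true, if_false, Bool.false_eq_true,
            Nat.add_zero] <;> omega
    rw [h1 D, List.countP_cons]
    have h2 : D.count u ≤ 1 := List.nodup_iff_count_le_one.1 hD u
    by_cases hP : P u
    · simp only [hP, if_true, decide_true]; omega
    · simp only [hP, if_false, decide_false, Bool.false_eq_true]; omega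

theorem countP_names_le (ℓ : ℕ) (E : Ex) :
    (ℓ + 1) * E.names.countP (fun v => decide (ℓ ≤ v.length)) ≤ E.size := by
  induction E with
  | var v =>
    simp only [Ex.names, Ex.size, List.countP_cons, List.countP_nil]
    by_cases h : ℓ ≤ v.length
    · simp [h]
    · simp [h]
  | const neg num den => simp [Ex.names, Ex.size]
  | add a b iha ihb =>
    simp only [Ex.names, Ex.size, List.countP_append, Nat.mul_add]
    omega
  | sub a b iha ihb =>
    simp only [Ex.names, Ex.size, List.countP_append, Nat.mul_add]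
    omega
  | mul a b iha ihb =>
    simp only [Ex.names, Ex.size, List.countP_append, Nat.mul_add]
    omega

theorem longOcc_varsT (ℓ : ℕ) (E : Ex) : (ℓ + 1) * longOcc ℓ (varsT E.toks) ≤ E.size := by
  refine le_trans (Nat.mul_le_mul_left _ ?_) (countP_names_le ℓ E)
  unfold longOcc varsT
  rw [namesT_toks, List.map_map]
  exact sum_count_le (fun v => ℓ ≤ v.length) _ (dedupN_spec _).1 _

/-- The set of names of length less than `ℓ`. -/
def shortSet : ℕ → Finset Name
  | 0 => ∅
  | ℓ + 1 => {[]} ∪ ((shortSet ℓ).image (List.cons true) ∪ (shortSet ℓ).image (List.cons false))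

theorem mem_shortSet {ℓ : ℕ} : ∀ {v : Name}, v.length < ℓ → v ∈ shortSet ℓ := by
  induction ℓ with
  | zero => intro v h; omega
  | succ ℓ ih =>
    intro v h
    rw [shortSet]
    match v, h with
    | [], _ => simp
    | true :: v, h =>
      have := ih (v := v) (by simpa using h)
      simp [this]
    | false :: v, h =>
      have := ih (v := v) (by simpa using h)
      simp [this]

theorem card_shortSet (ℓ : ℕ) : (shortSet ℓ).card + 1 ≤ 2 ^ ℓ := by
  induction ℓ with
  | zero => simp [shortSet]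
  | succ ℓ ih =>
    rw [shortSet, pow_succ]
    have h1 := Finset.card_union_le ({[]} : Finset Name)
      ((shortSet ℓ).image (List.cons true) ∪ (shortSet ℓ).image (List.cons false))
    have h2 := Finset.card_union_le ((shortSet ℓ).image (List.cons true))
      ((shortSet ℓ).image (List.cons false))
    have h3 := Finset.card_image_le (s := shortSet ℓ) (f := List.cons true)
    have h4 := Finset.card_image_le (s := shortSet ℓ) (f := List.cons false)
    rw [Finset.card_singleton] at h1
    omega

theorem shortVars_varsT (ℓ : ℕ) (toks : List Tok) : shortVars ℓ (varsT toks) ≤ 2 ^ ℓ := by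
  unfold shortVars varsT
  rw [List.countP_map]
  have h1 : (dedupN (namesT toks)).countP
      ((fun vc : Name × ℕ => decide (vc.1.length < ℓ)) ∘
        fun v => (v, (namesT toks).count v)) =
      ((dedupN (namesT toks)).filter (fun v => decide (v.length < ℓ))).length := by
    rw [List.countP_eq_length_filter]
    rfl
  rw [h1]
  have h2 : ((dedupN (namesT toks)).filter (fun v => decide (v.length < ℓ))).Nodup :=
    (dedupN_spec _).1.filter _
  rw [← List.toFinset_card_of_nodup h2]
  have h3 := Finset.card_le_card (s := ((dedupN (namesT toks)).filter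
    (fun v => decide (v.length < ℓ))).toFinset) (t := shortSet ℓ) (by
      intro v hv
      rw [List.mem_toFinset, List.mem_filter] at hv
      exact mem_shortSet (by simpa using hv.2))
  have h4 := card_shortSet ℓ
  omega

/-- The number of breaks for an expression. -/
theorem breaks_varsT {m σ ℓ : ℕ} {E : Ex} (hm : E.size ≤ m) :
    breaks σ ℓ σ (varsT E.toks) ≤ m / ((ℓ + 1) * (σ + 1)) + 2 ^ ℓ := by
  have h1 := breaks_le σ ℓ (varsT E.toks) σ (le_refl _)
  have h2 := shortVars_varsT ℓ E.toks
  have h3 := longOcc_varsT ℓ E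
  generalize breaks σ ℓ σ (varsT E.toks) = b at *
  generalize longOcc ℓ (varsT E.toks) = o at *
  generalize shortVars ℓ (varsT E.toks) = s at *
  rw [Nat.sub_self, Nat.zero_add] at h1
  by_cases hb : b ≤ s
  · exact (hb.trans h2).trans (Nat.le_add_left _ _)
  · push Not at hb
    obtain ⟨d, rfl⟩ := Nat.exists_eq_add_of_lt hb
    have h4 : (σ + 1) * (d + 1) ≤ o := by
      have : (σ + 1) * (s + d + 1) = (σ + 1) * (d + 1) + (σ + 1) * s := by ring
      omega
    have h5 : d + 1 ≤ m / ((ℓ + 1) * (σ + 1)) := by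
      rw [Nat.le_div_iff_mul_le (by positivity)]
      calc (d + 1) * ((ℓ + 1) * (σ + 1)) = (ℓ + 1) * ((σ + 1) * (d + 1)) := by ring
        _ ≤ (ℓ + 1) * o := Nat.mul_le_mul_left _ h4
        _ ≤ m := h3.trans hm
    generalize m / ((ℓ + 1) * (σ + 1)) = x at h5 ⊢
    omega

/-! ### The algorithm -/

/-- The size of the hitting set. -/
def hsize (σ q : ℕ) : ℕ := ((σ + 2) * (q * q) + 1) * (2 * σ) + 1

theorem hsize_spec (σ q : ℕ) : ((alph q σ).length + 1) ^ (2 * σ) < 2 ^ hsize σ q := by
  rw [length_alph, hsize]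
  calc ((σ + 2) * (q * q) + 1) ^ (2 * σ) ≤ (2 ^ ((σ + 2) * (q * q) + 1)) ^ (2 * σ) :=
        Nat.pow_le_pow_left Nat.lt_two_pow_self.le _
    _ = 2 ^ (((σ + 2) * (q * q) + 1) * (2 * σ)) := by rw [← pow_mul]
    _ < _ := Nat.pow_lt_pow_right (by norm_num) (by omega)

/-- The test modulo `q`. -/
def solveQ (N σ ℓ q : ℕ) (toks : List Tok) : Bool :=
  (enum N σ ℓ q (hset N q σ (2 * σ) (hsize σ q)) (varsT toks)).any
    (fun p => !decide (evalT q p.2 toks = 0))

/-- The algorithm; `N` is the clipping parameter. -/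
def alg (N σ ℓ m : ℕ) (toks : List Tok) : Bool :=
  (List.range ((m + 5) ^ 4)).any (fun q => solveQ N σ ℓ (q + 1) toks)

/-- Soundness (for arbitrary parameters). -/
theorem poly_ne_zero_of_alg {N σ ℓ m : ℕ} {E : Ex} (hE : E.ok) (h : alg N σ ℓ m E.toks = true) :
    E.poly ≠ 0 := by
  unfold alg at h
  rw [List.any_eq_true] at h
  obtain ⟨q, _, h⟩ := h
  unfold solveQ at h
  rw [List.any_eq_true] at h
  obtain ⟨p, _, h⟩ := h
  have h' : evalT (q + 1) p.2 E.toks ≠ 0 := by simpa using h
  rw [evalT_ne_zero] at h'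
  exact Ex.poly_ne_zero_of_nd hE _ h'

/-- The required value of the clipping parameter. -/
def clipN (m σ ℓ : ℕ) : ℕ := (m + 5) ^ (18 * (σ + m / ((ℓ + 1) * (σ + 1)) + 2 ^ ℓ + 1))

/-- Completeness. -/
theorem alg_of_poly_ne_zero {N σ ℓ m : ℕ} {E : Ex} (hE : E.ok) (hm : E.size ≤ m)
    (hσ : σ ≤ m + 2) (hN : clipN m σ ℓ ≤ N) (hne : E.poly ≠ 0) :
    alg N σ ℓ m E.toks = true := by
  obtain ⟨g, hg1, hg2⟩ := Ex.exists_point hE hne hm
  obtain ⟨q, hq, hq1, hq2, hq3⟩ := exists_good_prime (m := m) (Int.natAbs_ne_zero.2 hg1) hg2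
  have : NeZero q := ⟨hq.ne_zero⟩
  have hne' : (E.nd (fun v => ((g v : ℕ) : ZMod q))).1 ≠ 0 := by
    intro h0
    apply hq3
    have h1 := E.nd_map (Int.castRingHom (ZMod q)) (fun v => (g v : ℤ))
    have h2 : (E.nd (fun v => (g v : ZMod q))) =
        E.nd (fun v => (Int.castRingHom (ZMod q)) ((g v : ℕ) : ℤ)) := by
      congr 1
      funext v; simp
    rw [h2, h1] at h0
    have h3 : (((E.nd (fun v => (g v : ℤ))).1 : ℤ) : ZMod q) = 0 := by simpa using h0
    rw [ZMod.intCast_zmod_eq_zero_iff_dvd] at h3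
    exact Int.natCast_dvd.1 h3
  -- bounds
  have hy : ∀ {a b : ℕ}, a ≤ b → (m + 5) ^ a ≤ (m + 5) ^ b :=
    fun h => Nat.pow_le_pow_right (by omega) h
  have hA : (alph q σ).length + 1 ≤ (m + 5) ^ 9 := by
    rw [length_alph]
    have h1 : q * q ≤ (m + 5) ^ 8 := by
      calc q * q ≤ (m + 5) ^ 4 * (m + 5) ^ 4 := Nat.mul_le_mul hq2.le hq2.le
        _ = (m + 5) ^ 8 := by rw [← pow_add]
    have h2 : (σ + 2) * (q * q) ≤ (m + 4) * (m + 5) ^ 8 := Nat.mul_le_mul (by omega) h1
    have h3 : 1 ≤ (m + 5) ^ 8 := Nat.one_le_pow _ _ (by omega)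
    calc (σ + 2) * (q * q) + 1 ≤ (m + 4) * (m + 5) ^ 8 + (m + 5) ^ 8 := by omega
      _ = (m + 5) ^ 9 := by ring
  have hTle : hsize σ q ≤ (m + 5) ^ 11 := by
    unfold hsize
    rw [length_alph] at hA
    have h1 : ((σ + 2) * (q * q) + 1) * (2 * σ) ≤ (m + 5) ^ 9 * (2 * (m + 2)) :=
      Nat.mul_le_mul hA (by omega)
    have h3 : 1 ≤ (m + 5) ^ 9 := Nat.one_le_pow _ _ (by omega)
    calc ((σ + 2) * (q * q) + 1) * (2 * σ) + 1 ≤ (m + 5) ^ 9 * (2 * (m + 2)) + (m + 5) ^ 9 := by
          omega
      _ = (m + 5) ^ 9 * (2 * (m + 2) + 1) := by ring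
      _ ≤ (m + 5) ^ 9 * ((m + 5) * (m + 5)) := Nat.mul_le_mul_left _ (by nlinarith)
      _ = (m + 5) ^ 11 := by ring
  have hN1 : q ^ σ ≤ N := by
    refine le_trans ?_ hN
    calc q ^ σ ≤ ((m + 5) ^ 4) ^ σ := Nat.pow_le_pow_left hq2.le _
      _ = (m + 5) ^ (4 * σ) := by rw [← pow_mul]
      _ ≤ _ := hy (by
        generalize m / ((ℓ + 1) * (σ + 1)) = x
        generalize 2 ^ ℓ = y
        omega)
  have hN2 : ((alph q σ).length + 1) ^ (2 * σ) ≤ N := by
    refine le_trans ?_ hN
    calc ((alph q σ).length + 1) ^ (2 * σ) ≤ ((m + 5) ^ 9) ^ (2 * σ) :=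
          Nat.pow_le_pow_left hA _
      _ = (m + 5) ^ (9 * (2 * σ)) := by rw [← pow_mul]
      _ ≤ _ := hy (by
        generalize m / ((ℓ + 1) * (σ + 1)) = x
        generalize 2 ^ ℓ = y
        omega)
  have hN3 : hsize σ q * (q * hsize σ q) ^ breaks σ ℓ σ (varsT E.toks) ≤ N := by
    refine le_trans ?_ hN
    have hb := breaks_varsT (σ := σ) (ℓ := ℓ) hm
    generalize breaks σ ℓ σ (varsT E.toks) = b at hb ⊢
    have h1 : q * hsize σ q ≤ (m + 5) ^ 15 := by
      calc q * hsize σ q ≤ (m + 5) ^ 4 * (m + 5) ^ 11 := Nat.mul_le_mul hq2.le hTle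
        _ = (m + 5) ^ 15 := by rw [← pow_add]
    calc hsize σ q * (q * hsize σ q) ^ b ≤ (m + 5) ^ 11 * ((m + 5) ^ 15) ^ b :=
          Nat.mul_le_mul hTle (Nat.pow_le_pow_left h1 _)
      _ = (m + 5) ^ (11 + 15 * b) := by rw [← pow_mul, ← pow_add]
      _ ≤ _ := hy (by
        generalize m / ((ℓ + 1) * (σ + 1)) = x at hb ⊢
        generalize 2 ^ ℓ = y at hb ⊢
        omega)
  obtain ⟨h1, h2⟩ := varsT_spec E
  obtain ⟨p, hp, hp2⟩ := enum_complete (ℓ := ℓ) hq (by omega) (le_refl _) hN1 hN2
    (hsize_spec σ q) (varsT E.toks) h1 h2 hne' hN3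
  unfold alg
  rw [List.any_eq_true]
  refine ⟨q - 1, ?_, ?_⟩
  · rw [List.mem_range]
    omega
  · have hq0 : q - 1 + 1 = q := Nat.sub_add_cancel hq.pos
    rw [hq0]
    unfold solveQ
    rw [List.any_eq_true]
    refine ⟨p, hp, ?_⟩
    have := (evalT_ne_zero p.2 E).2 hp2
    simpa using this

/-- **Correctness of the algorithm.** -/
theorem alg_iff {N σ ℓ m : ℕ} {E : Ex} (hE : E.ok) (hm : E.size ≤ m)
    (hσ : σ ≤ m + 2) (hN : clipN m σ ℓ ≤ N) : alg N σ ℓ m E.toks = true ↔ E.poly ≠ 0 :=
  ⟨poly_ne_zero_of_alg hE, alg_of_poly_ne_zero hE hm hσ hN⟩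

end Pool.Agent.PIT
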