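import Mathlib
import Pool.Agent.Work.MP_3c5c20_lc.Lang

/-!
# Univariate blocks of an arithmetic expression
-/

set_option autoImplicit false

namespace Pool.Agent.PIT

/-- The blocks of `a ∘ b` from the blocks of `a` and `b`: if `a` and `b` both have exactly one
block, and these blocks belong to the same variable, then `a ∘ b` is one block of this variable;
otherwise the blocks of `a ∘ b` are the blocks of `a` and the blocks of `b`. -/
def joinBlocks (l m : List Name) : List Name := if l = m ∧ l.length = 1 then l else l ++ m

/-- The variables of the maximal subexpressions in which exactly one variable occurs (with
multiplicities: one entry for each such subexpression). -/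
def Ex.blocks : Ex → List Name
  | .var v => [v]
  | .const _ _ _ => []
  | .add a b => joinBlocks a.blocks b.blocks
  | .sub a b => joinBlocks a.blocks b.blocks
  | .mul a b => joinBlocks a.blocks b.blocks

/-- The strings which are arithmetic expressions such that all but at most `c` variables have at
most `k` blocks. -/
def FewBlocks (k c : ℕ) : Set (List Sy) :=
  {s | ∃ E : Ex, Der 0 s E ∧ Set.encard {v : Name | k < E.blocks.count v} ≤ c}

end Pool.Agent.PIT
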