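import Mathlib
import Pool.Agent.Work.MP_3c5c20_lc.BRRep

/-!
# Formulas with univariate leaves, and chains of affine maps
-/

set_option autoImplicit false

namespace Pool.Agent.PIT.BR

open Function Polynomial

/-- The three operations. -/
inductive Op : Type
  | add | sub | mul
  deriving DecidableEq

/-- Application of an operation. -/
def Op.app {K : Type} [Field K] (o : Op) (a b : K) : K :=
  match o with
  | .add => a + b
  | .sub => a - b
  | .mul => a * b

/-- Formulas: the leaves are univariate polynomials in one variable, or constants. -/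
inductive Fm (K : Type) [Field K] (ι : Type) : Type
  | leaf (i : ι) (P : K[X])
  | const (c : K)
  | node (o : Op) (a b : Fm K ι)

variable {K : Type} [Field K] {ι : Type}

/-- The value of a formula. -/
noncomputable def Fm.eval (q : ι → K) : Fm K ι → K
  | .leaf i P => P.eval (q i)
  | .const c => c
  | .node o a b => o.app (a.eval q) (b.eval q)

/-- The number of leaves labelled by the variable `j`. -/
def Fm.occ [DecidableEq ι] (j : ι) : Fm K ι → ℕ
  | .leaf i _ => if i = j then 1 else 0
  | .const _ => 0
  | .node _ a b => a.occ j + b.occ j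

/-- At all product gates the values of the children are nonzero at the point `ρ`. -/
def Fm.MU (ρ : ι → K) : Fm K ι → Prop
  | .leaf _ _ => True
  | .const _ => True
  | .node o a b => a.MU ρ ∧ b.MU ρ ∧ (o = .mul → a.eval ρ ≠ 0 ∧ b.eval ρ ≠ 0)

section

variable [DecidableEq ι]

theorem Fm.eval_congr {q q' : ι → K} (g : Fm K ι) (h : ∀ i, g.occ i ≠ 0 → q i = q' i) :
    g.eval q = g.eval q' := by
  induction g with
  | leaf i P =>
    have := h i (by simp [Fm.occ])
    simp [Fm.eval, this]
  | const c => rfl
  | node o a b iha ihb =>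
    simp only [Fm.eval]
    rw [iha (fun i hi => h i (by simp only [Fm.occ]; omega)),
      ihb (fun i hi => h i (by simp only [Fm.occ]; omega))]

theorem Fm.eval_update {q : ι → K} {g : Fm K ι} {i : ι} (h : g.occ i = 0) (x : K) :
    g.eval (update q i x) = g.eval q := by
  refine g.eval_congr (fun j hj => ?_)
  rw [update_of_ne]
  rintro rfl
  exact hj h

theorem Fm.finite_occ (g : Fm K ι) : ∃ s : Finset ι, ∀ i, i ∉ s → g.occ i = 0 := by
  induction g with
  | leaf i P =>
    refine ⟨{i}, fun j hj => ?_⟩
    simp only [Finset.mem_singleton] at hj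
    simp [Fm.occ, Ne.symm hj]
  | const c => exact ⟨∅, fun _ _ => rfl⟩
  | node o a b iha ihb =>
    obtain ⟨s, hs⟩ := iha
    obtain ⟨t, ht⟩ := ihb
    refine ⟨s ∪ t, fun j hj => ?_⟩
    rw [Finset.notMem_union] at hj
    simp [Fm.occ, hs j hj.1, ht j hj.2]

end

/-- The restriction of a formula to a line is a polynomial. -/
theorem Fm.line_poly (g : Fm K ι) (a b : ι → K) :
    ∃ P : K[X], ∀ t : K, g.eval (fun i => a i + t * b i) = P.eval t := by
  induction g with
  | leaf i P =>
    refine ⟨P.comp (C (a i) + X * C (b i)), fun t => ?_⟩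
    simp only [Fm.eval, eval_comp, eval_add, eval_mul, eval_C, eval_X]
  | const c => exact ⟨C c, fun t => by simp [Fm.eval]⟩
  | node o f g ihf ihg =>
    obtain ⟨P, hP⟩ := ihf
    obtain ⟨Q, hQ⟩ := ihg
    cases o with
    | add => exact ⟨P + Q, fun t => by simp [Fm.eval, Op.app, hP, hQ]⟩
    | sub => exact ⟨P - Q, fun t => by simp [Fm.eval, Op.app, hP, hQ]⟩
    | mul => exact ⟨P * Q, fun t => by simp [Fm.eval, Op.app, hP, hQ]⟩

theorem Fm.line_finite (g : Fm K ι) (a b : ι → K) {t0 : K}
    (h : g.eval (fun i => a i + t0 * b i) ≠ 0) :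
    {t : K | g.eval (fun i => a i + t * b i) = 0}.Finite := by
  obtain ⟨P, hP⟩ := g.line_poly a b
  have hP0 : P ≠ 0 := by
    rintro rfl
    rw [hP] at h
    simp at h
  have h1 : {t : K | g.eval (fun i => a i + t * b i) = 0} = {t | P.IsRoot t} := by
    ext t
    simp [hP, IsRoot]
  rw [h1]
  exact finite_setOfPred_isRoot hP0

theorem Fm.MU_line_finite (g : Fm K ι) (a b : ι → K) {t0 : K}
    (h : g.MU (fun i => a i + t0 * b i)) :
    {t : K | ¬ g.MU (fun i => a i + t * b i)}.Finite := by
  induction g with
  | leaf i P => simp [Fm.MU]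
  | const c => simp [Fm.MU]
  | node o f g ihf ihg =>
    obtain ⟨h1, h2, h3⟩ := h
    by_cases ho : o = .mul
    · refine (((ihf h1).union (ihg h2)).union ((f.line_finite a b (h3 ho).1).union
        (g.line_finite a b (h3 ho).2))).subset (fun t ht => ?_)
      simp only [Set.mem_ofPred_eq, Set.mem_union, Fm.MU] at ht ⊢
      by_contra hcon
      push Not at hcon
      exact ht ⟨hcon.1.1, hcon.1.2, fun _ => ⟨hcon.2.1, hcon.2.2⟩⟩
    · refine ((ihf h1).union (ihg h2)).subset (fun t ht => ?_)
      simp only [Set.mem_ofPred_eq, Set.mem_union, Fm.MU] at ht ⊢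
      by_contra hcon
      push Not at hcon
      exact ht ⟨hcon.1, hcon.2, fun h => absurd h ho⟩

/-! ### Chains of affine maps -/

/-- `f` is, along the list `L` at the point `ρ`, a chain of affine maps. -/
def AffRep (L : List ι) (ρ : ι → K) (f : (ι → K) → K) : Prop :=
  ∃ (a b : ι → K → K) (z : K), (∀ i ∈ L, a i (ρ i) ≠ 0) ∧
    ∀ q : ι → K, (∀ i, i ∉ L → q i = ρ i) →
      f q = L.foldr (fun i y => a i (q i) * y + b i (q i)) z

theorem foldr_congr_aff {L : List ι} {a b a' b' : ι → K → K} {q q' : ι → K} (z : K)
    (h : ∀ i ∈ L, a i (q i) = a' i (q' i) ∧ b i (q i) = b' i (q' i)) :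
    L.foldr (fun i y => a i (q i) * y + b i (q i)) z =
      L.foldr (fun i y => a' i (q' i) * y + b' i (q' i)) z := by
  induction L with
  | nil => rfl
  | cons x L ih =>
    rw [List.foldr_cons, List.foldr_cons, ih (fun i hi => h i (List.mem_cons_of_mem _ hi)),
      (h x List.mem_cons_self).1, (h x List.mem_cons_self).2]

theorem aff_normal [DecidableEq ι] (ρ : ι → K) (L : List ι) (hL : L.Nodup) (a b : ι → K → K)
    (ha : ∀ i ∈ L, a i (ρ i) ≠ 0) : ∀ z : K, ∃ (a' b' : ι → K → K) (z' : K),
      (∀ i ∈ L, a' i (ρ i) = 1 ∧ b' i (ρ i) = 0) ∧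
      ∀ q : ι → K, L.foldr (fun i y => a i (q i) * y + b i (q i)) z =
        L.foldr (fun i y => a' i (q i) * y + b' i (q i)) z' := by
  induction L with
  | nil => exact fun z => ⟨a, b, z, by simp, fun q => rfl⟩
  | cons x L ih =>
    intro z
    rw [List.nodup_cons] at hL
    obtain ⟨a', b', z', h1, h2⟩ := ih hL.2 (fun i hi => ha i (List.mem_cons_of_mem _ hi)) z
    have hα := ha x List.mem_cons_self
    set α := a x (ρ x) with hαdef
    set β := b x (ρ x) with hβdef
    refine ⟨fun i t => if i = x then a x t / α else a' i t,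
      fun i t => if i = x then b x t - a x t * β / α else α * b' i t + β * (1 - a' i t),
      α * z' + β, ?_, ?_⟩
    · intro i hi
      rcases List.mem_cons.1 hi with rfl | hi
      · simp only [if_true, ← hαdef, ← hβdef]
        constructor
        · exact div_self hα
        · field_simp; ring
      · have hne : i ≠ x := fun h => hL.1 (h ▸ hi)
        simp [hne, (h1 i hi).1, (h1 i hi).2]
    · intro q
      rw [List.foldr_cons, List.foldr_cons, h2 q]
      have key : ∀ (M : List ι), x ∉ M → ∀ w : K,
          M.foldr (fun i y => (if i = x then a x (q i) / α else a' i (q i)) * y +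
            (if i = x then b x (q i) - a x (q i) * β / α
              else α * b' i (q i) + β * (1 - a' i (q i)))) (α * w + β) =
          α * M.foldr (fun i y => a' i (q i) * y + b' i (q i)) w + β := by
        intro M hM w
        induction M with
        | nil => rfl
        | cons y M ihM =>
          rw [List.mem_cons, not_or] at hM
          rw [List.foldr_cons, ihM hM.2, List.foldr_cons, if_neg (Ne.symm hM.1),
            if_neg (Ne.symm hM.1)]
          ring
      rw [key L hL.1 z']
      beta_reduce
      rw [if_pos rfl, if_pos rfl]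
      field_simp
      ring

theorem AffRep.rep [DecidableEq ι] {L : List ι} {ρ : ι → K} {f : (ι → K) → K}
    (h : AffRep L ρ f) (hL : L.Nodup) : Rep 2 L ρ f := by
  obtain ⟨a, b, z, h1, h2⟩ := h
  obtain ⟨a', b', z', h3, h4⟩ := aff_normal ρ L hL a b h1 z
  refine ⟨Fin 2, inferInstance, inferInstance, fun i t => !![a' i t, b' i t; 0, 1],
    ![1, 0], ![z', 1], by simp, ?_, ?_⟩
  · intro i hi
    dsimp only
    rw [(h3 i hi).1, (h3 i hi).2]
    exact Matrix.one_fin_two.symm
  · intro q hq
    rw [h2 q hq, h4 q]
    have key : ∀ M : List ι,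
        Matrix.mulVec (M.map (fun i => !![a' i (q i), b' i (q i); 0, 1])).prod ![z', 1] =
        ![M.foldr (fun i y => a' i (q i) * y + b' i (q i)) z', 1] := by
      intro M
      induction M with
      | nil => simp
      | cons x M ih =>
        rw [List.map_cons, List.prod_cons, ← Matrix.mulVec_mulVec, ih, List.foldr_cons]
        ext i
        fin_cases i <;> simp [Matrix.mulVec, dotProduct, Fin.sum_univ_two]
    rw [key]
    simp [dotProduct, Fin.sum_univ_two]

theorem AffRep.nil (ρ : ι → K) (f : (ι → K) → K) : AffRep [] ρ f := by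
  refine ⟨fun _ _ => 1, fun _ _ => 0, f ρ, by simp, fun q hq => ?_⟩
  have : q = ρ := funext (fun i => hq i (by simp))
  rw [this]
  rfl

theorem AffRep.singleton [DecidableEq ι] (x : ι) (ρ : ι → K) (f : (ι → K) → K) :
    AffRep [x] ρ f := by
  refine ⟨fun _ _ => 1, fun _ t => f (update ρ x t), 0, by simp, fun q hq => ?_⟩
  have : q = update ρ x (q x) := by
    funext i
    by_cases hi : i = x
    · subst hi; simp
    · rw [update_of_ne hi]; exact hq i (by simpa using hi)
  rw [List.foldr_cons, List.foldr_nil]
  beta_reduce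
  rw [← this]
  ring

theorem AffRep.weaken [DecidableEq ι] {L : List ι} {ρ : ι → K} {f : (ι → K) → K}
    (h : AffRep L ρ f) {x : ι} (hx : x ∉ L) (hf : ∀ (q : ι → K) (t : K), f (update q x t) = f q) :
    AffRep (x :: L) ρ f := by
  obtain ⟨a, b, z, h1, h2⟩ := h
  refine ⟨fun i t => if i = x then 1 else a i t, fun i t => if i = x then 0 else b i t, z, ?_, ?_⟩
  · intro i hi
    rcases List.mem_cons.1 hi with rfl | hi
    · simp
    · have hne : i ≠ x := fun h => hx (h ▸ hi)
      simpa [hne] using h1 i hi
  · intro q hq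
    have h3 := h2 (update q x (ρ x)) (fun i hi => by
      by_cases hix : i = x
      · subst hix; simp
      · rw [update_of_ne hix]
        exact hq i (by simp [hix, hi]))
    rw [hf] at h3
    rw [h3, List.foldr_cons]
    simp only [if_true]
    rw [one_mul, add_zero]
    refine foldr_congr_aff (a := a) (b := b) (a' := fun i t => if i = x then 1 else a i t)
      (b' := fun i t => if i = x then 0 else b i t) (q := update q x (ρ x)) (q' := q) z
      (fun i hi => ?_)
    have hne : i ≠ x := fun h => hx (h ▸ hi)
    simp [hne]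

/-- `f` depends on the first member of the list only. -/
def HeadDep [DecidableEq ι] (L : List ι) (ρ : ι → K) (f : (ι → K) → K) : Prop :=
  match L with
  | [] => True
  | x :: L => ∀ q : ι → K, (∀ i, i ∉ x :: L → q i = ρ i) → f q = f (update ρ x (q x))

theorem AffRep.app_aux [DecidableEq ι] {L : List ι} {ρ : ι → K} {f g h : (ι → K) → K}
    (hf : AffRep L ρ f) (hL : L.Nodup) (hg : HeadDep L ρ g) (α β : K → K)
    (hα : α (g ρ) ≠ 0) (hh : ∀ q, h q = α (g q) * f q + β (g q)) : AffRep L ρ h := by
  obtain ⟨a, b, z, h1, h2⟩ := hf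
  cases L with
  | nil => exact AffRep.nil ρ h
  | cons x L =>
    rw [List.nodup_cons] at hL
    refine ⟨fun i t => if i = x then α (g (update ρ x t)) * a x t else a i t,
      fun i t => if i = x then α (g (update ρ x t)) * b x t + β (g (update ρ x t)) else b i t,
      z, ?_, ?_⟩
    · intro i hi
      by_cases hix : i = x
      · subst hix
        simp only [if_true, update_eq_self]
        exact mul_ne_zero hα (h1 i hi)
      · simpa [hix] using h1 i hi
    · intro q hq
      rw [hh, h2 q hq, hg q hq, List.foldr_cons, List.foldr_cons]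
      beta_reduce
      rw [if_pos rfl, if_pos rfl]
      rw [foldr_congr_aff (L := L) (a := a) (b := b)
        (a' := fun i t => if i = x then α (g (update ρ x t)) * a x t else a i t)
        (b' := fun i t => if i = x then α (g (update ρ x t)) * b x t + β (g (update ρ x t))
          else b i t) (q := q) (q' := q) z (fun i hi => by
        have hne : i ≠ x := fun h => hL.1 (h ▸ hi)
        simp [hne])]
      ring

theorem AffRep.app_left [DecidableEq ι] {L : List ι} {ρ : ι → K} {f g : (ι → K) → K}
    (hf : AffRep L ρ f) (hL : L.Nodup) (hg : HeadDep L ρ g) (o : Op)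
    (ho : o = .mul → g ρ ≠ 0) : AffRep L ρ (fun q => o.app (f q) (g q)) := by
  cases o with
  | add =>
    exact hf.app_aux hL hg (fun _ => 1) (fun y => y) one_ne_zero (fun q => by simp [Op.app])
  | sub =>
    exact hf.app_aux hL hg (fun _ => 1) (fun y => -y) one_ne_zero
      (fun q => by simp only [Op.app]; ring)
  | mul =>
    exact hf.app_aux hL hg (fun y => y) (fun _ => 0) (ho rfl)
      (fun q => by simp only [Op.app]; ring)

theorem AffRep.app_right [DecidableEq ι] {L : List ι} {ρ : ι → K} {f g : (ι → K) → K}
    (hf : AffRep L ρ f) (hL : L.Nodup) (hg : HeadDep L ρ g) (o : Op)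
    (ho : o = .mul → g ρ ≠ 0) : AffRep L ρ (fun q => o.app (g q) (f q)) := by
  cases o with
  | add =>
    exact hf.app_aux hL hg (fun _ => 1) (fun y => y) one_ne_zero
      (fun q => by simp only [Op.app]; ring)
  | sub =>
    exact hf.app_aux hL hg (fun _ => -1) (fun y => y) (neg_ne_zero.2 one_ne_zero)
      (fun q => by simp only [Op.app]; ring)
  | mul =>
    exact hf.app_aux hL hg (fun y => y) (fun _ => 0) (ho rfl)
      (fun q => by simp only [Op.app]; ring)

/-! ### Sums, differences and products of represented functions -/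

theorem Rep.app {W : ℕ} {L : List ι} {ρ : ι → K} {f g : (ι → K) → K} (hW : 1 ≤ W)
    (hf : Rep W L ρ f) (hg : Rep W L ρ g) (o : Op) :
    Rep (2 * (W * W)) L ρ (fun q => o.app (f q) (g q)) := by
  have h1 : W + W ≤ 2 * (W * W) := by nlinarith
  cases o with
  | add => exact (hf.add hg).mono h1
  | sub => exact (hf.sub hg).mono h1
  | mul => exact (hf.mul hg).mono (by omega)

end Pool.Agent.PIT.BR
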