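import Mathlib
import Pool.Agent.Work.MP_3c5c20_lc.BRReg

/-!
# The local search theorem
-/

set_option autoImplicit false

namespace Pool.Agent.PIT.BR

open Function Polynomial

variable {K : Type} [Field K] {ι : Type} [DecidableEq ι]

/-- A formula vanishes identically on the slice through `ρ` in the directions `A`, or is nonzero at
`ρ`. -/
def Good (A : Set ι) (ρ : ι → K) (g : Fm K ι) : Prop :=
  (∀ q : ι → K, (∀ i, i ∉ A → q i = ρ i) → g.eval q = 0) ∨ g.eval ρ ≠ 0

/-- All proper subformulas are good. -/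
def AllGood (A : Set ι) (ρ : ι → K) : Fm K ι → Prop
  | .leaf _ _ => True
  | .const _ => True
  | .node _ a b => Good A ρ a ∧ Good A ρ b ∧ AllGood A ρ a ∧ AllGood A ρ b

theorem exists_prune {A : Set ι} {ρ : ι → K} (g : Fm K ι) (hg : AllGood A ρ g) :
    ∃ g' : Fm K ι, (∀ i, g'.occ i ≤ g.occ i) ∧
      (∀ q : ι → K, (∀ i, i ∉ A → q i = ρ i) → g'.eval q = g.eval q) ∧ g'.MU ρ := by
  induction g with
  | leaf i P => exact ⟨.leaf i P, fun _ => le_refl _, fun _ _ => rfl, trivial⟩
  | const c => exact ⟨.const c, fun _ => le_refl _, fun _ _ => rfl, trivial⟩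
  | node o a b iha ihb =>
    obtain ⟨h1, h2, h3, h4⟩ := hg
    obtain ⟨a', a1, a2, a3⟩ := iha h3
    obtain ⟨b', b1, b2, b3⟩ := ihb h4
    have hρ : ∀ i, i ∉ A → ρ i = ρ i := fun _ _ => rfl
    by_cases hz : o = .mul ∧ ((∀ q : ι → K, (∀ i, i ∉ A → q i = ρ i) → a.eval q = 0) ∨
        (∀ q : ι → K, (∀ i, i ∉ A → q i = ρ i) → b.eval q = 0))
    · refine ⟨.const 0, fun _ => Nat.zero_le _, fun q hq => ?_, trivial⟩
      obtain ⟨rfl, hz | hz⟩ := hz
      · simp [Fm.eval, Op.app, hz q hq]
      · simp [Fm.eval, Op.app, hz q hq]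
    · refine ⟨.node o a' b', fun i => ?_, fun q hq => ?_, a3, b3, fun ho => ?_⟩
      · have := a1 i
        have := b1 i
        simp only [Fm.occ]
        omega
      · simp only [Fm.eval]
        rw [a2 q hq, b2 q hq]
      · push Not at hz
        have h5 := hz ho
        rw [a2 ρ hρ, b2 ρ hρ]
        constructor
        · rcases h1 with h1 | h1
          · exact absurd h1 (by push Not; exact h5.1)
          · exact h1
        · rcases h2 with h2 | h2
          · exact absurd h2 (by push Not; exact h5.2)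
          · exact h2

/-- **The local search theorem.** -/
theorem local_search [Infinite K] [Infinite ι] (k : ℕ) : ∃ w : ℕ,
    ∀ (Φ : Fm K ι) (A : Set ι) (ρ : ι → K), (∀ i ∈ A, Φ.occ i ≤ k) → AllGood A ρ Φ →
      (∃ q : ι → K, (∀ i, i ∉ A → q i = ρ i) ∧ Φ.eval q ≠ 0) →
      ∃ (q : ι → K) (D : Finset ι), D.card ≤ w ∧ (∀ i ∈ D, i ∈ A) ∧ (∀ i, i ∉ D → q i = ρ i) ∧
        Φ.eval q ≠ 0 := by
  classical
  obtain ⟨W, hW, hN⟩ := reg (K := K) (ι := ι) k
  obtain ⟨N, hN⟩ := hN W
  refine ⟨N, fun Φ A ρ hocc hgood hex => ?_⟩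
  obtain ⟨g, g1, g2, g3⟩ := exists_prune Φ hgood
  obtain ⟨q0, hq0, hq0'⟩ := hex
  rw [← g2 q0 hq0] at hq0'
  obtain ⟨S, hS⟩ := g.finite_occ
  have hne : ∃ n : ℕ, ∃ (D : Finset ι) (q : ι → K), D.card = n ∧ (∀ i ∈ D, i ∈ A) ∧
      (∀ i, i ∉ D → q i = ρ i) ∧ g.eval q ≠ 0 := by
    refine ⟨_, S.filter (fun i => i ∈ A), fun i => if i ∈ S then q0 i else ρ i, rfl,
      fun i hi => (Finset.mem_filter.1 hi).2, fun i hi => ?_, ?_⟩
    · by_cases hiS : i ∈ S
      · simp only [hiS, if_true]
        refine hq0 i (fun hiA => hi (Finset.mem_filter.2 ⟨hiS, hiA⟩))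
      · simp only [hiS, if_false]
    · have h1 : g.eval (fun i => if i ∈ S then q0 i else ρ i) = g.eval q0 := by
        refine g.eval_congr (fun i hi => ?_)
        have hiS : i ∈ S := by
          by_contra h
          exact hi (hS i h)
        simp only [hiS, if_true]
      rw [h1]
      exact hq0'
  obtain ⟨D, q, hD, hDA, hDq, hqne⟩ := Nat.find_spec hne
  have hmin : ∀ (D' : Finset ι) (q' : ι → K), (∀ i ∈ D', i ∈ A) → (∀ i, i ∉ D' → q' i = ρ i) →
      g.eval q' ≠ 0 → D.card ≤ D'.card := by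
    intro D' q' h1 h2 h3
    rw [hD]
    exact Nat.find_min' hne ⟨D', q', rfl, h1, h2, h3⟩
  refine ⟨q, D, ?_, hDA, hDq, ?_⟩
  · by_contra hcard
    push Not at hcard
    obtain ⟨L, hL1, hL2, hL3⟩ := hN g D.toList D.nodup_toList (by
      rw [Finset.length_toList]; exact hcard.le)
      (fun i hi => (g1 i).trans (hocc i (hDA i (Finset.mem_toList.1 hi))))
    have hLnd : L.Nodup := hL1.nodup D.nodup_toList
    have hLD : ∀ i ∈ L, i ∈ D := fun i hi => Finset.mem_toList.1 (hL1.subset hi)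
    set bb : ι → K := fun i => if i ∈ L then 0 else q i - ρ i with hbb
    set aa : ι → K := fun i => if i ∈ L then q i else ρ i with haa
    have e0 : (fun i => ρ i + (0 : K) * bb i) = ρ := by funext i; simp
    have e1 : (fun i => aa i + (1 : K) * bb i) = q := by
      funext i
      by_cases hi : i ∈ L <;> simp [haa, hbb, hi]
    have f1 := g.MU_line_finite ρ bb (t0 := 0) (by rw [e0]; exact g3)
    have f2 := g.line_finite aa bb (t0 := 1) (by rw [e1]; exact hqne)
    obtain ⟨t, ht⟩ := (f1.union f2).toFinset.exists_notMem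
    rw [Set.Finite.mem_toFinset, Set.mem_union, not_or] at ht
    simp only [Set.mem_ofPred_eq, not_not] at ht
    have hrep := hL3 _ ht.1
    apply ht.2
    refine hrep.eq_zero hLnd hL2.ge (fun q' hq' hex => ?_) _ (fun i hi => ?_)
    · by_contra hne'
      obtain ⟨i, hi, hi2⟩ := hex
      have h5 := hmin (D.erase i) q' (fun j hj => hDA j (Finset.mem_of_mem_erase hj)) (fun j hj => by
        by_cases hji : j = i
        · rw [hji, hi2]
          simp [hbb, hi]
        · have hjD : j ∉ D := fun h => hj (Finset.mem_erase.2 ⟨hji, h⟩)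
          have hjL : j ∉ L := fun h => hjD (hLD j h)
          rw [hq' j hjL]
          simp [hbb, hDq j hjD]) hne'
      have h6 := Finset.card_erase_lt_of_mem (hLD i hi)
      omega
    · simp only [haa, hbb, hi, if_false]
  · rw [← g2 q (fun i hi => hDq i (fun h => hi (hDA i h)))]
    exact hqne

end Pool.Agent.PIT.BR
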