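import Mathlib
import Pool.Agent.Work.MP_3c5c20_lc.BRLang
import Pool.Agent.Work.MP_3c5c20_lc.BRLocal
import Pool.Agent.Work.MP_3c5c20_lc.Machine

/-!
# Expressions as formulas with univariate leaves
-/

set_option autoImplicit false

namespace Pool.Agent.PIT

open Function

/-- The value of an expression at a rational point. -/
def Ex.val (q : Name → ℚ) : Ex → ℚ
  | .var v => q v
  | .const neg num den => (if neg then -(natOf num : ℚ) else (natOf num : ℚ)) / (natOf den : ℚ)
  | .add a b => a.val q + b.val q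
  | .sub a b => a.val q - b.val q
  | .mul a b => a.val q * b.val q

theorem Ex.eval_poly_val (q : Name → ℚ) (E : Ex) : MvPolynomial.eval q E.poly = E.val q := by
  induction E with
  | var v => simp [Ex.poly, Ex.val]
  | const neg num den => simp [Ex.poly, Ex.val]
  | add a b iha ihb => simp [Ex.poly, Ex.val, iha, ihb]
  | sub a b iha ihb => simp [Ex.poly, Ex.val, iha, ihb]
  | mul a b iha ihb => simp [Ex.poly, Ex.val, iha, ihb]

theorem Ex.val_congr {q q' : Name → ℚ} {E : Ex} (h : ∀ v ∈ E.names, q v = q' v) :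
    E.val q = E.val q' := by
  induction E with
  | var v => simp [Ex.val, h v (by simp [Ex.names])]
  | const neg num den => rfl
  | add a b iha ihb =>
    simp only [Ex.val, iha (fun v hv => h v (List.mem_append_left _ hv)),
      ihb (fun v hv => h v (List.mem_append_right _ hv))]
  | sub a b iha ihb =>
    simp only [Ex.val, iha (fun v hv => h v (List.mem_append_left _ hv)),
      ihb (fun v hv => h v (List.mem_append_right _ hv))]
  | mul a b iha ihb =>
    simp only [Ex.val, iha (fun v hv => h v (List.mem_append_left _ hv)),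
      ihb (fun v hv => h v (List.mem_append_right _ hv))]

/-- The univariate polynomial obtained by replacing all variables by `X`. -/
noncomputable def Ex.upoly : Ex → Polynomial ℚ
  | .var _ => Polynomial.X
  | .const neg num den =>
    Polynomial.C ((if neg then -(natOf num : ℚ) else (natOf num : ℚ)) / (natOf den : ℚ))
  | .add a b => a.upoly + b.upoly
  | .sub a b => a.upoly - b.upoly
  | .mul a b => a.upoly * b.upoly

theorem Ex.eval_upoly (x : ℚ) (E : Ex) : E.upoly.eval x = E.val (fun _ => x) := by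
  induction E with
  | var v => simp [Ex.upoly, Ex.val]
  | const neg num den => simp [Ex.upoly, Ex.val]
  | add a b iha ihb => simp [Ex.upoly, Ex.val, iha, ihb]
  | sub a b iha ihb => simp [Ex.upoly, Ex.val, iha, ihb]
  | mul a b iha ihb => simp [Ex.upoly, Ex.val, iha, ihb]

theorem joinBlocks_spec {l m nl nm : List Name} (hl : (l = [] → nl = []) ∧
    ∀ v, l = [v] → ∀ u ∈ nl, u = v) (hm : (m = [] → nm = []) ∧
    ∀ v, m = [v] → ∀ u ∈ nm, u = v) :
    (joinBlocks l m = [] → nl ++ nm = []) ∧
    ∀ v, joinBlocks l m = [v] → ∀ u ∈ nl ++ nm, u = v := by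
  unfold joinBlocks
  by_cases h : l = m ∧ l.length = 1
  · obtain ⟨rfl, h1⟩ := h
    rw [if_pos ⟨rfl, h1⟩]
    refine ⟨fun h0 => by rw [h0] at h1; simp at h1, fun v hv u hu => ?_⟩
    rcases List.mem_append.1 hu with hu | hu
    · exact hl.2 v hv u hu
    · exact hm.2 v hv u hu
  · rw [if_neg h]
    constructor
    · intro h0
      rw [List.append_eq_nil_iff] at h0
      rw [hl.1 h0.1, hm.1 h0.2]
      rfl
    · intro v hv u hu
      rcases List.append_eq_singleton_iff.1 hv with ⟨h1, h2⟩ | ⟨h1, h2⟩
      · rw [hl.1 h1, List.nil_append] at hu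
        exact hm.2 v h2 u hu
      · rw [hm.1 h2, List.append_nil] at hu
        exact hl.2 v h1 u hu

theorem Ex.blocks_spec (E : Ex) : (E.blocks = [] → E.names = []) ∧
    ∀ v, E.blocks = [v] → ∀ u ∈ E.names, u = v := by
  induction E with
  | var v => simp [Ex.blocks, Ex.names]
  | const neg num den => simp [Ex.blocks, Ex.names]
  | add a b iha ihb => exact joinBlocks_spec iha ihb
  | sub a b iha ihb => exact joinBlocks_spec iha ihb
  | mul a b iha ihb => exact joinBlocks_spec iha ihb

namespace BR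

open Polynomial

/-- The formula of `a ∘ b`. -/
noncomputable def fmNode (o : Op) (E a b : Ex) (fa fb : Fm ℚ Name) : Fm ℚ Name :=
  if a.blocks = b.blocks ∧ a.blocks.length = 1 then .leaf (a.blocks.headD []) E.upoly
  else .node o fa fb

/-- The formula with univariate leaves of an expression. -/
noncomputable def fm : Ex → Fm ℚ Name
  | .var v => .leaf v X
  | .const neg num den =>
    .const ((if neg then -(natOf num : ℚ) else (natOf num : ℚ)) / (natOf den : ℚ))
  | .add a b => fmNode .add (.add a b) a b (fm a) (fm b)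
  | .sub a b => fmNode .sub (.sub a b) a b (fm a) (fm b)
  | .mul a b => fmNode .mul (.mul a b) a b (fm a) (fm b)

theorem fmNode_eval {o : Op} {E a b : Ex} {fa fb : Fm ℚ Name} {q : Name → ℚ}
    (hE : E.val q = o.app (a.val q) (b.val q)) (hn : E.names = a.names ++ b.names)
    (ha : fa.eval q = a.val q) (hb : fb.eval q = b.val q) :
    (fmNode o E a b fa fb).eval q = E.val q := by
  unfold fmNode
  split_ifs with h
  · obtain ⟨h1, h2⟩ := h
    obtain ⟨v, hv⟩ := List.length_eq_one_iff.1 h2
    rw [hv]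
    simp only [List.headD_cons, Fm.eval]
    rw [Ex.eval_upoly]
    refine Ex.val_congr (fun u hu => ?_)
    rw [hn] at hu
    rcases List.mem_append.1 hu with hu | hu
    · rw [a.blocks_spec.2 v hv u hu]
    · rw [b.blocks_spec.2 v (h1 ▸ hv) u hu]
  · simp only [Fm.eval]
    rw [ha, hb, hE]

theorem fm_eval (q : Name → ℚ) (E : Ex) : (fm E).eval q = E.val q := by
  induction E with
  | var v => simp [fm, Fm.eval, Ex.val]
  | const neg num den => simp [fm, Fm.eval, Ex.val]
  | add a b iha ihb => exact fmNode_eval rfl rfl iha ihb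
  | sub a b iha ihb => exact fmNode_eval rfl rfl iha ihb
  | mul a b iha ihb => exact fmNode_eval rfl rfl iha ihb

theorem fmNode_occ {o : Op} {E a b : Ex} {fa fb : Fm ℚ Name} {v : Name}
    (ha : fa.occ v = a.blocks.count v) (hb : fb.occ v = b.blocks.count v) :
    (fmNode o E a b fa fb).occ v = (joinBlocks a.blocks b.blocks).count v := by
  unfold fmNode joinBlocks
  split_ifs with h
  · obtain ⟨u, hu⟩ := List.length_eq_one_iff.1 h.2
    rw [hu]
    simp only [List.headD_cons, Fm.occ, List.count_singleton]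
    by_cases huv : u = v
    · simp [huv]
    · simp [huv]
  · simp only [Fm.occ]
    rw [ha, hb, List.count_append]

theorem fm_occ (v : Name) (E : Ex) : (fm E).occ v = E.blocks.count v := by
  induction E with
  | var u =>
    simp only [fm, Fm.occ, Ex.blocks, List.count_singleton]
    by_cases huv : u = v
    · simp [huv]
    · simp [huv]
  | const neg num den => simp [fm, Fm.occ, Ex.blocks]
  | add a b iha ihb => exact fmNode_occ iha ihb
  | sub a b iha ihb => exact fmNode_occ iha ihb
  | mul a b iha ihb => exact fmNode_occ iha ihb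

/-- An expression vanishes identically on the slice or is nonzero at `ρ`. -/
def GoodE (A : Set Name) (ρ : Name → ℚ) (E : Ex) : Prop :=
  (∀ q : Name → ℚ, (∀ i, i ∉ A → q i = ρ i) → E.val q = 0) ∨ E.val ρ ≠ 0

/-- All subexpressions are good. -/
def SubGood (A : Set Name) (ρ : Name → ℚ) : Ex → Prop
  | .var v => GoodE A ρ (.var v)
  | .const neg num den => GoodE A ρ (.const neg num den)
  | .add a b => GoodE A ρ (.add a b) ∧ SubGood A ρ a ∧ SubGood A ρ b
  | .sub a b => GoodE A ρ (.sub a b) ∧ SubGood A ρ a ∧ SubGood A ρ b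
  | .mul a b => GoodE A ρ (.mul a b) ∧ SubGood A ρ a ∧ SubGood A ρ b

theorem SubGood.good {A : Set Name} {ρ : Name → ℚ} {E : Ex} (h : SubGood A ρ E) :
    GoodE A ρ E := by
  cases E with
  | var v => exact h
  | const neg num den => exact h
  | add a b => exact h.1
  | sub a b => exact h.1
  | mul a b => exact h.1

theorem good_fm {A : Set Name} {ρ : Name → ℚ} {E : Ex} : Good A ρ (fm E) ↔ GoodE A ρ E := by
  unfold Good GoodE
  simp only [fm_eval]

theorem allGood_fmNode {A : Set Name} {ρ : Name → ℚ} {o : Op} {E a b : Ex}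
    (ga : GoodE A ρ a) (gb : GoodE A ρ b) (ha : AllGood A ρ (fm a)) (hb : AllGood A ρ (fm b)) :
    AllGood A ρ (fmNode o E a b (fm a) (fm b)) := by
  unfold fmNode
  split_ifs with h
  · trivial
  · exact ⟨good_fm.2 ga, good_fm.2 gb, ha, hb⟩

theorem allGood_fm {A : Set Name} {ρ : Name → ℚ} {E : Ex} (h : SubGood A ρ E) :
    AllGood A ρ (fm E) := by
  induction E with
  | var v => trivial
  | const neg num den => trivial
  | add a b iha ihb => exact allGood_fmNode h.2.1.good h.2.2.good (iha h.2.1) (ihb h.2.2)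
  | sub a b iha ihb => exact allGood_fmNode h.2.1.good h.2.2.good (iha h.2.1) (ihb h.2.2)
  | mul a b iha ihb => exact allGood_fmNode h.2.1.good h.2.2.good (iha h.2.1) (ihb h.2.2)

/-! ### Values and numerators -/

theorem val_mul_den {E : Ex} (h : E.ok) (q : Name → ℚ) : E.val q * (E.den : ℚ) = (E.nd q).1 := by
  induction E with
  | var v => simp [Ex.val, Ex.den, Ex.nd]
  | const neg num den =>
    have hd : (natOf den : ℚ) ≠ 0 := by exact_mod_cast h
    simp only [Ex.val, Ex.den, Ex.nd]
    rw [div_mul_cancel₀ _ hd]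
  | add a b iha ihb =>
    simp only [Ex.val, Ex.den, Ex.nd, ← iha h.1, ← ihb h.2, Ex.nd_snd, Nat.cast_mul]
    ring
  | sub a b iha ihb =>
    simp only [Ex.val, Ex.den, Ex.nd, ← iha h.1, ← ihb h.2, Ex.nd_snd, Nat.cast_mul]
    ring
  | mul a b iha ihb =>
    simp only [Ex.val, Ex.den, Ex.nd, ← iha h.1, ← ihb h.2, Nat.cast_mul]
    ring

theorem val_ne_zero_iff {E : Ex} (h : E.ok) (g : Name → ℕ) :
    E.val (fun v => (g v : ℚ)) ≠ 0 ↔ (E.nd (fun v => (g v : ℤ))).1 ≠ 0 := by
  have hd : (E.den : ℚ) ≠ 0 := by exact_mod_cast Ex.den_ne_zero h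
  have h1 := val_mul_den h (fun v => (g v : ℚ))
  have h2 := E.nd_map (Int.castRingHom ℚ) (fun v => (g v : ℤ))
  have h3 : (E.nd (fun v => (g v : ℚ))) = E.nd (fun v => (Int.castRingHom ℚ) ((g v : ℕ) : ℤ)) := by
    congr 1
  rw [h3, h2] at h1
  simp only [eq_intCast] at h1
  constructor
  · intro h4 h5
    rw [h5, Int.cast_zero] at h1
    exact (mul_ne_zero h4 hd) h1
  · intro h4 h5
    rw [h5, zero_mul] at h1
    exact h4 (by exact_mod_cast h1.symm)

/-! ### Polynomials in one coordinate -/

theorem coord_poly (E : Ex) (q : Name → ℚ) (v : Name) :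
    ∃ P : ℚ[X], P.natDegree ≤ E.size ∧ ∀ t : ℚ, E.val (update q v t) = P.eval t := by
  induction E with
  | var u =>
    by_cases h : u = v
    · exact ⟨X, by simp [Ex.size], fun t => by simp [Ex.val, h]⟩
    · exact ⟨C (q u), by simp, fun t => by simp [Ex.val, h]⟩
  | const neg num den =>
    exact ⟨C ((if neg then -(natOf num : ℚ) else (natOf num : ℚ)) / (natOf den : ℚ)), by simp,
      fun t => by simp [Ex.val]⟩
  | add a b iha ihb =>
    obtain ⟨P, h1, h2⟩ := iha
    obtain ⟨Q, h3, h4⟩ := ihb
    refine ⟨P + Q, ?_, fun t => by simp [Ex.val, h2, h4]⟩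
    have := natDegree_add_le P Q
    simp only [Ex.size]
    omega
  | sub a b iha ihb =>
    obtain ⟨P, h1, h2⟩ := iha
    obtain ⟨Q, h3, h4⟩ := ihb
    refine ⟨P - Q, ?_, fun t => by simp [Ex.val, h2, h4]⟩
    have := natDegree_sub_le P Q
    simp only [Ex.size]
    omega
  | mul a b iha ihb =>
    obtain ⟨P, h1, h2⟩ := iha
    obtain ⟨Q, h3, h4⟩ := ihb
    refine ⟨P * Q, ?_, fun t => by simp [Ex.val, h2, h4]⟩
    have := natDegree_mul_le (p := P) (q := Q)
    simp only [Ex.size]
    omega

theorem exists_nat_nonroot {P : ℚ[X]} (hP : P ≠ 0) {B : ℕ} (hB : P.natDegree ≤ B) :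
    ∃ t : ℕ, t ≤ B ∧ P.eval (t : ℚ) ≠ 0 := by
  by_contra hcon
  push Not at hcon
  apply hP
  refine eq_zero_of_natDegree_lt_card_of_eval_eq_zero' P
    ((Finset.range (B + 1)).image (fun i : ℕ => (i : ℚ))) (fun x hx => ?_) ?_
  · obtain ⟨i, hi, rfl⟩ := Finset.mem_image.1 hx
    rw [Finset.mem_range] at hi
    exact hcon i (by omega)
  · rw [Finset.card_image_of_injective _ Nat.cast_injective, Finset.card_range]
    omega

/-- A value of one coordinate in `{0, …, B}` at which finitely many expressions stay nonzero. -/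
theorem exists_coord {G : List Ex} {q : Name → ℚ} (v : Name) (hG : ∀ g ∈ G, g.val q ≠ 0) {B : ℕ}
    (hB : (G.map Ex.size).sum ≤ B) :
    ∃ t : ℕ, t ≤ B ∧ ∀ g ∈ G, g.val (update q v (t : ℚ)) ≠ 0 := by
  have key : ∃ P : ℚ[X], P ≠ 0 ∧ P.natDegree ≤ (G.map Ex.size).sum ∧
      ∀ t : ℚ, P.eval t ≠ 0 → ∀ g ∈ G, g.val (update q v t) ≠ 0 := by
    clear hB
    induction G with
    | nil => exact ⟨1, one_ne_zero, by simp, by simp⟩
    | cons g G ih =>
      obtain ⟨P, h1, h2, h3⟩ := ih (fun g hg => hG g (List.mem_cons_of_mem _ hg))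
      obtain ⟨Q, h4, h5⟩ := coord_poly g q v
      have hQ : Q ≠ 0 := by
        rintro rfl
        apply hG g List.mem_cons_self
        have := h5 (q v)
        rw [update_eq_self] at this
        rw [this]
        simp
      refine ⟨Q * P, mul_ne_zero hQ h1, ?_, fun t ht g' hg' => ?_⟩
      · have := natDegree_mul_le (p := Q) (q := P)
        rw [List.map_cons, List.sum_cons]
        omega
      · rw [eval_mul] at ht
        rcases List.mem_cons.1 hg' with rfl | hg'
        · rw [h5]
          exact left_ne_zero_of_mul ht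
        · exact h3 t (right_ne_zero_of_mul ht) g' hg'
  obtain ⟨P, h1, h2, h3⟩ := key
  obtain ⟨t, h4, h5⟩ := exists_nat_nonroot h1 (h2.trans hB)
  exact ⟨t, h4, h3 t h5⟩

/-- Rounding of a point: the coordinates in `D` are replaced by numbers in `{0, …, B}`. -/
theorem exists_round {G : List Ex} {B : ℕ} (hB : (G.map Ex.size).sum ≤ B) (p : Name → ℕ)
    (D : Finset Name) : ∀ q : Name → ℚ, (∀ i, i ∉ D → q i = p i) → (∀ g ∈ G, g.val q ≠ 0) →
    ∃ p' : Name → ℕ, (∀ i, i ∉ D → p' i = p i) ∧ (∀ i ∈ D, p' i ≤ B) ∧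
      ∀ g ∈ G, g.val (fun i => (p' i : ℚ)) ≠ 0 := by
  induction D using Finset.induction_on generalizing p with
  | empty =>
    intro q hq hG
    refine ⟨p, fun _ _ => rfl, by simp, fun g hg => ?_⟩
    have : q = fun i => (p i : ℚ) := funext (fun i => hq i (by simp))
    rw [← this]
    exact hG g hg
  | insert a D ha ih =>
    intro q hq hG
    obtain ⟨t, h1, h2⟩ := exists_coord a hG hB
    obtain ⟨p', h3, h4, h5⟩ := ih (update p a t) (update q a (t : ℚ)) (fun i hi => by
      by_cases hia : i = a
      · subst hia; simp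
      · rw [update_of_ne hia, update_of_ne hia]
        exact hq i (by simp [hia, hi])) h2
    refine ⟨p', fun i hi => ?_, fun i hi => ?_, h5⟩
    · rw [Finset.mem_insert, not_or] at hi
      rw [h3 i hi.2, update_of_ne hi.1]
    · by_cases hiD : i ∈ D
      · exact h4 i hiD
      · rcases Finset.mem_insert.1 hi with rfl | hi
        · rw [h3 i hiD, update_self]
          exact h1
        · exact absurd hi hiD

/-- Moving from a point where many expressions are nonzero to a point where one more is
nonzero. -/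
theorem exists_move {G : List Ex} {g : Ex} {B : ℕ} (hB : ((g :: G).map Ex.size).sum ≤ B)
    (p : Name → ℕ) (D : Finset Name) (q : Name → ℚ) (hq : ∀ i, i ∉ D → q i = p i)
    (hG : ∀ g' ∈ G, g'.val (fun i => (p i : ℚ)) ≠ 0) (hg : g.val q ≠ 0) :
    ∃ p' : Name → ℕ, (∀ i, i ∉ D → p' i = p i) ∧ (∀ i ∈ D, p' i ≤ B) ∧
      ∀ g' ∈ g :: G, g'.val (fun i => (p' i : ℚ)) ≠ 0 := by
  have hfin : ∀ G : List Ex, (∀ g' ∈ G, g'.val (fun i => (p i : ℚ)) ≠ 0) →
      {t : ℚ | ∃ g' ∈ G, g'.val (fun i => (p i : ℚ) + t * (q i - p i)) = 0}.Finite := by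
    intro G
    induction G with
    | nil => intro _; simp
    | cons g' G ih =>
      intro h
      have h1 := ih (fun g'' hg'' => h g'' (List.mem_cons_of_mem _ hg''))
      have h2 := (fm g').line_finite (fun i => (p i : ℚ)) (fun i => q i - p i) (t0 := 0) (by
        rw [fm_eval]
        simpa using h g' List.mem_cons_self)
      refine (h1.union h2).subset (fun t ht => ?_)
      obtain ⟨g'', hg'', ht⟩ := ht
      rcases List.mem_cons.1 hg'' with rfl | hg''
      · right
        rw [Set.mem_ofPred_eq, fm_eval]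
        exact ht
      · left
        exact ⟨g'', hg'', ht⟩
  have h1 := hfin G hG
  have h2 := (fm g).line_finite (fun i => (p i : ℚ)) (fun i => q i - p i) (t0 := 1) (by
    rw [fm_eval]
    have : (fun i => (p i : ℚ) + 1 * (q i - p i)) = q := by funext i; ring
    rw [this]
    exact hg)
  obtain ⟨t, ht⟩ := (h1.union h2).toFinset.exists_notMem
  rw [Set.Finite.mem_toFinset, Set.mem_union, not_or] at ht
  refine exists_round hB p D (fun i => (p i : ℚ) + t * (q i - p i)) (fun i hi => by
    rw [hq i hi]; ring) (fun g' hg' => ?_)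
  rcases List.mem_cons.1 hg' with rfl | hg'
  · intro h0
    apply ht.2
    rw [Set.mem_ofPred_eq, fm_eval]
    exact h0
  · intro h0
    exact ht.1 ⟨g', hg', h0⟩

end BR

end Pool.Agent.PIT
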