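import Mathlib
import Pool.Agent.Work.MP_3c5c20_lc.BREx
import Pool.Agent.Work.MP_3c5c20_lc.Alg

/-!
# The local search algorithm and its correctness
-/

set_option autoImplicit false

namespace Pool.Agent.PIT.BR

open Function

/-! ### Occurrences of subexpressions -/

/-- `At E pre g`: `g` is a subexpression of `E`, and `pre` is the list of tokens before it. -/
inductive At (E : Ex) : List Tok → Ex → Prop
  | root : At E [] E
  | addL {pre : List Tok} {a b : Ex} : At E pre (.add a b) → At E pre a
  | addR {pre : List Tok} {a b : Ex} : At E pre (.add a b) → At E (pre ++ a.toks) b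
  | subL {pre : List Tok} {a b : Ex} : At E pre (.sub a b) → At E pre a
  | subR {pre : List Tok} {a b : Ex} : At E pre (.sub a b) → At E (pre ++ a.toks) b
  | mulL {pre : List Tok} {a b : Ex} : At E pre (.mul a b) → At E pre a
  | mulR {pre : List Tok} {a b : Ex} : At E pre (.mul a b) → At E (pre ++ a.toks) b

theorem At.toks {E g : Ex} {pre : List Tok} (h : At E pre g) :
    ∃ post, E.toks = pre ++ (g.toks ++ post) := by
  induction h with
  | root => exact ⟨[], by simp⟩
  | addL _ ih | subL _ ih | mulL _ ih =>
    obtain ⟨post, h⟩ := ih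
    rw [Ex.toks, List.append_assoc] at h
    exact ⟨_, h⟩
  | addR _ ih | subR _ ih | mulR _ ih =>
    obtain ⟨post, h⟩ := ih
    rw [Ex.toks, List.append_assoc, List.append_assoc, ← List.append_assoc] at h
    exact ⟨_, h⟩

theorem At.ok {E g : Ex} {pre : List Tok} (h : At E pre g) (hE : E.ok) : g.ok := by
  induction h with
  | root => exact hE
  | addL _ ih | subL _ ih | mulL _ ih => exact ih.1
  | addR _ ih | subR _ ih | mulR _ ih => exact ih.2

theorem At.size {E g : Ex} {pre : List Tok} (h : At E pre g) : g.size ≤ E.size := by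
  induction h with
  | root => exact le_refl _
  | addL _ ih | subL _ ih | mulL _ ih | addR _ ih | subR _ ih | mulR _ ih =>
    simp only [Ex.size] at ih
    omega

theorem count_joinBlocks (l m : List Name) (v : Name) :
    l.count v ≤ (joinBlocks l m).count v ∧ m.count v ≤ (joinBlocks l m).count v := by
  unfold joinBlocks
  split_ifs with h
  · rw [← h.1]
    exact ⟨le_refl _, le_refl _⟩
  · rw [List.count_append]
    omega

theorem At.count {E g : Ex} {pre : List Tok} (h : At E pre g) (v : Name) :
    g.blocks.count v ≤ E.blocks.count v := by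
  induction h with
  | root => exact le_refl _
  | addL _ ih | subL _ ih | mulL _ ih => exact (count_joinBlocks _ _ v).1.trans ih
  | addR _ ih | subR _ ih | mulR _ ih => exact (count_joinBlocks _ _ v).2.trans ih

theorem toks_length_le (g : Ex) : g.toks.length ≤ g.size := by
  induction g with
  | var v => simp [Ex.toks, Ex.size]
  | const neg num den => simp [Ex.toks, Ex.size]
  | add a b iha ihb | sub a b iha ihb | mul a b iha ihb =>
    simp only [Ex.toks, Ex.size, List.length_append, List.length_cons, List.length_nil]
    omega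

theorem at_take_node {E g a b : Ex} {pre : List Tok} {t : Tok}
    (hg : At E pre g) (htoks : g.toks = a.toks ++ (b.toks ++ [t]))
    (iha : ∀ j, 1 ≤ j → j ≤ a.toks.length →
      ∃ pre' g', At E pre' g' ∧ pre ++ a.toks.take j = pre' ++ g'.toks)
    (ihb : ∀ j, 1 ≤ j → j ≤ b.toks.length →
      ∃ pre' g', At E pre' g' ∧ (pre ++ a.toks) ++ b.toks.take j = pre' ++ g'.toks)
    (j : ℕ) (h1 : 1 ≤ j) (h2 : j ≤ g.toks.length) :
    ∃ pre' g', At E pre' g' ∧ pre ++ g.toks.take j = pre' ++ g'.toks := by
  rw [htoks] at h2 ⊢
  simp only [List.length_append, List.length_cons, List.length_nil] at h2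
  by_cases c1 : j ≤ a.toks.length
  · rw [List.take_append_of_le_length c1]
    exact iha j h1 c1
  · by_cases c2 : j ≤ a.toks.length + b.toks.length
    · obtain ⟨pre', g', h3, h4⟩ := ihb (j - a.toks.length) (by omega) (by omega)
      refine ⟨pre', g', h3, ?_⟩
      rw [← h4, List.take_append, List.take_of_length_le (by omega : a.toks.length ≤ j),
        List.take_append_of_le_length (by omega), List.append_assoc]
    · refine ⟨pre, g, hg, ?_⟩
      rw [htoks, List.take_of_length_le]
      simp only [List.length_append, List.length_cons, List.length_nil]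
      omega

/-- Each nonempty prefix of the token list ends with a subexpression. -/
theorem at_take (E g : Ex) : ∀ (pre : List Tok), At E pre g → ∀ j, 1 ≤ j → j ≤ g.toks.length →
    ∃ pre' g', At E pre' g' ∧ pre ++ g.toks.take j = pre' ++ g'.toks := by
  induction g with
  | var v =>
    intro pre h j h1 h2
    refine ⟨pre, _, h, ?_⟩
    rw [List.take_of_length_le]
    simpa [Ex.toks] using h1
  | const neg num den =>
    intro pre h j h1 h2
    refine ⟨pre, _, h, ?_⟩
    rw [List.take_of_length_le]
    simpa [Ex.toks] using h1
  | add a b iha ihb =>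
    intro pre h j h1 h2
    exact at_take_node h rfl (iha pre h.addL) (ihb _ h.addR) j h1 h2
  | sub a b iha ihb =>
    intro pre h j h1 h2
    exact at_take_node h rfl (iha pre h.subL) (ihb _ h.subR) j h1 h2
  | mul a b iha ihb =>
    intro pre h j h1 h2
    exact at_take_node h rfl (iha pre h.mulL) (ihb _ h.mulR) j h1 h2

/-! ### Candidates -/

/-- Environments obtained by at most `w` reassignments of variables in `vs` to values at most
`B`. -/
def cands (vs : List Name) (B : ℕ) : ℕ → Env → List Env
  | 0, p => [p]
  | w + 1, p => (cands vs B w p).flatMap (fun c =>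
      c :: vs.flatMap (fun v => (List.range (B + 1)).map (fun x => (v, x) :: c)))

theorem cands_bound {vs : List Name} {B w : ℕ} {p c : Env} (hp : ∀ v, look p v ≤ B)
    (hc : c ∈ cands vs B w p) : (∀ v, look c v ≤ B) ∧ ∀ v, v ∉ vs → look c v = look p v := by
  induction w generalizing c with
  | zero =>
    rw [cands, List.mem_singleton] at hc
    subst hc
    exact ⟨hp, fun _ _ => rfl⟩
  | succ w ih =>
    rw [cands, List.mem_flatMap] at hc
    obtain ⟨d, hd, hc⟩ := hc
    obtain ⟨h1, h2⟩ := ih hd
    rcases List.mem_cons.1 hc with rfl | hc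
    · exact ⟨h1, h2⟩
    · rw [List.mem_flatMap] at hc
      obtain ⟨v, hv, hc⟩ := hc
      obtain ⟨x, hx, rfl⟩ := List.mem_map.1 hc
      rw [List.mem_range] at hx
      rw [look_cons]
      constructor
      · intro u
        by_cases huv : u = v
        · subst huv; rw [update_self]; omega
        · rw [update_of_ne huv]; exact h1 u
      · intro u hu
        rw [update_of_ne]
        · exact h2 u hu
        · rintro rfl; exact hu hv

theorem cands_complete {vs : List Name} {B : ℕ} {p : Env} (w : ℕ) :
    ∀ (D : Finset Name) (p' : Name → ℕ), D.card ≤ w → (∀ v ∈ D, v ∈ vs) →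
      (∀ v, v ∉ D → p' v = look p v) → (∀ v ∈ D, p' v ≤ B) →
      ∃ c ∈ cands vs B w p, look c = p' := by
  induction w with
  | zero =>
    intro D p' h1 h2 h3 h4
    have hD : D = ∅ := Finset.card_eq_zero.1 (by omega)
    subst hD
    exact ⟨p, by simp [cands], funext (fun v => (h3 v (by simp)).symm)⟩
  | succ w ih =>
    intro D p' h1 h2 h3 h4
    rcases D.eq_empty_or_nonempty with rfl | ⟨v, hv⟩
    · obtain ⟨c, hc, hc2⟩ := ih ∅ p' (by simp) (by simp) h3 (by simp)
      refine ⟨c, ?_, hc2⟩
      rw [cands, List.mem_flatMap]
      exact ⟨c, hc, List.mem_cons_self⟩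
    · obtain ⟨c, hc, hc2⟩ := ih (D.erase v) (update p' v (look p v))
        (by rw [Finset.card_erase_of_mem hv]; omega)
        (fun u hu => h2 u (Finset.mem_of_mem_erase hu))
        (fun u hu => by
          by_cases huv : u = v
          · subst huv; rw [update_self]
          · rw [update_of_ne huv]
            exact h3 u (fun h => hu (Finset.mem_erase.2 ⟨huv, h⟩)))
        (fun u hu => by
          rw [update_of_ne (Finset.ne_of_mem_erase hu)]
          exact h4 u (Finset.mem_of_mem_erase hu))
      refine ⟨(v, p' v) :: c, ?_, ?_⟩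
      · rw [cands, List.mem_flatMap]
        refine ⟨c, hc, List.mem_cons_of_mem _ ?_⟩
        rw [List.mem_flatMap]
        refine ⟨v, h2 v hv, List.mem_map.2 ⟨p' v, ?_, rfl⟩⟩
        rw [List.mem_range]
        have := h4 v hv
        omega
      · rw [look_cons, hc2, update_idem, update_eq_self]

/-! ### Nonzero tests -/

/-- The value of (the last subexpression of) a token list is nonzero modulo some `q ≤ b`. -/
def nzP (b : ℕ) (c : Env) (pre : List Tok) : Bool :=
  (List.range b).any (fun q => !decide (evalT (q + 1) c pre = 0))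

theorem evalT_append {q : ℕ} [NeZero q] (env : Env) (pre : List Tok) (E : Ex) :
    evalT q env (pre ++ E.toks) = evalT q env E.toks := by
  unfold evalT
  rw [List.foldl_append, toks_foldl, toks_foldl]
  rfl

theorem nzP_iff {b B : ℕ} {c : Env} {E : Ex} (hE : E.ok) (hs : E.size ≤ B)
    (hc : ∀ v, look c v ≤ B) (hb : (B + 5) ^ 4 ≤ b) (pre : List Tok) :
    nzP b c (pre ++ E.toks) = true ↔ E.val (fun v => (look c v : ℚ)) ≠ 0 := by
  rw [val_ne_zero_iff hE]
  unfold nzP
  rw [List.any_eq_true]
  have hcast : ∀ q : ℕ, (E.nd (fun v => ((look c v : ℕ) : ZMod (q + 1)))).1 =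
      (((E.nd (fun v => ((look c v : ℕ) : ℤ))).1 : ℤ) : ZMod (q + 1)) := by
    intro q
    have h1 := E.nd_map (Int.castRingHom (ZMod (q + 1))) (fun v => ((look c v : ℕ) : ℤ))
    have h2 : (E.nd (fun v => ((look c v : ℕ) : ZMod (q + 1)))) =
        E.nd (fun v => (Int.castRingHom (ZMod (q + 1))) ((look c v : ℕ) : ℤ)) := by
      congr 1
    rw [h2, h1]
    simp
  constructor
  · rintro ⟨q, _, hq⟩ h0
    have h1 : evalT (q + 1) c (pre ++ E.toks) ≠ 0 := by simpa using hq
    rw [evalT_append, evalT_ne_zero, hcast, h0] at h1
    simp at h1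
  · intro hne
    have habs := (E.abs_nd_le (m := B) (fun v => ((look c v : ℕ) : ℤ)) (fun v => by
      rw [abs_of_nonneg (by positivity)]
      exact_mod_cast hc v)).1
    have h2 : (E.nd (fun v => ((look c v : ℕ) : ℤ))).1.natAbs ≤ (B + 2) ^ B := by
      have h3 : (B + 2) ^ E.size ≤ (B + 2) ^ B := Nat.pow_le_pow_right (by omega) hs
      refine le_trans ?_ h3
      zify
      exact habs
    obtain ⟨q, hq, hq1, hq2, hq3⟩ := exists_good_prime (Int.natAbs_ne_zero.2 hne) h2
    obtain ⟨r, rfl⟩ : ∃ r, q = r + 1 := ⟨q - 1, (Nat.sub_add_cancel hq.pos).symm⟩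
    refine ⟨r, List.mem_range.2 (by omega), ?_⟩
    have h4 : evalT (r + 1) c (pre ++ E.toks) ≠ 0 := by
      rw [evalT_append, evalT_ne_zero, hcast]
      intro h5
      rw [ZMod.intCast_zmod_eq_zero_iff_dvd] at h5
      exact hq3 (Int.natCast_dvd.1 h5)
    simpa using h4

/-- Soundness of the nonzero test. -/
theorem poly_ne_zero_of_nzP {b : ℕ} {c : Env} {E : Ex} (hE : E.ok)
    (h : nzP b c E.toks = true) : E.poly ≠ 0 := by
  unfold nzP at h
  rw [List.any_eq_true] at h
  obtain ⟨q, _, hq⟩ := h
  have h1 : evalT (q + 1) c E.toks ≠ 0 := by simpa using hq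
  rw [evalT_ne_zero] at h1
  exact Ex.poly_ne_zero_of_nd hE _ h1

/-! ### The search -/

/-- `c` is nonzero at all prefixes where `p` is, and at one more. -/
def better (b : ℕ) (toks : List Tok) (p c : Env) : Bool :=
  (List.range (toks.length + 1)).all (fun j => !nzP b p (toks.take j) || nzP b c (toks.take j)) &&
  (List.range (toks.length + 1)).any (fun j => nzP b c (toks.take j) && !nzP b p (toks.take j))

/-- One step of the search. -/
def moveStep (w b B : ℕ) (vs : List Name) (toks : List Tok) (p : Env) : Env :=
  ((cands vs B w p).filter (fun c => better b toks p c)).headD p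

/-- The search. -/
def climb (w b B : ℕ) (vs : List Name) (toks : List Tok) (p : Env) : Env :=
  (fun p => moveStep w b B vs toks p)^[toks.length + 2] p

/-- The number of prefixes where `p` is nonzero. -/
def score (b : ℕ) (toks : List Tok) (p : Env) : ℕ :=
  (List.range (toks.length + 1)).countP (fun j => nzP b p (toks.take j))

theorem countP_lt {α : Type} {l : List α} {P Q : α → Bool} (h1 : ∀ x ∈ l, P x = true → Q x = true)
    (h2 : ∃ x ∈ l, Q x = true ∧ P x = false) : l.countP P < l.countP Q := by
  induction l with
  | nil => simp at h2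
  | cons x l ih =>
    have hle : l.countP P ≤ l.countP Q :=
      List.countP_mono_left (fun y hy => h1 y (List.mem_cons_of_mem _ hy))
    rw [List.countP_cons, List.countP_cons]
    obtain ⟨y, hy, hQ, hP⟩ := h2
    rcases List.mem_cons.1 hy with rfl | hy
    · rw [hQ, hP]
      simp only [if_true, Bool.false_eq_true, if_false]
      omega
    · have h3 := ih (fun z hz => h1 z (List.mem_cons_of_mem _ hz)) ⟨y, hy, hQ, hP⟩
      have h4 := h1 x List.mem_cons_self
      by_cases h5 : P x = true
      · rw [h5, h4 h5]
        simp only [if_true]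
        omega
      · rw [Bool.not_eq_true] at h5
        rw [h5]
        simp only [Bool.false_eq_true, if_false]
        split_ifs <;> omega

theorem score_lt {b : ℕ} {toks : List Tok} {p c : Env} (h : better b toks p c = true) :
    score b toks p < score b toks c := by
  unfold better at h
  rw [Bool.and_eq_true, List.all_eq_true, List.any_eq_true] at h
  obtain ⟨h1, j, hj, h2⟩ := h
  refine countP_lt (fun i hi hP => ?_) ⟨j, hj, ?_⟩
  · have := h1 i hi
    rw [hP] at this
    simpa using this
  · rw [Bool.and_eq_true, Bool.not_eq_true'] at h2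
    exact h2

theorem moveStep_cases (w b B : ℕ) (vs : List Name) (toks : List Tok) (p : Env) :
    (moveStep w b B vs toks p = p ∧ ∀ c ∈ cands vs B w p, better b toks p c = false) ∨
    (moveStep w b B vs toks p ∈ cands vs B w p ∧
      better b toks p (moveStep w b B vs toks p) = true) := by
  unfold moveStep
  cases h : (cands vs B w p).filter (fun c => better b toks p c) with
  | nil =>
    left
    refine ⟨rfl, fun c hc => ?_⟩
    rw [List.filter_eq_nil_iff] at h
    simpa using h c hc
  | cons c l =>
    right
    have : c ∈ (cands vs B w p).filter (fun c => better b toks p c) := by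
      rw [h]; exact List.mem_cons_self
    rw [List.mem_filter] at this
    exact this

theorem climb_max (w b B : ℕ) (vs : List Name) (toks : List Tok) (p : Env) :
    ∀ c ∈ cands vs B w (climb w b B vs toks p),
      better b toks (climb w b B vs toks p) c = false := by
  set f : Env → Env := fun p => moveStep w b B vs toks p with hf
  have hstuck : ∀ p, (∀ c ∈ cands vs B w p, better b toks p c = false) → f p = p := by
    intro p hp
    rcases moveStep_cases w b B vs toks p with h | h
    · exact h.1
    · rw [hp _ h.1] at h
      exact absurd h.2 (by simp)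
  have key : ∀ i, (∀ c ∈ cands vs B w (f^[i] p), better b toks (f^[i] p) c = false) ∨
      i ≤ score b toks (f^[i] p) := by
    intro i
    induction i with
    | zero => right; omega
    | succ i ih =>
      rw [iterate_succ_apply']
      rcases ih with ih | ih
      · left
        rw [hstuck _ ih]
        exact ih
      · rcases moveStep_cases w b B vs toks (f^[i] p) with h | h
        · left
          have h1 : f (f^[i] p) = f^[i] p := h.1
          rw [h1]
          exact h.2
        · right
          have := score_lt h.2
          have h1 : f (f^[i] p) = moveStep w b B vs toks (f^[i] p) := rfl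
          rw [h1]
          omega
  rcases key (toks.length + 2) with h | h
  · exact h
  · exfalso
    have h1 : score b toks (f^[toks.length + 2] p) ≤ toks.length + 1 := by
      unfold score
      refine (List.countP_le_length).trans ?_
      rw [List.length_range]
    omega

theorem climb_bound {w b B : ℕ} {vs : List Name} {toks : List Tok} {p : Env}
    (hp : ∀ v, look p v ≤ B) : (∀ v, look (climb w b B vs toks p) v ≤ B) ∧
      ∀ v, v ∉ vs → look (climb w b B vs toks p) v = look p v := by
  unfold climb
  generalize toks.length + 2 = n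
  induction n with
  | zero => exact ⟨hp, fun _ _ => rfl⟩
  | succ n ih =>
    rw [iterate_succ_apply']
    set r := (fun p => moveStep w b B vs toks p)^[n] p with hr
    rcases moveStep_cases w b B vs toks r with h | h
    · rw [h.1]
      exact ih
    · obtain ⟨h1, h2⟩ := cands_bound ih.1 h.1
      exact ⟨h1, fun v hv => (h2 v hv).trans (ih.2 v hv)⟩

/-- The statement of the local search theorem. -/
def LS (k w : ℕ) : Prop :=
  ∀ (Φ : Fm ℚ Name) (A : Set Name) (ρ : Name → ℚ), (∀ i ∈ A, Φ.occ i ≤ k) → AllGood A ρ Φ →
    (∃ q : Name → ℚ, (∀ i, i ∉ A → q i = ρ i) ∧ Φ.eval q ≠ 0) →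
    ∃ (q : Name → ℚ) (D : Finset Name), D.card ≤ w ∧ (∀ i ∈ D, i ∈ A) ∧
      (∀ i, i ∉ D → q i = ρ i) ∧ Φ.eval q ≠ 0

theorem good_of_allGood {k w : ℕ} (hw : LS k w) {E : Ex} (hE : E.ok) {vs : List Name}
    (hvs : ∀ v ∈ vs, E.blocks.count v ≤ k) {B b : ℕ} (hB : (E.toks.length + 2) * E.size ≤ B)
    (hb : (B + 5) ^ 4 ≤ b) {p : Env} (hp : ∀ v, look p v ≤ B)
    (hmax : ∀ c ∈ cands vs B w p, better b E.toks p c = false) {g : Ex} {pre : List Tok}
    (hg : At E pre g) (hall : AllGood {v | v ∈ vs} (fun v => (look p v : ℚ)) (fm g)) :
    GoodE {v | v ∈ vs} (fun v => (look p v : ℚ)) g := by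
  by_contra hbad
  unfold GoodE at hbad
  rw [not_or, not_not] at hbad
  obtain ⟨h1, h2⟩ := hbad
  push Not at h1
  obtain ⟨q0, hq0, hq0'⟩ := h1
  obtain ⟨q, D, hD1, hD2, hD3, hD4⟩ := hw (fm g) {v | v ∈ vs} (fun v => (look p v : ℚ))
    (fun i hi => by rw [fm_occ]; exact (hg.count i).trans (hvs i hi)) hall
    ⟨q0, hq0, by rw [fm_eval]; exact hq0'⟩
  rw [fm_eval] at hD4
  have hEB : E.size ≤ B := by
    refine le_trans ?_ hB
    exact Nat.le_mul_of_pos_left _ (by omega)
  -- the gates which are nonzero at `p`
  set J := (List.range (E.toks.length + 1)).filter (fun j => nzP b p (E.toks.take j)) with hJ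
  have hJ1 : ∀ j ∈ J, ∃ g' : Ex, (g'.ok ∧ g'.size ≤ E.size ∧
      g'.val (fun v => (look p v : ℚ)) ≠ 0) ∧ ∃ pre', E.toks.take j = pre' ++ g'.toks := by
    intro j hj
    rw [hJ, List.mem_filter, List.mem_range] at hj
    have hj1 : 1 ≤ j := by
      by_contra h0
      obtain rfl : j = 0 := by omega
      have h3 := hj.2
      unfold nzP at h3
      rw [List.any_eq_true] at h3
      obtain ⟨r, _, hr⟩ := h3
      simp [evalT] at hr
    obtain ⟨pre', g', h3, h4⟩ := at_take E E [] .root j hj1 (by omega)
    rw [List.nil_append] at h4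
    refine ⟨g', ⟨h3.ok hE, h3.size, ?_⟩, pre', h4⟩
    have h5 := hj.2
    rw [h4, nzP_iff (h3.ok hE) (h3.size.trans hEB) hp hb] at h5
    exact h5
  have : Inhabited Ex := ⟨.var []⟩
  choose! F hF1 hF2 using hJ1
  have hlen : J.length ≤ E.toks.length + 1 := by
    refine (List.length_filter_le _ _).trans ?_
    rw [List.length_range]
  have hsum : ((g :: J.map F).map Ex.size).sum ≤ B := by
    refine le_trans ?_ hB
    have h3 : ∀ x ∈ (g :: J.map F).map Ex.size, x ≤ E.size := by
      intro x hx
      obtain ⟨g', hg', rfl⟩ := List.mem_map.1 hx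
      rcases List.mem_cons.1 hg' with rfl | hg'
      · exact hg.size
      · obtain ⟨j, hj, rfl⟩ := List.mem_map.1 hg'
        exact (hF1 j hj).2.1
    have h4 := List.sum_le_card_nsmul _ _ h3
    rw [smul_eq_mul] at h4
    refine h4.trans (Nat.mul_le_mul_right _ ?_)
    simp only [List.length_map, List.length_cons]
    omega
  obtain ⟨p', e1, e2, e3⟩ := exists_move hsum (look p) D q hD3 (by
    intro g' hg'
    obtain ⟨j, hj, rfl⟩ := List.mem_map.1 hg'
    exact (hF1 j hj).2.2) hD4
  obtain ⟨c, hc, hc2⟩ := cands_complete w D p' hD1 hD2 e1 e2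
  have hcb := (cands_bound hp hc).1
  have hbet : better b E.toks p c = true := by
    unfold better
    rw [Bool.and_eq_true, List.all_eq_true, List.any_eq_true]
    constructor
    · intro j hj
      by_cases hn : nzP b p (E.toks.take j) = true
      · have hjJ : j ∈ J := by
          rw [hJ, List.mem_filter]
          exact ⟨hj, hn⟩
        obtain ⟨pre', h3⟩ := hF2 j hjJ
        have h4 : nzP b c (E.toks.take j) = true := by
          rw [h3, nzP_iff (hF1 j hjJ).1 ((hF1 j hjJ).2.1.trans hEB) hcb hb, hc2]
          exact e3 _ (List.mem_cons_of_mem _ (List.mem_map.2 ⟨j, hjJ, rfl⟩))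
        rw [h4]
        simp
      · simp [hn]
    · obtain ⟨post, hpost⟩ := hg.toks
      have htake : E.toks.take (pre ++ g.toks).length = pre ++ g.toks := by
        rw [hpost, ← List.append_assoc, List.take_left']
        rfl
      refine ⟨(pre ++ g.toks).length, ?_, ?_⟩
      · rw [List.mem_range, hpost]
        simp only [List.length_append]
        omega
      · rw [htake, Bool.and_eq_true, Bool.not_eq_true']
        constructor
        · rw [nzP_iff (hg.ok hE) (hg.size.trans hEB) hcb hb, hc2]
          exact e3 _ List.mem_cons_self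
        · rw [← Bool.not_eq_true, nzP_iff (hg.ok hE) (hg.size.trans hEB) hp hb, not_not]
          exact h2
  rw [hmax c hc] at hbet
  exact absurd hbet (by simp)

/-- **At a local maximum all subexpressions are good.** -/
theorem subGood_of_max {k w : ℕ} (hw : LS k w) {E : Ex} (hE : E.ok) {vs : List Name}
    (hvs : ∀ v ∈ vs, E.blocks.count v ≤ k) {B b : ℕ} (hB : (E.toks.length + 2) * E.size ≤ B)
    (hb : (B + 5) ^ 4 ≤ b) {p : Env} (hp : ∀ v, look p v ≤ B)
    (hmax : ∀ c ∈ cands vs B w p, better b E.toks p c = false) (g : Ex) :
    ∀ pre, At E pre g → SubGood {v | v ∈ vs} (fun v => (look p v : ℚ)) g := by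
  induction g with
  | var v =>
    intro pre hg
    exact good_of_allGood hw hE hvs hB hb hp hmax hg trivial
  | const neg num den =>
    intro pre hg
    exact good_of_allGood hw hE hvs hB hb hp hmax hg trivial
  | add a b iha ihb =>
    intro pre hg
    have h1 := iha _ hg.addL
    have h2 := ihb _ hg.addR
    exact ⟨good_of_allGood hw hE hvs hB hb hp hmax hg
      (allGood_fmNode h1.good h2.good (allGood_fm h1) (allGood_fm h2)), h1, h2⟩
  | sub a b iha ihb =>
    intro pre hg
    have h1 := iha _ hg.subL
    have h2 := ihb _ hg.subR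
    exact ⟨good_of_allGood hw hE hvs hB hb hp hmax hg
      (allGood_fmNode h1.good h2.good (allGood_fm h1) (allGood_fm h2)), h1, h2⟩
  | mul a b iha ihb =>
    intro pre hg
    have h1 := iha _ hg.mulL
    have h2 := ihb _ hg.mulR
    exact ⟨good_of_allGood hw hE hvs hB hb hp hmax hg
      (allGood_fmNode h1.good h2.good (allGood_fm h1) (allGood_fm h2)), h1, h2⟩

/-! ### The whole algorithm -/

/-- One step of the computation of the blocks. -/
def bstep (st : List (List Name)) (t : Tok) : List (List Name) :=
  if t.1 = 3 then [t.2.1] :: st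
  else if t.1 = 4 then [] :: st
  else if t.1 = 5 then [] :: st
  else joinBlocks (st.tail.headD []) (st.headD []) :: st.tail.tail

/-- The blocks of a token list. -/
def blocksT (toks : List Tok) : List Name := (toks.foldl bstep []).headD []

theorem foldl_bstep (E : Ex) : ∀ st, E.toks.foldl bstep st = E.blocks :: st := by
  induction E with
  | var v => intro st; simp [Ex.toks, Ex.blocks, bstep]
  | const neg num den => intro st; cases neg <;> simp [Ex.toks, Ex.blocks, bstep]
  | add a b iha ihb | sub a b iha ihb | mul a b iha ihb =>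
    intro st
    rw [Ex.toks, List.foldl_append, List.foldl_append, iha, ihb]
    simp [bstep, Ex.blocks]

theorem blocksT_toks (E : Ex) : blocksT E.toks = E.blocks := by
  unfold blocksT
  rw [foldl_bstep]
  rfl

theorem mem_joinBlocks {l m : List Name} {v : Name} (h : v ∈ joinBlocks l m) : v ∈ l ∨ v ∈ m := by
  unfold joinBlocks at h
  split_ifs at h
  · exact Or.inl h
  · exact List.mem_append.1 h

theorem blocks_subset_names (E : Ex) {v : Name} (h : v ∈ E.blocks) : v ∈ E.names := by
  induction E with
  | var u => exact h
  | const neg num den => exact h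
  | add a b iha ihb | sub a b iha ihb | mul a b iha ihb =>
    rcases mem_joinBlocks h with h | h
    · exact List.mem_append_left _ (iha h)
    · exact List.mem_append_right _ (ihb h)

/-- The variables with at most `k` blocks. -/
def lightV (k : ℕ) (toks : List Tok) : List Name :=
  (dedupN (namesT toks)).filter (fun v => decide ((blocksT toks).count v ≤ k))

/-- The variables with more than `k` blocks. -/
def heavyV (k : ℕ) (toks : List Tok) : List Name :=
  (dedupN (namesT toks)).filter (fun v => decide (k < (blocksT toks).count v))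

/-- The size of an expression, computed from the token list. -/
def sizeT (toks : List Tok) : ℕ :=
  (toks.map (fun t => t.2.1.length + t.2.2.length + 1)).sum

theorem sizeT_toks (E : Ex) : sizeT E.toks = E.size := by
  unfold sizeT
  induction E with
  | var v => simp [Ex.toks, Ex.size]
  | const neg num den => cases neg <;> simp [Ex.toks, Ex.size]
  | add a b iha ihb | sub a b iha ihb | mul a b iha ihb =>
    simp only [Ex.toks, Ex.size, List.map_append, List.sum_append, iha, ihb, List.map_cons,
      List.map_nil, List.sum_cons, List.sum_nil, List.length_nil]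
    omega

/-- The bound for the values. -/
def boundB (toks : List Tok) : ℕ := (sizeT toks + 2) * sizeT toks

/-- The bound for the moduli. -/
def boundb (toks : List Tok) : ℕ := (boundB toks + 5) ^ 4

/-- The algorithm. -/
def answer (k c w : ℕ) (toks : List Tok) : Bool :=
  decide ((heavyV k toks).length ≤ c) &&
  (cands (heavyV k toks) (boundB toks) c []).any (fun p =>
    nzP (boundb toks) (climb w (boundb toks) (boundB toks) (lightV k toks) toks p) toks)

/-- **Correctness of the algorithm.** -/
theorem answer_iff {k w : ℕ} (hw : LS k w) (c : ℕ) {E : Ex} (hE : E.ok) :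
    answer k c w E.toks = true ↔
      E.poly ≠ 0 ∧ Set.encard {v : Name | k < E.blocks.count v} ≤ c := by
  have hheavy : {v : Name | k < E.blocks.count v} = ((heavyV k E.toks).toFinset : Set Name) := by
    ext v
    rw [Set.mem_ofPred_eq, Finset.mem_coe, List.mem_toFinset, heavyV, List.mem_filter,
      (dedupN_spec _).2, namesT_toks, blocksT_toks, decide_eq_true_iff]
    constructor
    · intro h
      exact ⟨blocks_subset_names E (List.count_pos_iff.1 (by omega)), h⟩
    · exact fun h => h.2
  have hcard : Set.encard {v : Name | k < E.blocks.count v} ≤ c ↔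
      (heavyV k E.toks).length ≤ c := by
    have hnd : (heavyV k E.toks).Nodup := (dedupN_spec _).1.filter _
    rw [hheavy, Set.encard_coe_eq_coe_finsetCard, List.toFinset_card_of_nodup hnd]
    exact Nat.cast_le
  rw [hcard]
  unfold answer
  rw [Bool.and_eq_true, decide_eq_true_iff, List.any_eq_true]
  constructor
  · rintro ⟨h1, p, _, h2⟩
    exact ⟨poly_ne_zero_of_nzP hE h2, h1⟩
  · rintro ⟨hne, h1⟩
    refine ⟨h1, ?_⟩
    obtain ⟨g, hg1, hg2⟩ := exists_nat_point hne E.totalDegree_poly_le
    rw [Ex.eval_poly_val] at hg2
    have hB : (E.toks.length + 2) * E.size ≤ boundB E.toks := by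
      unfold boundB
      rw [sizeT_toks]
      exact Nat.mul_le_mul_right _ (by have := toks_length_le E; omega)
    have hEB : E.size ≤ boundB E.toks :=
      le_trans (Nat.le_mul_of_pos_left _ (by omega)) hB
    obtain ⟨p, hp, hp2⟩ := cands_complete (vs := heavyV k E.toks) (B := boundB E.toks) (p := [])
      c (heavyV k E.toks).toFinset (fun v => if v ∈ heavyV k E.toks then g v else 0)
      ((List.toFinset_card_le _).trans h1) (fun v hv => List.mem_toFinset.1 hv)
      (fun v hv => by
        rw [List.mem_toFinset] at hv
        simp [hv, look_nil]) (fun v hv => by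
        rw [List.mem_toFinset] at hv
        simp only [hv, if_true]
        exact (hg1 v).trans hEB)
    refine ⟨p, hp, ?_⟩
    have hpb := (cands_bound (p := []) (fun v => by rw [look_nil]; omega) hp).1
    obtain ⟨hb1, hb2⟩ := climb_bound (w := w) (b := boundb E.toks) (B := boundB E.toks)
      (vs := lightV k E.toks) (toks := E.toks) hpb
    have hmax := climb_max w (boundb E.toks) (boundB E.toks) (lightV k E.toks) E.toks p
    set r := climb w (boundb E.toks) (boundB E.toks) (lightV k E.toks) E.toks p with hr
    have hsub := subGood_of_max hw hE (vs := lightV k E.toks) (fun v hv => by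
      rw [lightV, List.mem_filter, blocksT_toks] at hv
      simpa using hv.2) hB (le_refl _) hb1 hmax E [] .root
    have hnz : nzP (boundb E.toks) r ([] ++ E.toks) = true := by
      rw [nzP_iff hE hEB hb1 (show (boundB E.toks + 5) ^ 4 ≤ boundb E.toks from le_refl _)]
      rcases hsub.good with h3 | h3
      · exfalso
        have h4 := h3 (fun v => if v ∈ E.names then (g v : ℚ) else (look r v : ℚ)) (fun v hv => by
          by_cases hvn : v ∈ E.names
          · simp only [hvn, if_true]
            have h5 : v ∉ lightV k E.toks := hv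
            have h6 : v ∈ heavyV k E.toks := by
              rw [lightV, List.mem_filter, not_and, (dedupN_spec _).2, namesT_toks,
                decide_eq_true_iff, not_le] at h5
              rw [heavyV, List.mem_filter, (dedupN_spec _).2, namesT_toks, decide_eq_true_iff]
              exact ⟨hvn, h5 hvn⟩
            rw [hb2 v h5, hp2]
            simp [h6]
          · simp only [hvn, if_false])
        apply hg2
        rw [← h4]
        exact Ex.val_congr (fun v hv => by simp [hv])
      · exact h3
    rwa [List.nil_append] at hnz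

end Pool.Agent.PIT.BR
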