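import Mathlib
import Pool.Agent.Work.MP_3c5c20_lc.Machine

/-!
# The grammar of arithmetic expressions and a parser
-/

set_option autoImplicit false

namespace Pool.Agent.PIT

/-! ### The parser -/

/-- A product with a pending left factor. -/
def mulc (P : Option (List Tok)) (v : List Tok) : List Tok :=
  match P with
  | none => v
  | some p => p ++ (v ++ [(2, ([], []))])

/-- A sum or difference with a pending left operand. -/
def addc (S : Option (List Tok × ℕ)) (v : List Tok) : List Tok :=
  match S with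
  | none => v
  | some s => s.1 ++ (v ++ [(s.2, ([], []))])

/-- Modes `(tag, P, neg, num, den)`. Tag `0`: an operand is expected (pending product `P`);
`1`: reading a variable; `2`: reading a numerator; `3`: reading a denominator; `4`: a term with
value `P` has been read; `5`: error. -/
abbrev Mode : Type := ℕ × (Option (List Tok) × (Bool × (List Bool × List Bool)))

/-- Pending data of an open parenthesis. -/
abbrev Fr : Type := Option (List Tok × ℕ) × Option (List Tok)

/-- States of the parser. -/
abbrev PS : Type := List Fr × (Option (List Tok × ℕ) × Mode)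

/-- The term read so far. -/
def finish (m : Mode) : Option (List Tok) :=
  if m.1 = 1 then
    if m.2.2.2.1.headD false = true then some (mulc m.2.1 [(3, (m.2.2.2.1, []))]) else none
  else if m.1 = 3 then
    if true ∈ m.2.2.2.2 then
      some (mulc m.2.1 [(if m.2.2.1 then 5 else 4, (m.2.2.2.1, m.2.2.2.2))]) else none
  else if m.1 = 4 then m.2.1
  else none

/-- The error state. -/
def perr (s : PS) : PS := (s.1, (s.2.1, (5, (none, (false, ([], []))))))

/-- Read a digit. -/
def pdig (s : PS) (b : Bool) : PS :=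
  let m := s.2.2
  if m.1 = 0 then (s.1, (s.2.1, (2, (m.2.1, (false, ([b], []))))))
  else if m.1 = 1 then (s.1, (s.2.1, (1, (m.2.1, (m.2.2.1, (m.2.2.2.1 ++ [b], m.2.2.2.2))))))
  else if m.1 = 2 then (s.1, (s.2.1, (2, (m.2.1, (m.2.2.1, (m.2.2.2.1 ++ [b], m.2.2.2.2))))))
  else if m.1 = 3 then (s.1, (s.2.1, (3, (m.2.1, (m.2.2.1, (m.2.2.2.1, m.2.2.2.2 ++ [b]))))))
  else perr s

/-- Read a binary additive operator. -/
def padd (s : PS) (k : ℕ) : PS :=
  match finish s.2.2 with
  | none => perr s
  | some T => (s.1, (some (addc s.2.1 T, k), (0, (none, (false, ([], []))))))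

/-- Read a multiplication sign. -/
def pmul (s : PS) : PS :=
  match finish s.2.2 with
  | none => perr s
  | some T => (s.1, (s.2.1, (0, (some T, (false, ([], []))))))

/-- Read a closing parenthesis. -/
def prp (s : PS) : PS :=
  match finish s.2.2 with
  | none => perr s
  | some T =>
    match s.1 with
    | [] => perr s
    | f :: r => (r, (f.1, (4, (some (mulc f.2 (addc s.2.1 T)), (false, ([], []))))))

/-- One step of the parser. -/
def pstepS (s : PS) (c : Sy) : PS :=
  match c with
  | .x => if s.2.2.1 = 0 then (s.1, (s.2.1, (1, (s.2.2.2.1, (false, ([], [])))))) else perr s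
  | .zero => pdig s false
  | .one => pdig s true
  | .slash =>
    if s.2.2.1 = 2 ∧ s.2.2.2.2.2.1 ≠ [] then
      (s.1, (s.2.1, (3, (s.2.2.2.1, (s.2.2.2.2.1, (s.2.2.2.2.2.1, []))))))
    else perr s
  | .plus => padd s 0
  | .minus =>
    if s.2.2.1 = 0 then (s.1, (s.2.1, (2, (s.2.2.2.1, (true, ([], []))))))
    else padd s 1
  | .times => pmul s
  | .lp =>
    if s.2.2.1 = 0 then ((s.2.1, s.2.2.2.1) :: s.1, (none, (0, (none, (false, ([], []))))))
    else perr s
  | .rp => prp s

/-- The initial state. -/
def pinit : PS := ([], (none, (0, (none, (false, ([], []))))))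

/-- The parser. -/
def parse (s : List Sy) : Option (List Tok) :=
  let t := s.foldl pstepS pinit
  if t.1 = [] then (finish t.2.2).map (fun T => addc t.2.1 T) else none

/-! ### Completeness of the parser -/

theorem foldl_digs_var (fr : List Fr) (S : Option (List Tok × ℕ)) (P : Option (List Tok))
    (neg : Bool) (den : List Bool) (l : List Bool) : ∀ num : List Bool,
    (digs l).foldl pstepS (fr, (S, (1, (P, (neg, (num, den)))))) =
      (fr, (S, (1, (P, (neg, (num ++ l, den)))))) := by
  induction l with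
  | nil => intro num; simp [digs]
  | cons b l ih =>
    intro num
    have : (digs (b :: l)) = (if b then Sy.one else Sy.zero) :: digs l := rfl
    rw [this, List.foldl_cons]
    have h1 : pstepS (fr, (S, (1, (P, (neg, (num, den)))))) (if b then Sy.one else Sy.zero) =
        (fr, (S, (1, (P, (neg, (num ++ [b], den)))))) := by
      cases b <;> simp [pstepS, pdig]
    rw [h1, ih]
    simp

theorem foldl_digs_num (fr : List Fr) (S : Option (List Tok × ℕ)) (P : Option (List Tok))
    (neg : Bool) (den : List Bool) (l : List Bool) : ∀ num : List Bool,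
    (digs l).foldl pstepS (fr, (S, (2, (P, (neg, (num, den)))))) =
      (fr, (S, (2, (P, (neg, (num ++ l, den)))))) := by
  induction l with
  | nil => intro num; simp [digs]
  | cons b l ih =>
    intro num
    have : (digs (b :: l)) = (if b then Sy.one else Sy.zero) :: digs l := rfl
    rw [this, List.foldl_cons]
    have h1 : pstepS (fr, (S, (2, (P, (neg, (num, den)))))) (if b then Sy.one else Sy.zero) =
        (fr, (S, (2, (P, (neg, (num ++ [b], den)))))) := by
      cases b <;> simp [pstepS, pdig]
    rw [h1, ih]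
    simp

theorem foldl_digs_den (fr : List Fr) (S : Option (List Tok × ℕ)) (P : Option (List Tok))
    (neg : Bool) (num : List Bool) (l : List Bool) : ∀ den : List Bool,
    (digs l).foldl pstepS (fr, (S, (3, (P, (neg, (num, den)))))) =
      (fr, (S, (3, (P, (neg, (num, den ++ l)))))) := by
  induction l with
  | nil => intro num; simp [digs]
  | cons b l ih =>
    intro den
    have : (digs (b :: l)) = (if b then Sy.one else Sy.zero) :: digs l := rfl
    rw [this, List.foldl_cons]
    have h1 : pstepS (fr, (S, (3, (P, (neg, (num, den)))))) (if b then Sy.one else Sy.zero) =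
        (fr, (S, (3, (P, (neg, (num, den ++ [b])))))) := by
      cases b <;> simp [pstepS, pdig]
    rw [h1, ih]
    simp

/-- The digits of a numerator, starting in the mode where an operand is expected. -/
theorem foldl_sgn_num (fr : List Fr) (S : Option (List Tok × ℕ)) (P : Option (List Tok))
    (neg : Bool) (num : List Bool) (h : num ≠ []) :
    (sgn neg ++ digs num).foldl pstepS (fr, (S, (0, (P, (false, ([], [])))))) =
      (fr, (S, (2, (P, (neg, (num, [])))))) := by
  cases neg with
  | true =>
    have : sgn true ++ digs num = Sy.minus :: digs num := rfl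
    rw [this, List.foldl_cons]
    have h1 : pstepS (fr, (S, (0, (P, (false, ([], [])))))) Sy.minus =
        (fr, (S, (2, (P, (true, ([], [])))))) := by simp [pstepS]
    rw [h1, foldl_digs_num]
    simp
  | false =>
    match num, h with
    | b :: l, _ =>
      have : sgn false ++ digs (b :: l) = (if b then Sy.one else Sy.zero) :: digs l := rfl
      rw [this, List.foldl_cons]
      have h1 : pstepS (fr, (S, (0, (P, (false, ([], [])))))) (if b then Sy.one else Sy.zero) =
          (fr, (S, (2, (P, (false, ([b], [])))))) := by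
        cases b <;> simp [pstepS, pdig]
      rw [h1, foldl_digs_num]
      simp

theorem natOf_ne_zero_iff (l : List Bool) : natOf l ≠ 0 ↔ true ∈ l := by
  have key : ∀ (l : List Bool) (a : ℕ),
      l.foldl (fun a b => 2 * a + (if b then 1 else 0)) a ≠ 0 ↔ a ≠ 0 ∨ true ∈ l := by
    intro l
    induction l with
    | nil => intro a; simp
    | cons b l ih =>
      intro a
      rw [List.foldl_cons, ih]
      cases b <;> simp
  have := key l 0
  simpa [natOf] using this

theorem finish_ne_none {m : Mode} {T : List Tok} (h : finish m = some T) : m.1 ≠ 0 := by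
  intro h0
  simp [finish, h0] at h

/-- Completeness statement for the three levels. -/
def CompS : ℕ → List Sy → Ex → Prop
  | 2, s, E => ∀ (fr : List Fr) (S : Option (List Tok × ℕ)) (P : Option (List Tok)),
      ∃ m, s.foldl pstepS (fr, (S, (0, (P, (false, ([], [])))))) = (fr, (S, m)) ∧
        finish m = some (mulc P E.toks)
  | 1, s, E => ∀ (fr : List Fr) (S : Option (List Tok × ℕ)),
      ∃ m, s.foldl pstepS (fr, (S, (0, (none, (false, ([], [])))))) = (fr, (S, m)) ∧
        finish m = some E.toks
  | 0, s, E => ∀ (fr : List Fr),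
      ∃ S m T, s.foldl pstepS (fr, (none, (0, (none, (false, ([], [])))))) = (fr, (S, m)) ∧
        finish m = some T ∧ addc S T = E.toks
  | _, _, _ => True

theorem compS {k : ℕ} {s : List Sy} {E : Ex} (h : Der k s E) : CompS k s E := by
  induction h with
  | var l =>
    intro fr S P
    refine ⟨(1, (P, (false, (true :: l, [])))), ?_, ?_⟩
    · rw [List.foldl_cons]
      have h1 : pstepS (fr, (S, (0, (P, (false, ([], [])))))) Sy.x =
          (fr, (S, (1, (P, (false, ([], [])))))) := by simp [pstepS]
      rw [h1, foldl_digs_var]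
      simp
    · simp [finish, Ex.toks]
  | const neg num den h1 h2 =>
    intro fr S P
    refine ⟨(3, (P, (neg, (num, den)))), ?_, ?_⟩
    · rw [← List.append_assoc, List.foldl_append, foldl_sgn_num _ _ _ _ _ h1, List.foldl_cons]
      have h3 : pstepS (fr, (S, (2, (P, (neg, (num, [])))))) Sy.slash =
          (fr, (S, (3, (P, (neg, (num, [])))))) := by simp [pstepS, h1]
      rw [h3, foldl_digs_den]
      simp
    · have h3 := (natOf_ne_zero_iff den).1 h2
      simp [finish, h3, Ex.toks]
  | @paren s E _ ih =>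
    intro fr S P
    obtain ⟨S', m, T, h1, h2, h3⟩ := ih ((S, P) :: fr)
    refine ⟨(4, (some (mulc P E.toks), (false, ([], [])))), ?_, by simp [finish]⟩
    rw [List.foldl_cons, List.foldl_append]
    have h4 : pstepS (fr, (S, (0, (P, (false, ([], [])))))) Sy.lp =
        ((S, P) :: fr, (none, (0, (none, (false, ([], [])))))) := by simp [pstepS]
    rw [h4, h1]
    simp only [List.foldl_cons, List.foldl_nil, pstepS, prp, h2, h3]
  | factor _ ih =>
    intro fr S
    exact ih fr S none
  | @mul s t a b _ _ ih1 ih2 =>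
    intro fr S
    obtain ⟨m1, h1, h2⟩ := ih1 fr S
    obtain ⟨m2, h3, h4⟩ := ih2 fr S (some a.toks)
    refine ⟨m2, ?_, h4⟩
    rw [List.foldl_append, h1, List.foldl_cons]
    have h5 : pstepS (fr, (S, m1)) Sy.times = (fr, (S, (0, (some a.toks, (false, ([], [])))))) := by
      simp [pstepS, pmul, h2]
    rw [h5, h3]
  | term _ ih =>
    intro fr
    obtain ⟨m, h1, h2⟩ := ih fr none
    exact ⟨none, m, _, h1, h2, rfl⟩
  | @add s t a b _ _ ih1 ih2 =>
    intro fr
    obtain ⟨S1, m1, T1, h1, h2, h3⟩ := ih1 fr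
    obtain ⟨m2, h4, h5⟩ := ih2 fr (some (a.toks, 0))
    refine ⟨some (a.toks, 0), m2, b.toks, ?_, h5, rfl⟩
    rw [List.foldl_append, h1, List.foldl_cons]
    have h6 : pstepS (fr, (S1, m1)) Sy.plus =
        (fr, (some (a.toks, 0), (0, (none, (false, ([], [])))))) := by
      simp [pstepS, padd, h2, h3]
    rw [h6, h4]
  | @sub s t a b _ _ ih1 ih2 =>
    intro fr
    obtain ⟨S1, m1, T1, h1, h2, h3⟩ := ih1 fr
    obtain ⟨m2, h4, h5⟩ := ih2 fr (some (a.toks, 1))
    refine ⟨some (a.toks, 1), m2, b.toks, ?_, h5, rfl⟩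
    rw [List.foldl_append, h1, List.foldl_cons]
    have h6 : pstepS (fr, (S1, m1)) Sy.minus =
        (fr, (some (a.toks, 1), (0, (none, (false, ([], [])))))) := by
      simp [pstepS, padd, h2, h3, finish_ne_none h2]
    rw [h6, h4]

theorem parse_of_der {s : List Sy} {E : Ex} (h : Der 0 s E) : parse s = some E.toks := by
  obtain ⟨S, m, T, h1, h2, h3⟩ := compS h []
  unfold parse pinit
  rw [h1]
  simp [h2, h3]

/-! ### Soundness of the parser -/

/-- Representation of a pending product. -/
def PRep (P : Option (List Tok)) (u : List Sy) : Prop :=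
  match P with
  | none => u = []
  | some t => ∃ s E, u = s ++ [Sy.times] ∧ Der 1 s E ∧ E.toks = t

/-- Representation of a pending sum. -/
def SRep (S : Option (List Tok × ℕ)) (u : List Sy) : Prop :=
  match S with
  | none => u = []
  | some t => ∃ s E, ((t.2 = 0 ∧ u = s ++ [Sy.plus]) ∨ (t.2 = 1 ∧ u = s ++ [Sy.minus])) ∧
      Der 0 s E ∧ E.toks = t.1

/-- Representation of the open parentheses. -/
def FRep : List Fr → List Sy → Prop
  | [], u => u = []
  | f :: r, u => ∃ w uS uP, u = w ++ (uS ++ (uP ++ [Sy.lp])) ∧ FRep r w ∧ SRep f.1 uS ∧ PRep f.2 uP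

/-- Representation of the mode. -/
def MRep (m : Mode) (u : List Sy) : Prop :=
  (m.1 = 0 → PRep m.2.1 u) ∧
  (m.1 = 1 → ∃ uP, PRep m.2.1 uP ∧ u = uP ++ Sy.x :: digs m.2.2.2.1) ∧
  (m.1 = 2 → ∃ uP, PRep m.2.1 uP ∧ u = uP ++ (sgn m.2.2.1 ++ digs m.2.2.2.1)) ∧
  (m.1 = 3 → ∃ uP, PRep m.2.1 uP ∧ m.2.2.2.1 ≠ [] ∧
    u = uP ++ (sgn m.2.2.1 ++ (digs m.2.2.2.1 ++ Sy.slash :: digs m.2.2.2.2))) ∧
  (m.1 = 4 → ∀ t, m.2.1 = some t → ∃ E, Der 1 u E ∧ E.toks = t)

/-- Representation of the state. -/
def Rep (s : PS) (u : List Sy) : Prop :=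
  ∃ w uS um, u = w ++ (uS ++ um) ∧ FRep s.1 w ∧ SRep s.2.1 uS ∧ MRep s.2.2 um

theorem rep_err {s : PS} {u : List Sy} (h : Rep s u) (c : Sy) : Rep (perr s) (u ++ [c]) := by
  obtain ⟨w, uS, um, h1, h2, h3, h4⟩ := h
  refine ⟨w, uS, um ++ [c], by rw [h1]; simp, h2, h3, ?_⟩
  simp [MRep, perr]

theorem PRep.combine {P : Option (List Tok)} {u s : List Sy} {E : Ex} (hP : PRep P u)
    (h : Der 2 s E) : ∃ E', Der 1 (u ++ s) E' ∧ E'.toks = mulc P E.toks := by
  cases P with
  | none =>
    have : u = [] := hP
    subst this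
    exact ⟨E, .factor h, rfl⟩
  | some t =>
    obtain ⟨s', E', rfl, h2, rfl⟩ := hP
    refine ⟨.mul E' E, ?_, rfl⟩
    have := Der.mul h2 h
    simpa using this

theorem SRep.combine {S : Option (List Tok × ℕ)} {u s : List Sy} {E : Ex} (hS : SRep S u)
    (h : Der 1 s E) : ∃ E', Der 0 (u ++ s) E' ∧ E'.toks = addc S E.toks := by
  cases S with
  | none =>
    have : u = [] := hS
    subst this
    exact ⟨E, .term h, rfl⟩
  | some t =>
    obtain ⟨s', E', h1, h2, h3⟩ := hS
    obtain ⟨t1, t2⟩ := t
    simp only at h1 h3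
    subst h3
    rcases h1 with ⟨rfl, rfl⟩ | ⟨rfl, rfl⟩
    · refine ⟨.add E' E, ?_, rfl⟩
      have := Der.add h2 h
      simpa using this
    · refine ⟨.sub E' E, ?_, rfl⟩
      have := Der.sub h2 h
      simpa using this

theorem MRep.finish {m : Mode} {u : List Sy} {T : List Tok} (h : MRep m u)
    (hT : finish m = some T) : ∃ E, Der 1 u E ∧ E.toks = T := by
  obtain ⟨tag, P, neg, num, den⟩ := m
  obtain ⟨h0, h1, h2, h3, h4⟩ := h
  simp only at h0 h1 h2 h3 h4
  simp only [PIT.finish] at hT
  by_cases t1 : tag = 1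
  · subst t1
    rw [if_pos rfl] at hT
    obtain ⟨uP, hP, rfl⟩ := h1 rfl
    match num, hT with
    | true :: l, hT =>
      simp only [List.headD_cons, if_true, Option.some.injEq] at hT
      obtain ⟨E, hE, hE2⟩ := hP.combine (Der.var l)
      refine ⟨E, hE, ?_⟩
      rw [hE2, ← hT]
      rfl
    | [], hT => simp at hT
    | false :: l, hT => simp at hT
  · rw [if_neg t1] at hT
    by_cases t3 : tag = 3
    · subst t3
      rw [if_pos rfl] at hT
      obtain ⟨uP, hP, hn, rfl⟩ := h3 rfl
      by_cases hd : true ∈ den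
      · rw [if_pos hd, Option.some.injEq] at hT
        obtain ⟨E, hE, hE2⟩ := hP.combine (Der.const neg num den hn ((natOf_ne_zero_iff den).2 hd))
        refine ⟨E, hE, ?_⟩
        rw [hE2, ← hT]
        rfl
      · rw [if_neg hd] at hT
        simp at hT
    · rw [if_neg t3] at hT
      by_cases t4 : tag = 4
      · subst t4
        rw [if_pos rfl] at hT
        exact h4 rfl T hT
      · rw [if_neg t4] at hT
        simp at hT

theorem digs_append (l : List Bool) (b : Bool) :
    digs (l ++ [b]) = digs l ++ [if b then Sy.one else Sy.zero] := by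
  simp [digs]

theorem rep_dig {s : PS} {u : List Sy} (h : Rep s u) (b : Bool) :
    Rep (pdig s b) (u ++ [if b then Sy.one else Sy.zero]) := by
  obtain ⟨fr, S, tag, P, neg, num, den⟩ := s
  unfold pdig
  simp only
  by_cases t0 : tag = 0
  · subst t0
    rw [if_pos rfl]
    obtain ⟨w, uS, um, h1, h2, h3, h4⟩ := h
    have hP := h4.1 rfl
    refine ⟨w, uS, um ++ [if b then Sy.one else Sy.zero], by rw [h1]; simp, h2, h3, ?_⟩
    refine ⟨by simp, by simp, fun _ => ⟨um, hP, ?_⟩, by simp, by simp⟩
    simp [sgn, digs]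
  · rw [if_neg t0]
    by_cases t1 : tag = 1
    · subst t1
      rw [if_pos rfl]
      obtain ⟨w, uS, um, h1, h2, h3, h4⟩ := h
      obtain ⟨uP, hP, rfl⟩ := h4.2.1 rfl
      refine ⟨w, uS, _, ?_, h2, h3, ⟨by simp, fun _ => ⟨uP, hP, rfl⟩, by simp, by simp, by simp⟩⟩
      rw [h1]
      simp [digs_append]
    · rw [if_neg t1]
      by_cases t2 : tag = 2
      · subst t2
        rw [if_pos rfl]
        obtain ⟨w, uS, um, h1, h2, h3, h4⟩ := h
        obtain ⟨uP, hP, rfl⟩ := h4.2.2.1 rfl
        refine ⟨w, uS, _, ?_, h2, h3, ⟨by simp, by simp, fun _ => ⟨uP, hP, rfl⟩, by simp,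
          by simp⟩⟩
        rw [h1]
        simp [digs_append]
      · rw [if_neg t2]
        by_cases t3 : tag = 3
        · subst t3
          rw [if_pos rfl]
          obtain ⟨w, uS, um, h1, h2, h3, h4⟩ := h
          obtain ⟨uP, hP, hn, rfl⟩ := h4.2.2.2.1 rfl
          refine ⟨w, uS, _, ?_, h2, h3, ⟨by simp, by simp, by simp, fun _ => ⟨uP, hP, hn, rfl⟩,
            by simp⟩⟩
          rw [h1]
          simp [digs_append]
        · rw [if_neg t3]
          exact rep_err h _

theorem rep_add {s : PS} {u : List Sy} (h : Rep s u) (k : ℕ) (c : Sy)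
    (hk : (k = 0 ∧ c = Sy.plus) ∨ (k = 1 ∧ c = Sy.minus)) : Rep (padd s k) (u ++ [c]) := by
  unfold padd
  cases hf : finish s.2.2 with
  | none => exact rep_err h _
  | some T =>
    obtain ⟨w, uS, um, h1, h2, h3, h4⟩ := h
    obtain ⟨E, hE, rfl⟩ := h4.finish hf
    obtain ⟨E', hE', hE2⟩ := h3.combine hE
    refine ⟨w, uS ++ um ++ [c], [], by rw [h1]; simp, h2, ?_, ?_⟩
    · refine ⟨uS ++ um, E', ?_, hE', hE2⟩
      rcases hk with ⟨rfl, rfl⟩ | ⟨rfl, rfl⟩
      · exact Or.inl ⟨rfl, rfl⟩
      · exact Or.inr ⟨rfl, rfl⟩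
    · exact ⟨fun _ => rfl, by simp, by simp, by simp, by simp⟩

theorem rep_step {s : PS} {u : List Sy} (h : Rep s u) (c : Sy) : Rep (pstepS s c) (u ++ [c]) := by
  cases c with
  | x =>
    unfold pstepS
    by_cases t0 : s.2.2.1 = 0
    · simp only [if_pos t0]
      obtain ⟨w, uS, um, h1, h2, h3, h4⟩ := h
      have hP := h4.1 t0
      refine ⟨w, uS, um ++ [Sy.x], by rw [h1]; simp, h2, h3, ?_⟩
      exact ⟨by simp, fun _ => ⟨um, hP, by simp [digs]⟩, by simp, by simp, by simp⟩
    · simp only [if_neg t0]
      exact rep_err h _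
  | zero => exact rep_dig h false
  | one => exact rep_dig h true
  | slash =>
    unfold pstepS
    by_cases t0 : s.2.2.1 = 2 ∧ s.2.2.2.2.2.1 ≠ []
    · simp only [if_pos t0]
      obtain ⟨w, uS, um, h1, h2, h3, h4⟩ := h
      obtain ⟨uP, hP, h5⟩ := h4.2.2.1 t0.1
      refine ⟨w, uS, um ++ [Sy.slash], by rw [h1]; simp, h2, h3, ?_⟩
      exact ⟨by simp, by simp, by simp, fun _ => ⟨uP, hP, t0.2, by rw [h5]; simp [digs]⟩, by simp⟩
    · simp only [if_neg t0]
      exact rep_err h _
  | plus => exact rep_add h 0 Sy.plus (Or.inl ⟨rfl, rfl⟩)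
  | minus =>
    unfold pstepS
    by_cases t0 : s.2.2.1 = 0
    · simp only [if_pos t0]
      obtain ⟨w, uS, um, h1, h2, h3, h4⟩ := h
      have hP := h4.1 t0
      refine ⟨w, uS, um ++ [Sy.minus], by rw [h1]; simp, h2, h3, ?_⟩
      exact ⟨by simp, by simp, fun _ => ⟨um, hP, by simp [sgn, digs]⟩, by simp, by simp⟩
    · simp only [if_neg t0]
      exact rep_add h 1 Sy.minus (Or.inr ⟨rfl, rfl⟩)
  | times =>
    show Rep (pmul s) _
    unfold pmul
    cases hf : finish s.2.2 with
    | none => exact rep_err h _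
    | some T =>
      obtain ⟨w, uS, um, h1, h2, h3, h4⟩ := h
      obtain ⟨E, hE, hE2⟩ := h4.finish hf
      refine ⟨w, uS, um ++ [Sy.times], by rw [h1]; simp, h2, h3, ?_⟩
      exact ⟨fun _ => ⟨um, E, rfl, hE, hE2⟩, by simp, by simp, by simp, by simp⟩
  | lp =>
    unfold pstepS
    by_cases t0 : s.2.2.1 = 0
    · simp only [if_pos t0]
      obtain ⟨w, uS, um, h1, h2, h3, h4⟩ := h
      have hP := h4.1 t0
      refine ⟨u ++ [Sy.lp], [], [], by simp, ?_, rfl, ?_⟩
      · exact ⟨w, uS, um, by rw [h1]; simp, h2, h3, hP⟩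
      · exact ⟨fun _ => rfl, by simp, by simp, by simp, by simp⟩
    · simp only [if_neg t0]
      exact rep_err h _
  | rp =>
    show Rep (prp s) _
    unfold prp
    cases hf : finish s.2.2 with
    | none => exact rep_err h _
    | some T =>
      obtain ⟨fr, S, m⟩ := s
      cases fr with
      | nil => exact rep_err h _
      | cons f r =>
        obtain ⟨w, uS, um, h1, h2, h3, h4⟩ := h
        obtain ⟨E, hE, rfl⟩ := h4.finish hf
        obtain ⟨E', hE', hE2⟩ := h3.combine hE
        obtain ⟨w', uS', uP', h5, h6, h7, h8⟩ := h2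
        obtain ⟨E'', hE'', hE3⟩ := h8.combine (Der.paren hE')
        refine ⟨w', uS', uP' ++ Sy.lp :: (uS ++ um ++ [Sy.rp]), by rw [h1, h5]; simp, h6, h7, ?_⟩
        refine ⟨by simp, by simp, by simp, by simp, fun _ t ht => ⟨E'', hE'', ?_⟩⟩
        simp only [Option.some.injEq] at ht
        rw [hE3, ← ht, hE2]

theorem rep_foldl (l : List Sy) : ∀ (s : PS) (u : List Sy), Rep s u →
    Rep (l.foldl pstepS s) (u ++ l) := by
  induction l with
  | nil => intro s u h; simpa using h
  | cons c l ih =>
    intro s u h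
    have := ih _ _ (rep_step h c)
    simpa using this

theorem der_of_parse {s : List Sy} {t : List Tok} (h : parse s = some t) :
    ∃ E, Der 0 s E ∧ E.toks = t := by
  have hrep : Rep (s.foldl pstepS pinit) s := by
    have h0 : Rep pinit [] := by
      refine ⟨[], [], [], rfl, rfl, rfl, ?_⟩
      exact ⟨fun _ => rfl, by simp [pinit], by simp [pinit], by simp [pinit], by simp [pinit]⟩
    simpa using rep_foldl s pinit [] h0
  unfold parse at h
  simp only at h
  generalize s.foldl pstepS pinit = st at h hrep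
  obtain ⟨fr, S, m⟩ := st
  by_cases hfr : fr = []
  · subst hfr
    simp only [if_true] at h
    cases hf : finish m with
    | none => rw [hf] at h; simp at h
    | some T =>
      rw [hf] at h
      simp only [Option.map_some, Option.some.injEq] at h
      obtain ⟨w, uS, um, h1, h2, h3, h4⟩ := hrep
      obtain ⟨E, hE, rfl⟩ := h4.finish hf
      obtain ⟨E', hE', hE2⟩ := h3.combine hE
      have hw : w = [] := h2
      subst hw
      refine ⟨E', ?_, hE2.trans h⟩
      rw [h1]
      simpa using hE'
  · simp [hfr] at h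

/-- **Correctness of the parser.** -/
theorem parse_iff {s : List Sy} {t : List Tok} : parse s = some t ↔ ∃ E, Der 0 s E ∧ E.toks = t :=
  ⟨der_of_parse, fun ⟨E, h, ht⟩ => by rw [parse_of_der h, ht]⟩

/-! ### Further facts -/

/-- Decoding of postfix notation. -/
def decStep (st : List Ex) (t : Tok) : List Ex :=
  if t.1 = 0 then .add (st.tail.headD (.var [])) (st.headD (.var [])) :: st.tail.tail
  else if t.1 = 1 then .sub (st.tail.headD (.var [])) (st.headD (.var [])) :: st.tail.tail
  else if t.1 = 2 then .mul (st.tail.headD (.var [])) (st.headD (.var [])) :: st.tail.tail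
  else if t.1 = 3 then .var t.2.1 :: st
  else if t.1 = 4 then .const false t.2.1 t.2.2 :: st
  else .const true t.2.1 t.2.2 :: st

theorem foldl_decStep (E : Ex) : ∀ st, E.toks.foldl decStep st = E :: st := by
  induction E with
  | var v => intro st; simp [Ex.toks, decStep]
  | const neg num den => intro st; cases neg <;> simp [Ex.toks, decStep]
  | add a b iha ihb =>
    intro st; rw [Ex.toks, List.foldl_append, List.foldl_append, iha, ihb]; simp [decStep]
  | sub a b iha ihb =>
    intro st; rw [Ex.toks, List.foldl_append, List.foldl_append, iha, ihb]; simp [decStep]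
  | mul a b iha ihb =>
    intro st; rw [Ex.toks, List.foldl_append, List.foldl_append, iha, ihb]; simp [decStep]

theorem toks_injective {E E' : Ex} (h : E.toks = E'.toks) : E = E' := by
  have h1 := foldl_decStep E []
  rw [h, foldl_decStep E' []] at h1
  exact (List.cons.inj h1).1.symm

/-- The grammar is unambiguous. -/
theorem der_unique {s : List Sy} {E E' : Ex} (h : Der 0 s E) (h' : Der 0 s E') : E = E' := by
  apply toks_injective
  have h1 := parse_of_der h
  rw [parse_of_der h'] at h1
  exact (Option.some.inj h1).symm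

theorem der_ok {k : ℕ} {s : List Sy} {E : Ex} (h : Der k s E) : E.ok := by
  induction h with
  | var l => trivial
  | const neg num den h1 h2 => exact h2
  | paren _ ih => exact ih
  | factor _ ih => exact ih
  | mul _ _ ih1 ih2 => exact ⟨ih1, ih2⟩
  | term _ ih => exact ih
  | add _ _ ih1 ih2 => exact ⟨ih1, ih2⟩
  | sub _ _ ih1 ih2 => exact ⟨ih1, ih2⟩

theorem der_names {k : ℕ} {s : List Sy} {E : Ex} (h : Der k s E) :
    ∀ v ∈ E.names, ∃ l, v = true :: l := by
  induction h with
  | var l => intro v hv; simp [Ex.names] at hv; exact ⟨l, hv⟩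
  | const neg num den h1 h2 => intro v hv; simp [Ex.names] at hv
  | paren _ ih => exact ih
  | factor _ ih => exact ih
  | mul _ _ ih1 ih2 =>
    intro v hv
    rcases List.mem_append.1 hv with hv | hv
    · exact ih1 v hv
    · exact ih2 v hv
  | term _ ih => exact ih
  | add _ _ ih1 ih2 =>
    intro v hv
    rcases List.mem_append.1 hv with hv | hv
    · exact ih1 v hv
    · exact ih2 v hv
  | sub _ _ ih1 ih2 =>
    intro v hv
    rcases List.mem_append.1 hv with hv | hv
    · exact ih1 v hv
    · exact ih2 v hv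

end Pool.Agent.PIT
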