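import Mathlib
import Pool.Agent.Work.MP_3c5c20_lc.Alg

/-!
# Choice of the parameters and growth of the clipping parameter
-/

set_option autoImplicit false

namespace Pool.Agent.PIT

/-- A binary logarithm. -/
def lg (m : ℕ) : ℕ := Nat.log 2 (m + 5) + 1

/-- The length threshold for names. -/
def lpar (m : ℕ) : ℕ := lg m / 4

/-- The block size. -/
def spar (m : ℕ) : ℕ := Nat.sqrt (m / (lpar m + 1)) + 1

theorem spar_le (m : ℕ) : spar m ≤ m + 2 := by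
  unfold spar
  have h1 := Nat.sqrt_le_self (m / (lpar m + 1))
  have h2 := Nat.div_le_self m (lpar m + 1)
  omega

theorem lt_two_pow_lg (m : ℕ) : m + 5 < 2 ^ lg m := Nat.lt_pow_succ_log_self (by norm_num) _

theorem clipN_le (m : ℕ) :
    clipN m (spar m) (lpar m) ≤ 2 ^ (1300 * (Nat.sqrt (m * lg m) + 1)) := by
  unfold clipN
  set r := Nat.sqrt (m * lg m) with hr
  set l := lg m with hl
  set ℓ := lpar m with hℓ
  have hℓ' : ℓ = l / 4 := rfl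
  set s := Nat.sqrt (m / (ℓ + 1)) with hs
  have hσ : spar m = s + 1 := rfl
  rw [hσ]
  have hr1 : m * l < (r + 1) * (r + 1) := Nat.lt_succ_sqrt _
  have hl1 : 1 ≤ l := by simp [hl, lg]
  have hll : l < 4 * (ℓ + 1) := by omega
  have hs1 : s * s ≤ m / (ℓ + 1) := Nat.sqrt_le _
  have hs2 : m / (ℓ + 1) < (s + 1) * (s + 1) := Nat.lt_succ_sqrt _
  have hs3 : s * s * (ℓ + 1) ≤ m := by
    calc s * s * (ℓ + 1) ≤ m / (ℓ + 1) * (ℓ + 1) := Nat.mul_le_mul_right _ hs1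
      _ ≤ m := Nat.div_mul_le_self _ _
  -- (a)
  have ha : l * s ≤ 2 * (r + 1) := by
    by_contra hcon
    push Not at hcon
    have h1 : (2 * (r + 1)) * (2 * (r + 1)) < (l * s) * (l * s) := Nat.mul_self_lt_mul_self hcon
    have h2 : (l * s) * (l * s) ≤ 4 * (m * l) := by
      calc (l * s) * (l * s) = l * (l * (s * s)) := by ring
        _ ≤ l * (4 * (ℓ + 1) * (s * s)) := by gcongr
        _ = 4 * l * (s * s * (ℓ + 1)) := by ring
        _ ≤ 4 * l * m := Nat.mul_le_mul_left _ hs3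
        _ = 4 * (m * l) := by ring
    nlinarith
  -- (b)
  have hb : m / ((ℓ + 1) * (s + 1 + 1)) ≤ s + 1 := by
    rw [← Nat.div_div_eq_div_mul]
    refine Nat.le_of_lt_succ ((Nat.div_lt_iff_lt_mul (by omega)).2 ?_)
    nlinarith
  -- (c)
  have hc : l * 2 ^ ℓ ≤ 16 * (r + 1) := by
    have h1 : l ≤ 4 * 2 ^ ℓ := by
      have : ℓ + 1 ≤ 2 ^ ℓ := Nat.lt_two_pow_self
      omega
    have h2 : 2 ^ ℓ * 2 ^ ℓ ≤ 4 * (r + 1) := by
      by_contra hcon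
      push Not at hcon
      have h3 := Nat.mul_self_lt_mul_self hcon
      have h4 : (2 ^ ℓ * 2 ^ ℓ) * (2 ^ ℓ * 2 ^ ℓ) ≤ 2 * (m + 5) := by
        have h5 : (2 ^ ℓ * 2 ^ ℓ) * (2 ^ ℓ * 2 ^ ℓ) = 2 ^ (4 * ℓ) := by
          rw [← pow_add, ← pow_add]; congr 1; ring
        rw [h5]
        have h6 : 2 ^ (4 * ℓ) ≤ 2 ^ l := Nat.pow_le_pow_right (by norm_num) (by omega)
        have h7 : 2 ^ l = 2 ^ Nat.log 2 (m + 5) * 2 := by rw [hl, lg, pow_succ]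
        have h8 : 2 ^ Nat.log 2 (m + 5) ≤ m + 5 := Nat.pow_log_le_self 2 (by omega)
        omega
      nlinarith
    calc l * 2 ^ ℓ ≤ 4 * 2 ^ ℓ * 2 ^ ℓ := Nat.mul_le_mul_right _ h1
      _ = 4 * (2 ^ ℓ * 2 ^ ℓ) := by ring
      _ ≤ 4 * (4 * (r + 1)) := Nat.mul_le_mul_left _ h2
      _ = 16 * (r + 1) := by ring
  have hd : l ≤ 16 * (r + 1) := by
    have : 1 ≤ 2 ^ ℓ := Nat.one_le_two_pow
    calc l = l * 1 := (Nat.mul_one _).symm
      _ ≤ l * 2 ^ ℓ := Nat.mul_le_mul_left _ this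
      _ ≤ _ := hc
  have he : l * (s + 1 + m / ((ℓ + 1) * (s + 1 + 1)) + 2 ^ ℓ + 1) ≤ 68 * (r + 1) := by
    have h1 : l * (m / ((ℓ + 1) * (s + 1 + 1))) ≤ l * (s + 1) := Nat.mul_le_mul_left _ hb
    have h2 : l * (s + 1 + m / ((ℓ + 1) * (s + 1 + 1)) + 2 ^ ℓ + 1) =
        l * s + l + l * (m / ((ℓ + 1) * (s + 1 + 1))) + l * 2 ^ ℓ + l := by ring
    have h3 : l * (s + 1) = l * s + l := by ring
    omega
  calc (m + 5) ^ (18 * (s + 1 + m / ((ℓ + 1) * (s + 1 + 1)) + 2 ^ ℓ + 1))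
      ≤ (2 ^ l) ^ (18 * (s + 1 + m / ((ℓ + 1) * (s + 1 + 1)) + 2 ^ ℓ + 1)) :=
        Nat.pow_le_pow_left (lt_two_pow_lg m).le _
    _ = 2 ^ (18 * (l * (s + 1 + m / ((ℓ + 1) * (s + 1 + 1)) + 2 ^ ℓ + 1))) := by
        rw [← pow_mul]; congr 1; ring
    _ ≤ _ := Nat.pow_le_pow_right (by norm_num) (by omega)

/-- Correctness with the chosen parameters. -/
theorem alg_iff' {N m : ℕ} {E : Ex} (hE : E.ok) (hm : E.size ≤ m)
    (hN : 2 ^ (1300 * (Nat.sqrt (m * lg m) + 1)) ≤ N) :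
    alg N (spar m) (lpar m) m E.toks = true ↔ E.poly ≠ 0 :=
  alg_iff hE hm (spar_le m) ((clipN_le m).trans hN)

end Pool.Agent.PIT
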