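import Mathlib
import Pool.Agent.Work.MP_3c5c20_lc.Growth
import Pool.Agent.Work.PT.List

/-!
# The algorithm runs in polynomial time (in the clipping parameter)
-/

set_option autoImplicit false

namespace Pool.Agent.PIT

open Pool.Agent.PT Function

/-! ### Sizes -/

section sizes

variable {β : Type} [Enc β]

theorem sz_filter_le (p : β → Bool) (l : List β) : sz (l.filter p) ≤ sz l := by
  induction l with
  | nil => simp
  | cons b l ih =>
    rw [List.filter_cons]
    split_ifs
    · rw [sz_cons, sz_cons]; omega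
    · rw [sz_cons]; omega

theorem sz_tail_le (l : List β) : sz l.tail ≤ sz l := by
  cases l with
  | nil => simp
  | cons b l => rw [sz_cons]; simp; omega

/-- A list whose members have size at most `K`. -/
theorem sz_list_le {l : List β} {K : ℕ} (h : ∀ b ∈ l, sz b ≤ K) :
    sz l ≤ l.length * (K + 1) + 1 := by
  induction l with
  | nil => simp [sz_nil]
  | cons b l ih =>
    have h1 := h b List.mem_cons_self
    have h2 := ih (fun c hc => h c (List.mem_cons_of_mem _ hc))
    rw [sz_cons, List.length_cons, Nat.succ_mul]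
    omega

theorem sz_headD_le (l : List β) (d : β) : sz (l.headD d) ≤ sz l + sz d := by
  cases l with
  | nil => simp
  | cons b l => rw [sz_cons]; simp; omega

end sizes

section

variable {α : Type} [Enc α]

/-! ### Words -/

theorem alph_ptf {q σ : α → ℕ} (hq : PTF q) (hσ : PTF σ) : PTF (fun a => alph (q a) (σ a)) := by
  unfold alph
  refine PTF.flatMap (l := fun a => List.range (σ a + 2)) (g := fun p : α × ℕ =>
    (List.range (q p.1)).flatMap (fun α => (List.range (q p.1)).map (fun β => (p.2, (α, β)))))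
    hσ.succ.succ.range ?_
  refine PTF.flatMap (l := fun p : α × ℕ => List.range (q p.1))
    (g := fun r : (α × ℕ) × ℕ => (List.range (q r.1.1)).map (fun β => (r.1.2, (r.2, β))))
    (hq.comp PTF.fst).range ?_
  exact PTF.map (l := fun r : (α × ℕ) × ℕ => List.range (q r.1.1))
    (g := fun u : ((α × ℕ) × ℕ) × ℕ => (u.1.1.2, (u.1.2, u.2)))
    (hq.comp (PTF.fst.comp PTF.fst)).range
    ((PTF.snd.comp (PTF.fst.comp PTF.fst)).pair ((PTF.snd.comp PTF.fst).pair PTF.snd))

theorem wstep_ptf {q : α → ℕ} {x st : α → List ℕ} {s : α → Sym} (hq : PTF q) (hx : PTF x)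
    (hst : PTF st) (hs : PTF s) : PTF (fun a => wstep (q a) (x a) (st a) (s a)) := by
  unfold wstep
  have h1 : PTF (fun a => (s a).1) := PTF.fst.comp hs
  have h2 : PTF (fun a => (s a).2.1) := PTF.fst.comp (PTF.snd.comp hs)
  have h3 : PTF (fun a => (s a).2.2) := PTF.snd.comp (PTF.snd.comp hs)
  have hd : PTF (fun a => (st a).headD 0) := hst.headD (PTF.const 0)
  have htd : PTF (fun a => (st a).tail.headD 0) := hst.tail.headD (PTF.const 0)
  have htt : PTF (fun a => (st a).tail.tail) := hst.tail.tail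
  have hte : PTF (fun a => decide ((st a).tail = [])) := hst.tail.eq (PTF.const [])
  refine PTF.ite (h1.eq (PTF.const 0)) (PTF.ite hte hst ?_) (PTF.ite (h1.eq (PTF.const 1))
    (PTF.ite hte hst ?_) ?_)
  · exact (((h2.mul (htd.add hd)).add h3).mod hq).cons htt
  · exact (((h2.mul (htd.mul hd)).add h3).mod hq).cons htt
  · exact (((h2.mul (hx.getD (h1.sub (PTF.const 2)) (PTF.const 0))).add h3).mod hq).cons hst

theorem sz_wstep_le (q : ℕ) (x st : List ℕ) (s : Sym) :
    sz (wstep (q + 1) x st s) ≤ sz st + (2 * q + 4) := by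
  have hm : ∀ n : ℕ, sz (n % (q + 1)) ≤ 2 * q + 1 := by
    intro n
    rw [sz_nat]
    have : n % (q + 1) < q + 1 := Nat.mod_lt n (Nat.succ_pos q)
    omega
  have ht := sz_tail_le st
  have htt := sz_tail_le st.tail
  unfold wstep
  split_ifs
  · omega
  · rw [sz_cons]
    have := hm (s.2.1 * (st.tail.headD 0 + st.headD 0) + s.2.2)
    omega
  · omega
  · rw [sz_cons]
    have := hm (s.2.1 * (st.tail.headD 0 * st.headD 0) + s.2.2)
    omega
  · rw [sz_cons]
    have := hm (s.2.1 * x.getD (s.1 - 2) 0 + s.2.2)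
    omega

theorem wval_ptf {q : α → ℕ} {x : α → List ℕ} {w : α → List Sym} (hq : PTF q) (hx : PTF x)
    (hw : PTF w) : PTF (fun a => wval (q a + 1) (x a) (w a)) := by
  unfold wval
  refine PTF.headD ?_ (PTF.const 0)
  exact PTF.foldl_add (l := w) (init := fun _ => ([] : List ℕ))
    (step := fun p : α × (List ℕ × Sym) => wstep (q p.1 + 1) (x p.1) p.2.1 p.2.2) hw (PTF.const [])
    (wstep_ptf (hq.comp PTF.fst).succ (hx.comp PTF.fst) (PTF.fst.comp PTF.snd)
      (PTF.snd.comp PTF.snd)) (fun a => 2 * q a + 4)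
    (((hq.size.add (PB.const 4)).mono (fun a => by rw [sz_nat]; omega)))
    (fun a s b _ => sz_wstep_le (q a) (x a) s b)

theorem allW_ptf {N L : α → ℕ} {A : α → List Sym} (hN : PTF N) (hA : PTF A) (hL : PTF L) :
    PTF (fun a => allW (N a) (A a) (L a)) := by
  unfold allW
  refine PTF.nat_iterate (n := L) (init := fun _ => ([[]] : List (List Sym)))
    (step := fun p : α × List (List Sym) =>
      ([] :: (A p.1).flatMap (fun s => p.2.map (fun w => s :: w))).take (N p.1)) hL (PTF.const _)
    (((PTF.const []).cons ?_).take (hN.comp PTF.fst))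
    (fun a => (sz (N a) + 1) * (sz (L a) * (sz (A a) + 1) + 2) + 1)
    (((hN.size.add (PB.const 1)).mul ((hL.size.mul (hA.size.add (PB.const 1))).add
      (PB.const 2))).add (PB.const 1)) (fun a i hi => ?_)
  · refine PTF.flatMap (l := fun p : α × List (List Sym) => A p.1)
      (g := fun r : (α × List (List Sym)) × Sym => r.1.2.map (fun w => r.2 :: w))
      (hA.comp PTF.fst) ?_
    exact PTF.map (l := fun r : (α × List (List Sym)) × Sym => r.1.2)
      (g := fun u : ((α × List (List Sym)) × Sym) × List Sym => u.1.2 :: u.2)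
      (PTF.snd.comp PTF.fst) ((PTF.snd.comp PTF.fst).cons PTF.snd)
  · have key : ∀ i, ((fun s => (([] : List Sym) :: (A a).flatMap (fun t => s.map (fun w => t :: w))).take
        (N a))^[i] [[]]).length ≤ N a + 1 ∧
        ∀ w ∈ ((fun s => (([] : List Sym) :: (A a).flatMap (fun t => s.map (fun w => t :: w))).take
        (N a))^[i] [[]]), sz w ≤ i * (sz (A a) + 1) + 1 := by
      intro i
      induction i with
      | zero => simp [sz_nil]
      | succ i ih =>
        rw [iterate_succ_apply']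
        generalize ((fun s => (([] : List Sym) :: (A a).flatMap
          (fun t => s.map (fun w => t :: w))).take (N a))^[i] [[]]) = W at ih
        constructor
        · rw [List.length_take]; omega
        · intro w hw
          have hw' := List.mem_of_mem_take hw
          rcases List.mem_cons.1 hw' with rfl | hw'
          · rw [sz_nil]; omega
          · obtain ⟨t, ht, h2⟩ := List.mem_flatMap.1 hw'
            obtain ⟨w', hw3, rfl⟩ := List.mem_map.1 h2
            have h3 := ih.2 w' hw3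
            have h4 := sz_le_of_mem ht
            rw [sz_cons, Nat.succ_mul]
            omega
    obtain ⟨k1, k2⟩ := key i
    refine (sz_list_le k2).trans ?_
    have h1 : N a + 1 ≤ sz (N a) + 1 := by rw [sz_nat]; omega
    have h2 : i ≤ sz (L a) := by rw [sz_nat]; omega
    have h3 : i * (sz (A a) + 1) ≤ sz (L a) * (sz (A a) + 1) := Nat.mul_le_mul_right _ h2
    exact Nat.add_le_add_right (Nat.mul_le_mul (k1.trans h1) (by omega)) _

theorem cpts_ptf {N q n : α → ℕ} (hN : PTF N) (hq : PTF q) (hn : PTF n) :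
    PTF (fun a => cpts (N a) (q a) (n a)) := by
  unfold cpts
  refine PTF.nat_iterate (n := n) (init := fun _ => ([[]] : List (List ℕ)))
    (step := fun p : α × List (List ℕ) =>
      (p.2.flatMap (fun l => (List.range (q p.1)).map (fun v => v :: l))).take (N p.1)) hn
    (PTF.const _) (PTF.take ?_ (hN.comp PTF.fst))
    (fun a => (sz (N a) + 1) * (sz (n a) * (sz (q a) + 1) + 2) + 1)
    (((hN.size.add (PB.const 1)).mul ((hn.size.mul (hq.size.add (PB.const 1))).add
      (PB.const 2))).add (PB.const 1)) (fun a i hi => ?_)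
  · refine PTF.flatMap (l := fun p : α × List (List ℕ) => p.2)
      (g := fun r : (α × List (List ℕ)) × List ℕ => (List.range (q r.1.1)).map (fun v => v :: r.2))
      PTF.snd ?_
    exact PTF.map (l := fun r : (α × List (List ℕ)) × List ℕ => List.range (q r.1.1))
      (g := fun u : ((α × List (List ℕ)) × List ℕ) × ℕ => u.2 :: u.1.2)
      (hq.comp (PTF.fst.comp PTF.fst)).range (PTF.snd.cons (PTF.snd.comp PTF.fst))
  · have key : ∀ i, ((fun s : List (List ℕ) => (s.flatMap (fun l =>
        (List.range (q a)).map (fun v => v :: l))).take (N a))^[i] [[]]).length ≤ N a + 1 ∧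
        ∀ w ∈ ((fun s : List (List ℕ) => (s.flatMap (fun l =>
        (List.range (q a)).map (fun v => v :: l))).take (N a))^[i] [[]]),
          sz w ≤ i * (sz (q a) + 1) + 1 := by
      intro i
      induction i with
      | zero => simp [sz_nil]
      | succ i ih =>
        rw [iterate_succ_apply']
        generalize ((fun s : List (List ℕ) => (s.flatMap (fun l =>
          (List.range (q a)).map (fun v => v :: l))).take (N a))^[i] [[]]) = W at ih
        constructor
        · rw [List.length_take]; omega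
        · intro w hw
          have hw' := List.mem_of_mem_take hw
          obtain ⟨t, ht, h2⟩ := List.mem_flatMap.1 hw'
          obtain ⟨v, hv, rfl⟩ := List.mem_map.1 h2
          have h3 := ih.2 t ht
          rw [List.mem_range] at hv
          rw [sz_cons, Nat.succ_mul, sz_nat, sz_nat]
          rw [sz_nat] at h3
          omega
    obtain ⟨k1, k2⟩ := key i
    refine (sz_list_le k2).trans ?_
    have h1 : N a + 1 ≤ sz (N a) + 1 := by rw [sz_nat]; omega
    have h2 : i ≤ sz (n a) := by rw [sz_nat]; omega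
    have h3 : i * (sz (q a) + 1) ≤ sz (n a) * (sz (q a) + 1) := Nat.mul_le_mul_right _ h2
    exact Nat.add_le_add_right (Nat.mul_le_mul (k1.trans h1) (by omega)) _

theorem relW_ptf {N q σ L : α → ℕ} (hN : PTF N) (hq : PTF q) (hσ : PTF σ) (hL : PTF L) :
    PTF (fun a => relW (N a) (q a + 1) (σ a) (L a)) := by
  unfold relW
  have h1 : PTF (fun a => allW (N a) (alph (q a + 1) (σ a)) (L a)) :=
    allW_ptf hN (alph_ptf hq.succ hσ) hL
  have h2 : PTF (fun a => cpts (N a) (q a + 1) (σ a)) := cpts_ptf hN hq.succ hσ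
  refine PTF.filter (p := fun r : α × List Sym => (cpts (N r.1) (q r.1 + 1) (σ r.1)).any
    (fun x => !decide (wval (q r.1 + 1) x r.2 = 0))) h1 ?_
  refine PTF.any (l := fun r : α × List Sym => cpts (N r.1) (q r.1 + 1) (σ r.1))
    (p := fun u : (α × List Sym) × List ℕ => !decide (wval (q u.1.1 + 1) u.2 u.1.2 = 0))
    (h2.comp PTF.fst) ?_
  exact ((wval_ptf (hq.comp (PTF.fst.comp PTF.fst)) PTF.snd (PTF.snd.comp PTF.fst)).eq
    (PTF.const 0)).not

/-! ### Greedy -/

theorem score_ptf {q : α → ℕ} {R : α → List (List Sym)} {x : α → List ℕ} (hq : PTF q) (hR : PTF R)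
    (hx : PTF x) : PTF (fun a => score (q a + 1) (R a) (x a)) := by
  unfold score
  refine PTF.length (PTF.filter (p := fun r : α × List Sym =>
    !decide (wval (q r.1 + 1) (x r.1) r.2 = 0)) hR ?_)
  exact ((wval_ptf (hq.comp PTF.fst) (hx.comp PTF.fst) PTF.snd).eq (PTF.const 0)).not

theorem pickPt_ptf {q : α → ℕ} {P : α → List (List ℕ)} {R : α → List (List Sym)} (hq : PTF q)
    (hP : PTF P) (hR : PTF R) : PTF (fun a => pickPt (q a + 1) (P a) (R a)) := by
  unfold pickPt
  refine PTF.headD (PTF.filter (p := fun r : α × List ℕ =>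
    decide ((R r.1).length ≤ 2 * score (q r.1 + 1) (R r.1) r.2)) hP ?_) (PTF.const [])
  exact ((hR.comp PTF.fst).length).le ((PTF.const 2).mul
    (score_ptf (hq.comp PTF.fst) (hR.comp PTF.fst) PTF.snd))

theorem sz_pickPt_le (q : ℕ) (P : List (List ℕ)) (R : List (List Sym)) :
    sz (pickPt q P R) ≤ sz P := by
  unfold pickPt
  refine le_trans ?_ (sz_filter_le (fun x => decide (R.length ≤ 2 * score q R x)) P)
  cases P.filter (fun x => decide (R.length ≤ 2 * score q R x)) with
  | nil => simp [sz_nil]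
  | cons b l => rw [sz_cons]; simp; omega

theorem greedy_ptf {q T : α → ℕ} {P : α → List (List ℕ)} {R : α → List (List Sym)} (hq : PTF q)
    (hP : PTF P) (hR : PTF R) (hT : PTF T) :
    PTF (fun a => greedy (q a + 1) (P a) (R a) (T a)) := by
  unfold greedy
  refine PTF.snd.comp (PTF.nat_iterate_add (n := T)
    (init := fun a => (R a, ([] : List (List ℕ))))
    (step := fun p : α × (List (List Sym) × List (List ℕ)) => gstep (q p.1 + 1) (P p.1) p.2) hT
    (hR.pair (PTF.const [])) ?_ (fun a => sz (P a) + 1) (hP.size.add (PB.const 1))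
    (fun a s => ?_))
  · unfold gstep
    have hpick : PTF (fun p : α × (List (List Sym) × List (List ℕ)) =>
        pickPt (q p.1 + 1) (P p.1) p.2.1) :=
      pickPt_ptf (hq.comp PTF.fst) (hP.comp PTF.fst) (PTF.fst.comp PTF.snd)
    refine PTF.pair (PTF.filter (l := fun p : α × (List (List Sym) × List (List ℕ)) => p.2.1)
      (p := fun r : (α × (List (List Sym) × List (List ℕ))) × List Sym =>
        decide (wval (q r.1.1 + 1) (pickPt (q r.1.1 + 1) (P r.1.1) r.1.2.1) r.2 = 0))
      (PTF.fst.comp PTF.snd) ?_) (hpick.cons (PTF.snd.comp PTF.snd))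
    exact (wval_ptf (hq.comp (PTF.fst.comp PTF.fst)) (hpick.comp PTF.fst) PTF.snd).eq
      (PTF.const 0)
  · obtain ⟨s1, s2⟩ := s
    show sz (gstep (q a + 1) (P a) (s1, s2)) ≤ _
    unfold gstep
    rw [sz_pair, sz_pair, sz_cons]
    have h1 := sz_filter_le (fun w => decide (wval (q a + 1) (pickPt (q a + 1) (P a) s1) w = 0)) s1
    have h2 := sz_pickPt_le (q a + 1) (P a) s1
    dsimp only
    omega

theorem hset_ptf {N q σ L T : α → ℕ} (hN : PTF N) (hq : PTF q) (hσ : PTF σ) (hL : PTF L)
    (hT : PTF T) : PTF (fun a => hset (N a) (q a + 1) (σ a) (L a) (T a)) :=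
  greedy_ptf hq (cpts_ptf hN hq.succ hσ) (relW_ptf hN hq hσ hL) hT

/-! ### Evaluation -/

theorem look_ptf {env : α → Env} {v : α → Name} (he : PTF env) (hv : PTF v) :
    PTF (fun a => look (env a) (v a)) := by
  unfold look
  refine PTF.snd.comp (PTF.headD (PTF.filter (p := fun r : α × (Name × ℕ) =>
    decide (r.2.1 = v r.1)) he ?_) (PTF.const ([], 0)))
  exact (PTF.fst.comp PTF.snd).eq (hv.comp PTF.fst)

theorem nmod_ptf {q : α → ℕ} {l : α → List Bool} (hq : PTF q) (hl : PTF l) :
    PTF (fun a => nmod (q a + 1) (l a)) := by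
  unfold nmod
  refine PTF.foldl_add (l := l) (init := fun _ => 0)
    (step := fun p : α × (ℕ × Bool) => (2 * p.2.1 + (if p.2.2 then 1 else 0)) % (q p.1 + 1)) hl
    (PTF.const 0) ?_ (fun a => 2 * q a + 4)
    (((hq.size.add (PB.const 4)).mono (fun a => by rw [sz_nat]; omega))) (fun a s b _ => ?_)
  · exact (((PTF.const 2).mul (PTF.fst.comp PTF.snd)).add
      ((PTF.snd.comp PTF.snd).cond (PTF.const 1) (PTF.const 0))).mod (hq.comp PTF.fst).succ
  · show sz ((2 * s + (if b then 1 else 0)) % (q a + 1)) ≤ _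
    rw [sz_nat]
    have : (2 * s + (if b then 1 else 0)) % (q a + 1) < q a + 1 :=
      Nat.mod_lt _ (Nat.succ_pos (q a))
    omega

theorem nmod_lt (q : ℕ) (l : List Bool) : nmod (q + 1) l < q + 1 := by
  rw [nmod_eq]
  exact Nat.mod_lt _ (Nat.succ_pos q)

theorem estep_ptf {q : α → ℕ} {env : α → Env} {st : α → List (ℕ × ℕ)} {t : α → Tok}
    (hq : PTF q) (he : PTF env) (hst : PTF st) (ht : PTF t) :
    PTF (fun a => estep (q a + 1) (env a) (st a) (t a)) := by
  unfold estep
  have hq1 : PTF (fun a => q a + 1) := hq.succ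
  have hd : PTF (fun a => (st a).headD (0, 0)) := hst.headD (PTF.const (0, 0))
  have htd : PTF (fun a => (st a).tail.headD (0, 0)) := hst.tail.headD (PTF.const (0, 0))
  have d1 := PTF.fst.comp hd
  have d2 := PTF.snd.comp hd
  have e1 := PTF.fst.comp htd
  have e2 := PTF.snd.comp htd
  have htt : PTF (fun a => (st a).tail.tail) := hst.tail.tail
  have h1 : PTF (fun a => (t a).1) := PTF.fst.comp ht
  have h2 : PTF (fun a => (t a).2.1) := PTF.fst.comp (PTF.snd.comp ht)
  have h3 : PTF (fun a => (t a).2.2) := PTF.snd.comp (PTF.snd.comp ht)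
  refine PTF.ite (h1.eq (PTF.const 0)) ?_ (PTF.ite (h1.eq (PTF.const 1)) ?_
    (PTF.ite (h1.eq (PTF.const 2)) ?_ (PTF.ite (h1.eq (PTF.const 3)) ?_
    (PTF.ite (h1.eq (PTF.const 4)) ?_ ?_))))
  · exact ((((e1.mul d2).add (d1.mul e2)).mod hq1).pair ((e2.mul d2).mod hq1)).cons htt
  · exact ((((e1.mul d2).add (hq1.sub ((d1.mul e2).mod hq1))).mod hq1).pair
      ((e2.mul d2).mod hq1)).cons htt
  · exact (((e1.mul d1).mod hq1).pair ((e2.mul d2).mod hq1)).cons htt
  · exact (((look_ptf he h2).mod hq1).pair ((PTF.const 1).mod hq1)).cons hst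
  · exact ((nmod_ptf hq h2).pair (nmod_ptf hq h3)).cons hst
  · exact (((hq1.sub (nmod_ptf hq h2)).mod hq1).pair (nmod_ptf hq h3)).cons hst

theorem sz_estep_le (q : ℕ) (env : Env) (st : List (ℕ × ℕ)) (t : Tok) :
    sz (estep (q + 1) env st t) ≤ sz st + (4 * q + 8) := by
  have hm : ∀ n : ℕ, sz (n % (q + 1)) ≤ 2 * q + 1 := by
    intro n
    rw [sz_nat]
    have : n % (q + 1) < q + 1 := Nat.mod_lt n (Nat.succ_pos q)
    omega
  have hn : ∀ l : List Bool, sz (nmod (q + 1) l) ≤ 2 * q + 1 := by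
    intro l
    rw [sz_nat]
    have := nmod_lt q l
    omega
  have ht := sz_tail_le st
  have htt := sz_tail_le st.tail
  have key : ∀ (a b : ℕ) (s : List (ℕ × ℕ)), sz a ≤ 2 * q + 1 → sz b ≤ 2 * q + 1 →
      sz s ≤ sz st → sz ((a, b) :: s) ≤ sz st + (4 * q + 8) := by
    intro a b s h1 h2 h3
    rw [sz_cons, sz_pair]
    omega
  unfold estep
  split_ifs
  · exact key _ _ _ (hm _) (hm _) (htt.trans ht)
  · exact key _ _ _ (hm _) (hm _) (htt.trans ht)
  · exact key _ _ _ (hm _) (hm _) (htt.trans ht)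
  · exact key _ _ _ (hm _) (hm _) (le_refl _)
  · exact key _ _ _ (hn _) (hn _) (le_refl _)
  · exact key _ _ _ (hm _) (hn _) (le_refl _)

theorem evalT_ptf {q : α → ℕ} {env : α → Env} {toks : α → List Tok} (hq : PTF q) (he : PTF env)
    (ht : PTF toks) : PTF (fun a => evalT (q a + 1) (env a) (toks a)) := by
  unfold evalT
  refine PTF.fst.comp (PTF.headD ?_ (PTF.const (0, 0)))
  exact PTF.foldl_add (l := toks) (init := fun _ => ([] : List (ℕ × ℕ)))
    (step := fun p : α × (List (ℕ × ℕ) × Tok) => estep (q p.1 + 1) (env p.1) p.2.1 p.2.2) ht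
    (PTF.const []) (estep_ptf (hq.comp PTF.fst) (he.comp PTF.fst) (PTF.fst.comp PTF.snd)
      (PTF.snd.comp PTF.snd)) (fun a => 4 * q a + 8)
    ((((PB.const 2).mul hq.size).add (PB.const 8)).mono (fun a => by rw [sz_nat]; omega))
    (fun a s b _ => sz_estep_le (q a) (env a) s b)

/-! ### Variables -/

theorem namesT_ptf {toks : α → List Tok} (ht : PTF toks) : PTF (fun a => namesT (toks a)) := by
  unfold namesT
  refine PTF.filterMap (g := fun p : α × Tok => if p.2.1 = 3 then some p.2.2.1 else none) ht ?_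
  exact PTF.ite ((PTF.fst.comp PTF.snd).eq (PTF.const 3))
    (PTF.fst.comp (PTF.snd.comp PTF.snd)).some (PTF.const none)

theorem dedupN_ptf {l : α → List Name} (hl : PTF l) : PTF (fun a => dedupN (l a)) := by
  unfold dedupN
  refine PTF.foldl_add (l := l) (init := fun _ => ([] : List Name))
    (step := fun p : α × (List Name × Name) => if p.2.2 ∈ p.2.1 then p.2.1 else p.2.2 :: p.2.1) hl
    (PTF.const []) ?_ (fun a => sz (l a) + 1) (hl.size.add (PB.const 1)) (fun a s b hb => ?_)
  · exact PTF.ite ((PTF.mem (PTF.snd.comp PTF.snd) (PTF.fst.comp PTF.snd)).congr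
      (fun a => by congr)) (PTF.fst.comp PTF.snd) ((PTF.snd.comp PTF.snd).cons (PTF.fst.comp PTF.snd))
  · show sz (if b ∈ s then s else b :: s) ≤ _
    have := sz_le_of_mem hb
    split_ifs
    · omega
    · rw [sz_cons]; omega

theorem varsT_ptf {toks : α → List Tok} (ht : PTF toks) : PTF (fun a => varsT (toks a)) := by
  unfold varsT
  have h := namesT_ptf ht
  refine PTF.map (g := fun p : α × Name => (p.2, (namesT (toks p.1)).count p.2)) (dedupN_ptf h) ?_
  refine PTF.snd.pair ((PTF.count PTF.snd (h.comp PTF.fst)).congr (fun a => ?_))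
  congr 1
  exact lawful_beq_subsingleton _ _

/-! ### Enumeration -/

theorem vstep_ptf {N σ ℓ q : α → ℕ} {H : α → List (List ℕ)} {s : α → ℕ × List St}
    {vc : α → Name × ℕ} (hN : PTF N) (hσ : PTF σ) (hℓ : PTF ℓ) (hq : PTF q) (hH : PTF H)
    (hs : PTF s) (hvc : PTF vc) :
    PTF (fun a => vstep (N a) (σ a) (ℓ a) (q a) (H a) (s a) (vc a)) := by
  unfold vstep
  have hs1 : PTF (fun a => (s a).1) := PTF.fst.comp hs
  have hs2 : PTF (fun a => (s a).2) := PTF.snd.comp hs
  have hv1 : PTF (fun a => (vc a).1) := PTF.fst.comp hvc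
  have hv2 : PTF (fun a => (vc a).2) := PTF.snd.comp hvc
  have hc : PTF (fun a => decide ((vc a).2 ≤ (s a).1 ∧ ℓ a ≤ (vc a).1.length)) :=
    ((hv2.le hs1).and (hℓ.le hv1.length)).congr (fun a => by rw [Bool.decide_and])
  refine PTF.ite hc (PTF.pair (hs1.sub hv2) ?_) (PTF.pair hσ (PTF.take ?_ hN))
  · refine PTF.map (g := fun p : α × St => (p.2.1.tail, ((vc p.1).1, p.2.1.headD 0) :: p.2.2))
      hs2 ?_
    exact (PTF.fst.comp PTF.snd).tail.pair (((hv1.comp PTF.fst).pair
      ((PTF.fst.comp PTF.snd).headD (PTF.const 0))).cons (PTF.snd.comp PTF.snd))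
  · refine PTF.flatMap (g := fun p : α × St => (List.range (q p.1)).flatMap (fun c =>
      (H p.1).map (fun h => (h, ((vc p.1).1, c) :: p.2.2)))) hs2 ?_
    refine PTF.flatMap (l := fun p : α × St => List.range (q p.1))
      (g := fun r : (α × St) × ℕ => (H r.1.1).map (fun h => (h, ((vc r.1.1).1, r.2) :: r.1.2.2)))
      (hq.comp PTF.fst).range ?_
    refine PTF.map (l := fun r : (α × St) × ℕ => H r.1.1)
      (g := fun u : ((α × St) × ℕ) × List ℕ => (u.2, ((vc u.1.1.1).1, u.1.2) :: u.1.1.2.2))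
      (hH.comp (PTF.fst.comp PTF.fst)) ?_
    exact PTF.snd.pair (((hv1.comp (PTF.fst.comp (PTF.fst.comp PTF.fst))).pair
      (PTF.snd.comp PTF.fst)).cons (PTF.snd.comp (PTF.snd.comp (PTF.fst.comp PTF.fst))))

theorem vfold_size (N σ ℓ q : ℕ) (H : List (List ℕ)) (K : ℕ) (hH : sz H ≤ K) (hq : 2 * q + 1 ≤ K)
    (l : List (Name × ℕ)) (hl : ∀ vc ∈ l, sz vc.1 ≤ K) :
    ∀ (r : ℕ) (S : List St) (M E : ℕ), r ≤ M → σ ≤ M → S.length ≤ H.length + N →
    (∀ p ∈ S, sz p ≤ E) →
    (l.foldl (vstep N σ ℓ q H) (r, S)).1 ≤ M ∧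
    (l.foldl (vstep N σ ℓ q H) (r, S)).2.length ≤ H.length + N ∧
    ∀ p ∈ (l.foldl (vstep N σ ℓ q H) (r, S)).2, sz p ≤ E + l.length * (3 * K + 5) := by
  induction l with
  | nil =>
    intro r S M E h1 h2 h3 h4
    exact ⟨h1, h3, by simpa using h4⟩
  | cons vc l ih =>
    intro r S M E h1 h2 h3 h4
    have hvc := hl vc List.mem_cons_self
    have ih' := ih (fun vc h => hl vc (List.mem_cons_of_mem _ h))
    rw [List.foldl_cons]
    by_cases h : vc.2 ≤ r ∧ ℓ ≤ vc.1.length
    · have hstep : vstep N σ ℓ q H (r, S) vc =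
          (r - vc.2, S.map (fun p => (p.1.tail, (vc.1, p.1.headD 0) :: p.2))) := by
        unfold vstep; rw [if_pos h]
      rw [hstep]
      have := ih' (r - vc.2) (S.map (fun p => (p.1.tail, (vc.1, p.1.headD 0) :: p.2))) M
        (E + (3 * K + 5)) (by omega) h2 (by rw [List.length_map]; exact h3) ?_
      · refine ⟨this.1, this.2.1, fun p hp => (this.2.2 p hp).trans ?_⟩
        rw [List.length_cons, Nat.add_mul, Nat.one_mul]; omega
      · intro p hp
        obtain ⟨p', hp', rfl⟩ := List.mem_map.1 hp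
        have h5 := h4 p' hp'
        obtain ⟨x, env⟩ := p'
        rw [sz_pair] at h5
        rw [sz_pair, sz_cons, sz_pair]
        dsimp only
        cases x with
        | nil =>
          rw [List.tail_nil, List.headD_nil, sz_nil, sz_nat]
          rw [sz_nil] at h5
          omega
        | cons y x =>
          rw [List.tail_cons, List.headD_cons]
          rw [sz_cons] at h5
          omega
    · have hstep : vstep N σ ℓ q H (r, S) vc =
          (σ, (S.flatMap (fun p => (List.range q).flatMap (fun c =>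
      H.map (fun h => (h, (vc.1, c) :: p.2))))).take N) := by
        unfold vstep; rw [if_neg h]
      rw [hstep]
      have := ih' σ ((S.flatMap (fun p => (List.range q).flatMap (fun c =>
        H.map (fun h => (h, (vc.1, c) :: p.2))))).take N) M
        (E + (3 * K + 5)) h2 h2 (by rw [List.length_take]; omega) ?_
      · refine ⟨this.1, this.2.1, fun p hp => (this.2.2 p hp).trans ?_⟩
        rw [List.length_cons, Nat.add_mul, Nat.one_mul]; omega
      · intro p hp
        obtain ⟨p', hp', h6⟩ := List.mem_flatMap.1 (List.mem_of_mem_take hp)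
        obtain ⟨c, hc, h7⟩ := List.mem_flatMap.1 h6
        obtain ⟨h8, h9, rfl⟩ := List.mem_map.1 h7
        have h5 := h4 p' hp'
        obtain ⟨x, env⟩ := p'
        rw [sz_pair] at h5
        rw [sz_pair, sz_cons, sz_pair, sz_nat]
        rw [List.mem_range] at hc
        have h10 := sz_le_of_mem h9
        dsimp only
        omega

theorem enum_ptf {N σ ℓ q : α → ℕ} {H : α → List (List ℕ)} {vs : α → List (Name × ℕ)}
    (hN : PTF N) (hσ : PTF σ) (hℓ : PTF ℓ) (hq : PTF q) (hH : PTF H) (hvs : PTF vs) :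
    PTF (fun a => enum (N a) (σ a) (ℓ a) (q a) (H a) (vs a)) := by
  unfold enum
  refine PTF.snd.comp (PTF.foldl (l := vs)
    (init := fun a => (σ a, (H a).map (fun h => (h, ([] : Env)))))
    (step := fun p : α × ((ℕ × List St) × (Name × ℕ)) =>
      vstep (N p.1) (σ p.1) (ℓ p.1) (q p.1) (H p.1) p.2.1 p.2.2) hvs
    (hσ.pair (PTF.map (g := fun p : α × List ℕ => (p.2, ([] : Env))) hH
      (PTF.snd.pair (PTF.const []))))
    (vstep_ptf (hN.comp PTF.fst) (hσ.comp PTF.fst) (hℓ.comp PTF.fst) (hq.comp PTF.fst)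
      (hH.comp PTF.fst) (PTF.fst.comp PTF.snd) (PTF.snd.comp PTF.snd))
    (fun a => sz (σ a) + ((sz (H a) + sz (N a)) * (sz (H a) + 2 + sz (vs a) *
      (3 * (sz (H a) + sz (q a) + sz (vs a)) + 5) + 1) + 1) + 1) ?_ ?_)
  · exact (hσ.size.add (((hH.size.add hN.size).mul (((hH.size.add (PB.const 2)).add
      (hvs.size.mul (((PB.const 3).mul ((hH.size.add hq.size).add hvs.size)).add
        (PB.const 5)))).add (PB.const 1))).add (PB.const 1))).add (PB.const 1)
  · intro a l1 l2 h
    have h0 : ∀ vc ∈ l1, sz vc.1 ≤ sz (H a) + sz (q a) + sz (vs a) := by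
      intro vc hvc
      have h1 : vc ∈ vs a := by rw [h]; exact List.mem_append_left _ hvc
      have h2 := sz_le_of_mem h1
      have h3 : sz vc = sz vc.1 + sz vc.2 + 1 := sz_pair _ _
      omega
    have hS0 : ∀ p ∈ (H a).map (fun h => (h, ([] : Env))), sz p ≤ sz (H a) + 2 := by
      intro p hp
      obtain ⟨x, hx, rfl⟩ := List.mem_map.1 hp
      have := sz_le_of_mem hx
      rw [sz_pair, sz_nil]
      omega
    obtain ⟨k1, k2, k3⟩ := vfold_size (N a) (σ a) (ℓ a) (q a) (H a)
      (sz (H a) + sz (q a) + sz (vs a)) (by omega) (by rw [sz_nat]; omega) l1 h0 (σ a)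
      ((H a).map (fun h => (h, ([] : Env)))) (σ a) (sz (H a) + 2) (le_refl _) (le_refl _)
      (by rw [List.length_map]; omega) hS0
    show sz (l1.foldl (vstep (N a) (σ a) (ℓ a) (q a) (H a))
      (σ a, (H a).map (fun h => (h, ([] : Env))))) ≤ _
    generalize l1.foldl (vstep (N a) (σ a) (ℓ a) (q a) (H a))
      (σ a, (H a).map (fun h => (h, ([] : Env)))) = s at k1 k2 k3 ⊢
    obtain ⟨s1, s2⟩ := s
    dsimp only at k1 k2 k3
    have h4 := sz_list_le k3
    have h5 : l1.length ≤ sz (vs a) := by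
      refine le_trans ?_ (length_le_sz (vs a))
      rw [h, List.length_append]; omega
    have h6 : s2.length ≤ sz (H a) + sz (N a) := by
      have h7 := length_le_sz (H a)
      have h8 : N a ≤ sz (N a) := by rw [sz_nat]; omega
      omega
    have h9 : l1.length * (3 * (sz (H a) + sz (q a) + sz (vs a)) + 5) ≤
        sz (vs a) * (3 * (sz (H a) + sz (q a) + sz (vs a)) + 5) := Nat.mul_le_mul_right _ h5
    have h10 : s2.length * (sz (H a) + 2 + l1.length *
        (3 * (sz (H a) + sz (q a) + sz (vs a)) + 5) + 1) ≤ (sz (H a) + sz (N a)) *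
        (sz (H a) + 2 + sz (vs a) * (3 * (sz (H a) + sz (q a) + sz (vs a)) + 5) + 1) :=
      Nat.mul_le_mul h6 (by omega)
    have h11 : sz s1 ≤ sz (σ a) := by rw [sz_nat, sz_nat]; omega
    rw [sz_pair]
    omega

/-! ### The algorithm -/

theorem hsize_ptf {σ q : α → ℕ} (hσ : PTF σ) (hq : PTF q) : PTF (fun a => hsize (σ a) (q a)) := by
  unfold hsize
  exact (((hσ.succ.succ.mul (hq.mul hq)).succ).mul ((PTF.const 2).mul hσ)).succ

theorem solveQ_ptf {N σ ℓ q : α → ℕ} {toks : α → List Tok} (hN : PTF N) (hσ : PTF σ)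
    (hℓ : PTF ℓ) (hq : PTF q) (ht : PTF toks) :
    PTF (fun a => solveQ (N a) (σ a) (ℓ a) (q a + 1) (toks a)) := by
  unfold solveQ
  refine PTF.any (l := fun a => enum (N a) (σ a) (ℓ a) (q a + 1)
    (hset (N a) (q a + 1) (σ a) (2 * σ a) (hsize (σ a) (q a + 1))) (varsT (toks a)))
    (p := fun r : α × St => !decide (evalT (q r.1 + 1) r.2.2 (toks r.1) = 0)) ?_ ?_
  · exact enum_ptf hN hσ hℓ hq.succ
      (hset_ptf hN hq hσ ((PTF.const 2).mul hσ) (hsize_ptf hσ hq.succ)) (varsT_ptf ht)
  · exact ((evalT_ptf (hq.comp PTF.fst) (PTF.snd.comp PTF.snd) (ht.comp PTF.fst)).eq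
      (PTF.const 0)).not

/-- **The algorithm runs in time polynomial in the sizes of the (unary) parameters and the
input.** -/
theorem alg_ptf {N σ ℓ m : α → ℕ} {toks : α → List Tok} (hN : PTF N) (hσ : PTF σ) (hℓ : PTF ℓ)
    (hm : PTF m) (ht : PTF toks) : PTF (fun a => alg (N a) (σ a) (ℓ a) (m a) (toks a)) := by
  unfold alg
  refine PTF.any (l := fun a => List.range ((m a + 5) ^ 4))
    (p := fun r : α × ℕ => solveQ (N r.1) (σ r.1) (ℓ r.1) (r.2 + 1) (toks r.1)) ?_ ?_
  · have h : PTF (fun a => m a + 5) := hm.succ.succ.succ.succ.succ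
    refine PTF.range (((h.mul h).mul (h.mul h)).congr (fun a => ?_))
    ring
  · exact solveQ_ptf (hN.comp PTF.fst) (hσ.comp PTF.fst) (hℓ.comp PTF.fst) PTF.snd
      (ht.comp PTF.fst)

end

end Pool.Agent.PIT
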