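import Mathlib
import Pool.Agent.Work.MP_3c5c20_lc.AlgPT

/-!
# The running time of the algorithm
-/

set_option autoImplicit false

namespace Pool.Agent.PIT

open Pool.Agent.PT Function

/-! ### The growth function -/

/-- The exponent: the integer part of the square root of `n log n`. -/
def Phi (n : ℕ) : ℕ := Nat.sqrt (n * lg n)

theorem lg_mono {m n : ℕ} (h : m ≤ n) : lg m ≤ lg n := by
  unfold lg
  exact Nat.add_le_add_right (Nat.log_mono_right (by omega)) 1

theorem Phi_mono {m n : ℕ} (h : m ≤ n) : Phi m ≤ Phi n :=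
  Nat.sqrt_le_sqrt (Nat.mul_le_mul h (lg_mono h))

theorem lg_le_Phi (m : ℕ) : lg m ≤ 16 * (Phi m + 1) := by
  unfold Phi
  set r := Nat.sqrt (m * lg m) with hr
  set l := lg m with hl
  set ℓ := l / 4 with hℓ
  have hr1 : m * l < (r + 1) * (r + 1) := Nat.lt_succ_sqrt _
  have hl1 : 1 ≤ l := by simp [hl, lg]
  have h1 : l ≤ 4 * 2 ^ ℓ := by
    have : ℓ + 1 ≤ 2 ^ ℓ := Nat.lt_two_pow_self
    omega
  have h2 : 2 ^ ℓ * 2 ^ ℓ ≤ 4 * (r + 1) := by
    by_contra hcon
    push Not at hcon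
    have h3 := Nat.mul_self_lt_mul_self hcon
    have h4 : (2 ^ ℓ * 2 ^ ℓ) * (2 ^ ℓ * 2 ^ ℓ) ≤ 2 * (m + 5) := by
      have h5 : (2 ^ ℓ * 2 ^ ℓ) * (2 ^ ℓ * 2 ^ ℓ) = 2 ^ (4 * ℓ) := by
        rw [← pow_add, ← pow_add]; congr 1; ring
      rw [h5]
      have h6 : 2 ^ (4 * ℓ) ≤ 2 ^ l := Nat.pow_le_pow_right (by norm_num) (by omega)
      have h7 : 2 ^ l = 2 ^ Nat.log 2 (m + 5) * 2 := by rw [hl, lg, pow_succ]
      have h8 : 2 ^ Nat.log 2 (m + 5) ≤ m + 5 := Nat.pow_log_le_self 2 (by omega)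
      omega
    nlinarith
  have h3 : 1 ≤ 2 ^ ℓ := Nat.one_le_two_pow
  calc l ≤ 4 * 2 ^ ℓ := h1
    _ = 4 * (2 ^ ℓ * 1) := by ring
    _ ≤ 4 * (2 ^ ℓ * 2 ^ ℓ) := by gcongr
    _ ≤ 4 * (4 * (r + 1)) := Nat.mul_le_mul_left _ h2
    _ = 16 * (r + 1) := by ring

/-- A linear change of the argument changes `Phi` by a constant factor only. -/
theorem Phi_linear (c : ℕ) {n m : ℕ} (h : m ≤ c * (n + 1)) :
    Phi m + 1 ≤ (2 * c + 6) * (Phi n + 1) := by
  have hlg : lg (c * (n + 1)) ≤ (c + 2) + lg n := by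
    have h1 : c * (n + 1) + 5 ≤ 2 ^ (c + 1 + (Nat.log 2 (n + 5) + 1)) := by
      have h2 : n + 5 ≤ 2 ^ (Nat.log 2 (n + 5) + 1) := (Nat.lt_pow_succ_log_self (by norm_num) _).le
      have h3 : c + 1 ≤ 2 ^ (c + 1) := Nat.lt_two_pow_self.le
      calc c * (n + 1) + 5 ≤ (c + 1) * (n + 5) := by nlinarith
        _ ≤ 2 ^ (c + 1) * 2 ^ (Nat.log 2 (n + 5) + 1) := Nat.mul_le_mul h3 h2
        _ = 2 ^ (c + 1 + (Nat.log 2 (n + 5) + 1)) := by rw [← pow_add]
    have h4 : Nat.log 2 (c * (n + 1) + 5) ≤ c + 1 + (Nat.log 2 (n + 5) + 1) := by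
      calc Nat.log 2 (c * (n + 1) + 5) ≤ Nat.log 2 (2 ^ (c + 1 + (Nat.log 2 (n + 5) + 1))) :=
            Nat.log_mono_right h1
        _ = _ := Nat.log_pow (by norm_num) _
    unfold lg
    omega
  have hlg1 : 1 ≤ lg n := by simp [lg]
  have hlgn : lg n ≤ n * lg n + 3 := by
    rcases Nat.eq_zero_or_pos n with rfl | hn
    · have : lg 0 = 3 := by
        unfold lg
        have : Nat.log 2 (0 + 5) = 2 := by
          rw [Nat.log_eq_iff (by norm_num)]
          norm_num
        rw [this]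
      omega
    · have := Nat.mul_le_mul_right (lg n) hn
      omega
  have hm : m * lg m ≤ (2 * c + 5) * (2 * c + 5) * (n * lg n + 1) := by
    calc m * lg m ≤ (c * (n + 1)) * lg (c * (n + 1)) := Nat.mul_le_mul h (lg_mono h)
      _ ≤ (c * (n + 1)) * ((c + 2) + lg n) := Nat.mul_le_mul_left _ hlg
      _ = c * ((c + 2) * n + n * lg n + (c + 2) + lg n) := by ring
      _ ≤ c * ((c + 2) * (n * lg n) + n * lg n + (c + 2) + (n * lg n + 3)) := by
          have : n ≤ n * lg n := Nat.le_mul_of_pos_right _ hlg1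
          gcongr
      _ ≤ (2 * c + 5) * (2 * c + 5) * (n * lg n + 1) := by nlinarith [Nat.zero_le (n * lg n), Nat.zero_le (c * (n * lg n)), Nat.zero_le (c * c * (n * lg n))]
  set r := Phi n with hr
  have hr1 : n * lg n < (r + 1) * (r + 1) := Nat.lt_succ_sqrt _
  have hm2 : m * lg m ≤ ((2 * c + 5) * (r + 1)) * ((2 * c + 5) * (r + 1)) := by
    calc m * lg m ≤ (2 * c + 5) * (2 * c + 5) * (n * lg n + 1) := hm
      _ ≤ (2 * c + 5) * (2 * c + 5) * ((r + 1) * (r + 1)) := Nat.mul_le_mul_left _ hr1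
      _ = _ := by ring
  have h5 : Phi m ≤ (2 * c + 5) * (r + 1) := by
    unfold Phi
    by_contra hcon
    push Not at hcon
    have h6 := Nat.sqrt_le (m * lg m)
    have h7 := Nat.mul_self_lt_mul_self hcon
    omega
  have h8 : (2 * c + 6) * (r + 1) = (2 * c + 5) * (r + 1) + (r + 1) := by ring
  omega

section classes

variable {α β γ δ σ : Type} [Enc α] [Enc β] [Enc γ] [Enc δ] [Enc σ]

/-- Functions bounded by `2 ^ O(√(n log n))`. -/
def EB (B : α → ℕ) : Prop := ∃ C : ℕ, ∀ a, B a ≤ 2 ^ (C * (Phi (sz a) + 1))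

theorem EB.mono {B B' : α → ℕ} (h : EB B') (hB : ∀ a, B a ≤ B' a) : EB B := by
  obtain ⟨C, hC⟩ := h
  exact ⟨C, fun a => (hB a).trans (hC a)⟩

theorem EB.of_PB {B : α → ℕ} (h : PB B) : EB B := by
  obtain ⟨k, hk⟩ := h
  refine ⟨16 * k, fun a => (hk a).trans ?_⟩
  have h1 : sz a + 2 ≤ 2 ^ lg (sz a) := by
    have := lt_two_pow_lg (sz a)
    omega
  calc (sz a + 2) ^ k ≤ (2 ^ lg (sz a)) ^ k := Nat.pow_le_pow_left h1 _
    _ = 2 ^ (k * lg (sz a)) := by rw [← pow_mul, mul_comm]
    _ ≤ 2 ^ (k * (16 * (Phi (sz a) + 1))) :=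
        Nat.pow_le_pow_right (by norm_num) (Nat.mul_le_mul_left _ (lg_le_Phi _))
    _ = _ := by congr 1; ring

theorem EB.mul {B B' : α → ℕ} (h : EB B) (h' : EB B') : EB (fun a => B a * B' a) := by
  obtain ⟨C, hC⟩ := h
  obtain ⟨C', hC'⟩ := h'
  refine ⟨C + C', fun a => ?_⟩
  rw [Nat.add_mul, pow_add]
  exact Nat.mul_le_mul (hC a) (hC' a)

theorem EB.add {B B' : α → ℕ} (h : EB B) (h' : EB B') : EB (fun a => B a + B' a) := by
  obtain ⟨C, hC⟩ := h
  obtain ⟨C', hC'⟩ := h'
  refine ⟨C + C' + 1, fun a => ?_⟩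
  have h1 : 2 ^ (C * (Phi (sz a) + 1)) ≤ 2 ^ ((C + C') * (Phi (sz a) + 1)) :=
    Nat.pow_le_pow_right (by norm_num) (Nat.mul_le_mul_right _ (by omega))
  have h2 : 2 ^ (C' * (Phi (sz a) + 1)) ≤ 2 ^ ((C + C') * (Phi (sz a) + 1)) :=
    Nat.pow_le_pow_right (by norm_num) (Nat.mul_le_mul_right _ (by omega))
  calc B a + B' a ≤ 2 ^ ((C + C') * (Phi (sz a) + 1)) + 2 ^ ((C + C') * (Phi (sz a) + 1)) :=
        Nat.add_le_add ((hC a).trans h1) ((hC' a).trans h2)
    _ = 2 ^ ((C + C') * (Phi (sz a) + 1) + 1) := by rw [pow_succ]; ring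
    _ ≤ _ := Nat.pow_le_pow_right (by norm_num) (by nlinarith [Nat.zero_le (Phi (sz a))])

theorem EB.const (c : ℕ) : EB (fun _ : α => c) := EB.of_PB (PB.const c)

theorem EB.sz : EB (fun a : α => PT.sz a) := EB.of_PB PB.sz

theorem EB.pow {B : α → ℕ} (h : EB B) (k : ℕ) : EB (fun a => B a ^ k) := by
  obtain ⟨C, hC⟩ := h
  refine ⟨C * k, fun a => ?_⟩
  calc B a ^ k ≤ (2 ^ (C * (Phi (PT.sz a) + 1))) ^ k := Nat.pow_le_pow_left (hC a) _
    _ = _ := by rw [← pow_mul]; congr 1; ring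

/-- Composition with polynomially bounded functions. -/
theorem EB.comp_PB {B : β → ℕ} {f : α → β} (h : PB B) (hf : EB (fun a => PT.sz (f a))) :
    EB (fun a => B (f a)) := by
  obtain ⟨k, hk⟩ := h
  exact ((hf.add (EB.const 2)).pow k).mono (fun a => hk _)

/-- Functions computable in time `2 ^ O(√(n log n))`. -/
def ETF (f : α → β) : Prop := ∃ B, TimeF f B ∧ EB B

theorem etf_of_ptf {f : α → β} (h : PTF f) : ETF f := by
  obtain ⟨B, h1, h2⟩ := h
  exact ⟨B, h1, EB.of_PB h2⟩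

theorem ETF.size {f : α → β} (h : ETF f) : EB (fun a => PT.sz (f a)) := by
  obtain ⟨B, h1, h2⟩ := h
  exact (EB.sz.add h2).mono (fun a => h1.size_le a)

/-- A polynomial-time function after an `ETF` function. -/
theorem ETF.comp_left {f : β → γ} {g : α → β} (hf : PTF f) (hg : ETF g) :
    ETF (fun a => f (g a)) := by
  have hs := hg.size
  have hs2 : EB (fun a => PT.sz (f (g a))) := EB.comp_PB (B := fun b => PT.sz (f b)) hf.size hs
  obtain ⟨Bf, f1, f2⟩ := hf
  obtain ⟨Bg, g1, g2⟩ := hg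
  refine ⟨_, f1.comp g1, ?_⟩
  exact ((((g2.add (EB.comp_PB f2 hs)).add ((EB.const 4).mul EB.sz)).add
    ((EB.const 8).mul hs)).add ((EB.const 4).mul hs2)).add (EB.const 8)

/-- An `ETF` function after a polynomial-time function with linearly bounded output. -/
theorem ETF.comp_right {f : β → γ} {g : α → β} (hf : ETF f) (hg : PTF g) {c : ℕ}
    (hc : ∀ a, PT.sz (g a) ≤ c * (PT.sz a + 1)) : ETF (fun a => f (g a)) := by
  have key : ∀ {B : β → ℕ}, EB B → EB (fun a => B (g a)) := by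
    rintro B ⟨C, hC⟩
    refine ⟨C * (2 * c + 6), fun a => (hC _).trans (Nat.pow_le_pow_right (by norm_num) ?_)⟩
    rw [Nat.mul_assoc]
    exact Nat.mul_le_mul_left _ (Phi_linear c (hc a))
  have hs2 : EB (fun a => PT.sz (f (g a))) := key hf.size
  have hgs := EB.of_PB hg.size
  obtain ⟨Bf, f1, f2⟩ := hf
  obtain ⟨Bg, g1, g2⟩ := hg
  refine ⟨_, f1.comp g1, ?_⟩
  exact (((((EB.of_PB g2).add (key f2)).add ((EB.const 4).mul EB.sz)).add
    ((EB.const 8).mul hgs)).add ((EB.const 4).mul hs2)).add (EB.const 8)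

theorem ETF.pair {f : α → β} {g : α → γ} (hf : ETF f) (hg : ETF g) :
    ETF (fun a => (f a, g a)) := by
  have hfs := hf.size
  have hgs := hg.size
  obtain ⟨Bf, ⟨f', Tf, f1, f2, f3⟩, f4⟩ := hf
  obtain ⟨Bg, ⟨g', Tg, g1, g2, g3⟩, g4⟩ := hg
  refine ⟨fun a => Bf a + Bg a + 13 * PT.sz a + 8 * PT.sz (f a) + 8 * PT.sz (g a) + 15,
    ⟨_, _, f1.pair g1, fun a => by rw [f2, g2]; rfl, fun a => ?_⟩, ?_⟩
  · have h1 := f3 a
    have h2 := g3 a
    simp only [f2, g2]
    show Tf (enc a) + Tg (enc a) + 13 * PT.sz a + 8 * PT.sz (f a) + 8 * PT.sz (g a) + 15 ≤ _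
    omega
  · exact ((((f4.add g4).add ((EB.const 13).mul EB.sz)).add ((EB.const 8).mul hfs)).add
      ((EB.const 8).mul hgs)).add (EB.const 15)

theorem ETF.congr {f g : α → β} (hf : ETF f) (h : ∀ a, f a = g a) : ETF g := by
  have : f = g := funext h
  rwa [← this]

/-- Iteration with `ETF` bounds. -/
theorem ETF.iterate {c : α → ℕ} {init : α → σ} {step : α × σ → σ}
    (hc : PTF c) (hi : PTF init) (hs : PTF step) (S : α → ℕ) (hSp : EB S)
    (hS : ∀ a i, i ≤ c a → PT.sz ((fun s => step (a, s))^[i] (init a)) ≤ S a) :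
    ETF (fun a => (fun s => step (a, s))^[c a] (init a)) := by
  have e : ∀ a, (enc (c a)).nodes = c a := fun a => encNat_nodes _
  have hcs := hc.size
  obtain ⟨Bc, c1, c2⟩ := hc
  obtain ⟨Bi, i1, i2⟩ := hi
  obtain ⟨Bs, s1, ⟨k, s2⟩⟩ := hs
  obtain ⟨C, h⟩ := TimeF.iterate c1 i1 s1 (fun a => (PT.sz a + S a + 3) ^ k) S
    (fun a i hi => hS a i (by rw [e] at hi; exact hi))
    (fun a i hi => (s2 _).trans (Nat.pow_le_pow_left (by
      rw [sz_pair]
      have := hS a i (by rw [e] at hi; omega)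
      omega) _))
  have h' : ETF (fun a => (fun s => step (a, s))^[(enc (c a)).nodes] (init a)) := by
    refine ⟨_, h, ?_⟩
    exact (EB.const C).mul (((((((EB.of_PB c2).add (EB.of_PB i2)).add EB.sz).add
      (EB.of_PB hcs)).add hSp).add (EB.const 1)).add ((EB.of_PB hcs).mul
      ((((((EB.sz.add hSp).add (EB.const 3)).pow k).add EB.sz).add hSp).add (EB.const 1))))
  exact h'.congr (fun a => by rw [e])

end classes

/-! ### The parameters -/

section params

variable {α : Type} [Enc α]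

theorem log2_ptf {x : α → ℕ} (hx : PTF x) : PTF (fun a => Nat.log 2 (x a)) := by
  have h := PTF.nat_iterate_add (n := x) (init := fun a => (x a, 0))
    (step := fun p : α × (ℕ × ℕ) => if 2 ≤ p.2.1 then (p.2.1 / 2, p.2.2 + 1) else p.2) hx
    (hx.pair (PTF.const 0))
    (PTF.ite ((PTF.const 2).le (PTF.fst.comp PTF.snd))
      (((PTF.fst.comp PTF.snd).div (PTF.const 2)).pair (PTF.snd.comp PTF.snd).succ) PTF.snd)
    (fun _ => 2) (PB.const 2) (fun a s => by
      obtain ⟨s, t⟩ := s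
      show sz (if 2 ≤ s then (s / 2, t + 1) else (s, t)) ≤ _
      split_ifs <;> simp only [sz_pair, sz_nat] <;> omega)
  refine (PTF.snd.comp h).congr (fun a => ?_)
  have key : ∀ (i s t : ℕ), s ≤ i →
      ((fun s : ℕ × ℕ => if 2 ≤ s.1 then (s.1 / 2, s.2 + 1) else s)^[i] (s, t)).2 =
        t + Nat.log 2 s := by
    intro i
    induction i with
    | zero => intro s t hs; obtain rfl : s = 0 := by omega
              simp
    | succ i ih =>
      intro s t hs
      rw [iterate_succ_apply]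
      by_cases h : 2 ≤ s
      · rw [if_pos h, ih _ _ (by dsimp only; omega)]
        dsimp only
        rw [Nat.log_of_one_lt_of_le (by norm_num) h]
        omega
      · rw [if_neg h]
        have : ∀ i, (fun s : ℕ × ℕ => if 2 ≤ s.1 then (s.1 / 2, s.2 + 1) else s)^[i]
            (s, t) = (s, t) := by
          intro i
          induction i with
          | zero => rfl
          | succ i ih => rw [iterate_succ_apply', ih, if_neg h]
        rw [this, Nat.log_of_lt (by omega)]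
        rfl
  exact (key (x a) (x a) 0 (le_refl _)).trans (Nat.zero_add _)

theorem sqrt_ptf {x : α → ℕ} (hx : PTF x) : PTF (fun a => Nat.sqrt (x a)) := by
  have h := PTF.nat_iterate_add (n := x) (init := fun _ : α => 0)
    (step := fun p : α × ℕ => if (p.2 + 1) * (p.2 + 1) ≤ x p.1 then p.2 + 1 else p.2) hx
    (PTF.const 0)
    (PTF.ite ((PTF.snd.succ.mul PTF.snd.succ).le (hx.comp PTF.fst)) PTF.snd.succ PTF.snd)
    (fun _ => 2) (PB.const 2) (fun a s => by
      show sz (if (s + 1) * (s + 1) ≤ x a then s + 1 else s) ≤ _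
      split_ifs <;> simp only [sz_nat] <;> omega)
  refine h.congr (fun a => ?_)
  have key : ∀ i : ℕ, (fun s : ℕ => if (s + 1) * (s + 1) ≤ x a then s + 1 else s)^[i] 0 =
      min i (Nat.sqrt (x a)) := by
    intro i
    induction i with
    | zero => simp
    | succ i ih =>
      rw [iterate_succ_apply', ih]
      by_cases h : i < Nat.sqrt (x a)
      · rw [Nat.min_eq_left h.le, if_pos (Nat.le_sqrt.1 h), Nat.min_eq_left h]
      · push Not at h
        rw [Nat.min_eq_right h, if_neg, Nat.min_eq_right (by omega)]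
        have : x a < (Nat.sqrt (x a) + 1) * (Nat.sqrt (x a) + 1) := Nat.lt_succ_sqrt (x a)
        omega
  refine (key (x a)).trans (Nat.min_eq_right (Nat.sqrt_le_self _))

theorem lg_ptf {x : α → ℕ} (hx : PTF x) : PTF (fun a => lg (x a)) :=
  (log2_ptf hx.succ.succ.succ.succ.succ).succ

theorem lpar_ptf {x : α → ℕ} (hx : PTF x) : PTF (fun a => lpar (x a)) :=
  (lg_ptf hx).div (PTF.const 4)

theorem spar_ptf {x : α → ℕ} (hx : PTF x) : PTF (fun a => spar (x a)) :=
  (sqrt_ptf (hx.div (lpar_ptf hx).succ)).succ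

/-- The exponent of the clipping parameter. -/
def npar (m : ℕ) : ℕ := 1300 * (Nat.sqrt (m * lg m) + 1)

theorem npar_ptf {x : α → ℕ} (hx : PTF x) : PTF (fun a => npar (x a)) :=
  (PTF.const 1300).mul (sqrt_ptf (hx.mul (lg_ptf hx))).succ

/-- The clipping parameter is computable within the time bound. -/
theorem clip_etf {x : α → ℕ} (hx : PTF x) (hxs : ∀ a, x a ≤ sz a) :
    ETF (fun a => 2 ^ npar (x a)) := by
  have key : ∀ i : ℕ, (fun s : ℕ => s + s)^[i] 1 = 2 ^ i := by
    intro i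
    induction i with
    | zero => rfl
    | succ i ih => rw [iterate_succ_apply', ih, pow_succ]; ring
  have h := ETF.iterate (c := fun a => npar (x a)) (init := fun _ : α => 1)
    (step := fun p : α × ℕ => p.2 + p.2) (npar_ptf hx) (PTF.const 1) (PTF.snd.add PTF.snd)
    (fun a => 2 * 2 ^ npar (x a) + 1) ?_ (fun a i hi => ?_)
  · exact h.congr (fun a => key _)
  · refine ((EB.const 2).mul ?_).add (EB.const 1)
    refine ⟨1300, fun a => Nat.pow_le_pow_right (by norm_num) ?_⟩
    unfold npar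
    exact Nat.mul_le_mul_left _ (Nat.add_le_add_right (Phi_mono (hxs a)) 1)
  · show sz ((fun s : ℕ => s + s)^[i] 1) ≤ _
    rw [key, sz_nat]
    have := Nat.pow_le_pow_right (n := 2) (by norm_num) hi
    omega

end params

/-! ### The decision procedure -/

/-- The size of a token list: number of tokens and digits. -/
def tsize (toks : List Tok) : ℕ :=
  (toks.map (fun t => t.2.1.length + t.2.2.length + 1)).sum

theorem tsize_toks (E : Ex) : tsize E.toks = E.size := by
  unfold tsize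
  induction E with
  | var v => simp [Ex.toks, Ex.size]
  | const neg num den => simp [Ex.toks, Ex.size]
  | add a b iha ihb =>
    simp only [Ex.toks, Ex.size, List.map_append, List.sum_append, iha, ihb]
    simp; omega
  | sub a b iha ihb =>
    simp only [Ex.toks, Ex.size, List.map_append, List.sum_append, iha, ihb]
    simp; omega
  | mul a b iha ihb =>
    simp only [Ex.toks, Ex.size, List.map_append, List.sum_append, iha, ihb]
    simp; omega

theorem tsize_le (toks : List Tok) : tsize toks ≤ sz toks := by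
  unfold tsize
  induction toks with
  | nil => simp
  | cons t toks ih =>
    obtain ⟨k, a, b⟩ := t
    rw [List.map_cons, List.sum_cons, sz_cons, sz_pair, sz_pair]
    have h1 := length_le_sz a
    have h2 := length_le_sz b
    dsimp only
    omega

theorem tsize_ptf {α : Type} [Enc α] {toks : α → List Tok} (h : PTF toks) :
    PTF (fun a => tsize (toks a)) := by
  unfold tsize
  refine PTF.sum (PTF.map (g := fun p : α × Tok => p.2.2.1.length + p.2.2.2.length + 1) h ?_)
  exact ((PTF.fst.comp (PTF.snd.comp PTF.snd)).length.add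
    (PTF.snd.comp (PTF.snd.comp PTF.snd)).length).succ

/-- The decision procedure on token lists. -/
def solve (toks : List Tok) : Bool :=
  alg (2 ^ npar (tsize toks)) (spar (tsize toks)) (lpar (tsize toks)) (tsize toks) toks

/-- **Correctness.** -/
theorem solve_iff {E : Ex} (hE : E.ok) : solve E.toks = true ↔ E.poly ≠ 0 := by
  unfold solve
  exact alg_iff' hE (le_of_eq (tsize_toks E).symm) (le_refl _)

/-- **Running time** `2 ^ O(√(n log n))`. -/
theorem solve_etf : ETF solve := by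
  have h1 : ETF (fun toks : List Tok => (2 ^ npar (tsize toks), toks)) :=
    (clip_etf (tsize_ptf PTF.id) tsize_le).pair (etf_of_ptf PTF.id)
  have h2 : PTF (fun p : ℕ × List Tok =>
      alg p.1 (spar (tsize p.2)) (lpar (tsize p.2)) (tsize p.2) p.2) := by
    have h3 : PTF (fun p : ℕ × List Tok => tsize p.2) := tsize_ptf PTF.snd
    exact alg_ptf PTF.fst (spar_ptf h3) (lpar_ptf h3) h3 PTF.snd
  have h3 := ETF.comp_left (f := fun p : ℕ × List Tok =>
      alg p.1 (spar (tsize p.2)) (lpar (tsize p.2)) (tsize p.2) p.2)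
      (g := fun toks : List Tok => (2 ^ npar (tsize toks), toks)) h2 h1
  refine ETF.congr h3 (fun toks => ?_)
  unfold solve
  dsimp only

theorem solve_time : ∃ C : ℕ, TimeF solve (fun toks =>
    2 ^ (C * (Nat.sqrt (sz toks * (Nat.log 2 (sz toks + 5) + 1)) + 1))) := by
  obtain ⟨B, h1, C, h2⟩ := solve_etf
  exact ⟨C, h1.mono h2⟩

end Pool.Agent.PIT
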