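import Mathlib
import Pool.Agent.Work.MP_3c5c20_lc.Parse
import Pool.Agent.Work.MP_3c5c20_lc.Time
import Pool.Agent.Work.PT.Auto

/-!
# The parser runs in polynomial time; the decision procedure on strings
-/

set_option autoImplicit false

namespace Pool.Agent.PIT

open Pool.Agent.PT Function

/-- Codes of the symbols. -/
def Sy.code : Sy → ℕ
  | .x => 0 | .zero => 1 | .one => 2 | .slash => 3 | .plus => 4 | .minus => 5
  | .times => 6 | .lp => 7 | .rp => 8

theorem Sy.code_injective : Function.Injective Sy.code := by
  intro a b h
  cases a <;> cases b <;> simp_all [Sy.code]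

instance : Enc Sy := ⟨fun s => enc s.code, fun _ _ h => Sy.code_injective (Enc.inj h)⟩

theorem sz_sy (c : Sy) : sz c ≤ 17 := by
  have : sz c = 2 * c.code + 1 := sz_nat _
  rw [this]
  cases c <;> simp [Sy.code]

section

variable {α : Type} [Enc α]

@[fun_prop]
theorem mulc_ptf {P : α → Option (List Tok)} {v : α → List Tok} (hP : PTF P) (hv : PTF v) :
    PTF (fun a => mulc (P a) (v a)) := by
  refine (PTF.option_case (g := fun p : α × List Tok => p.2 ++ (v p.1 ++ [(2, ([], []))])) hP hv
    (by fun_prop)).congr (fun a => ?_)
  unfold mulc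
  cases P a <;> rfl

@[fun_prop]
theorem addc_ptf {S : α → Option (List Tok × ℕ)} {v : α → List Tok} (hS : PTF S) (hv : PTF v) :
    PTF (fun a => addc (S a) (v a)) := by
  refine (PTF.option_case (g := fun p : α × (List Tok × ℕ) =>
    p.2.1 ++ (v p.1 ++ [(p.2.2, ([], []))])) hS hv (by fun_prop)).congr (fun a => ?_)
  unfold addc
  cases S a <;> rfl

@[fun_prop]
theorem finish_ptf {m : α → Mode} (hm : PTF m) : PTF (fun a => finish (m a)) := by
  unfold finish
  fun_prop

@[fun_prop]
theorem perr_ptf {s : α → PS} (hs : PTF s) : PTF (fun a => perr (s a)) := by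
  unfold perr
  fun_prop

@[fun_prop]
theorem pdig_ptf {s : α → PS} (hs : PTF s) (b : Bool) : PTF (fun a => pdig (s a) b) := by
  unfold pdig
  fun_prop

@[fun_prop]
theorem padd_ptf {s : α → PS} (hs : PTF s) (k : ℕ) : PTF (fun a => padd (s a) k) := by
  refine (PTF.option_case (o := fun a => finish (s a).2.2) (f := fun a => perr (s a))
    (g := fun p : α × List Tok => ((s p.1).1, (some (addc (s p.1).2.1 p.2, k),
      (0, (none, (false, ([], []))))))) (by fun_prop) (by fun_prop) (by fun_prop)).congr
      (fun a => ?_)
  unfold padd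
  cases finish (s a).2.2 <;> rfl

@[fun_prop]
theorem pmul_ptf {s : α → PS} (hs : PTF s) : PTF (fun a => pmul (s a)) := by
  refine (PTF.option_case (o := fun a => finish (s a).2.2) (f := fun a => perr (s a))
    (g := fun p : α × List Tok => ((s p.1).1, ((s p.1).2.1, (0, (some p.2, (false, ([], [])))))))
    (by fun_prop) (by fun_prop) (by fun_prop)).congr (fun a => ?_)
  unfold pmul
  cases finish (s a).2.2 <;> rfl

@[fun_prop]
theorem prp_ptf {s : α → PS} (hs : PTF s) : PTF (fun a => prp (s a)) := by
  have h1 : PTF (fun p : α × List Tok => match (s p.1).1 with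
      | [] => perr (s p.1)
      | f :: r => (r, (f.1, (4, (some (mulc f.2 (addc (s p.1).2.1 p.2)), (false, ([], [])))))) :
      α × List Tok → PS) := by
    refine (PTF.list_case (l := fun p : α × List Tok => (s p.1).1)
      (f := fun p => perr (s p.1))
      (g := fun q : (α × List Tok) × (Fr × List Fr) => ((q.2.2, (q.2.1.1, (4,
        (some (mulc q.2.1.2 (addc (s q.1.1).2.1 q.1.2)), (false, ([], [])))))) : PS))
      (by fun_prop) (by fun_prop) (by fun_prop)).congr (fun p => ?_)
    cases (s p.1).1 <;> rfl
  refine (PTF.option_case (o := fun a => finish (s a).2.2) (f := fun a => perr (s a))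
    (by fun_prop) (by fun_prop) h1).congr (fun a => ?_)
  unfold prp
  cases finish (s a).2.2 <;> rfl

theorem pstepS_ptf : PTF (fun p : PS × Sy => pstepS p.1 p.2) := by
  have h : PTF (fun p : PS × Sy =>
      if p.2 = .x then
        (if p.1.2.2.1 = 0 then (p.1.1, (p.1.2.1, (1, (p.1.2.2.2.1, (false, ([], []))))))
          else perr p.1)
      else if p.2 = .zero then pdig p.1 false
      else if p.2 = .one then pdig p.1 true
      else if p.2 = .slash then
        (if p.1.2.2.1 = 2 ∧ p.1.2.2.2.2.2.1 ≠ [] then
          (p.1.1, (p.1.2.1, (3, (p.1.2.2.2.1, (p.1.2.2.2.2.1, (p.1.2.2.2.2.2.1, []))))))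
        else perr p.1)
      else if p.2 = .plus then padd p.1 0
      else if p.2 = .minus then
        (if p.1.2.2.1 = 0 then (p.1.1, (p.1.2.1, (2, (p.1.2.2.2.1, (true, ([], []))))))
        else padd p.1 1)
      else if p.2 = .times then pmul p.1
      else if p.2 = .lp then
        (if p.1.2.2.1 = 0 then ((p.1.2.1, p.1.2.2.2.1) :: p.1.1,
          (none, (0, (none, (false, ([], []))))))
        else perr p.1)
      else prp p.1) := by fun_prop
  refine h.congr (fun p => ?_)
  obtain ⟨s, c⟩ := p
  cases c <;> rfl

/-! ### Sizes -/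

theorem sz_mulc_le (P : Option (List Tok)) (v : List Tok) :
    sz (mulc P v) ≤ sz P + sz v + 20 := by
  cases P with
  | none => unfold mulc; simp only [sz_none]; omega
  | some p =>
    unfold mulc
    have h1 := sz_append p (v ++ [((2, ([], [])) : Tok)])
    have h2 := sz_append v [((2, ([], [])) : Tok)]
    simp only [sz_cons, sz_nil, sz_pair, sz_nat] at h1 h2
    simp only [sz_some]
    omega

theorem sz_addc_le (S : Option (List Tok × ℕ)) (v : List Tok) :
    sz (addc S v) ≤ sz S + sz v + 20 := by
  cases S with
  | none => unfold addc; simp only [sz_none]; omega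
  | some p =>
    obtain ⟨p, k⟩ := p
    unfold addc
    have h1 := sz_append p (v ++ [((k, ([], [])) : Tok)])
    have h2 := sz_append v [((k, ([], [])) : Tok)]
    simp only [sz_cons, sz_nil, sz_pair, sz_nat] at h1 h2
    simp only [sz_some, sz_pair, sz_nat]
    omega

theorem sz_finish_le {m : Mode} {T : List Tok} (h : finish m = some T) : sz T ≤ sz m + 60 := by
  obtain ⟨tag, P, neg, num, den⟩ := m
  unfold finish at h
  simp only [sz_pair, sz_nat]
  dsimp only at h
  split_ifs at h with h1 h2 h3 h4 h5
  · simp only [Option.some.injEq] at h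
    rw [← h]
    have := sz_mulc_le P [((3, (num, [])) : Tok)]
    simp only [sz_cons, sz_nil, sz_pair, sz_nat] at this
    have := sz_pos neg
    omega
  · simp only [Option.some.injEq] at h
    rw [← h]
    have h6 := sz_mulc_le P [((5, (num, den)) : Tok)]
    simp only [sz_cons, sz_nil, sz_pair, sz_nat] at h6
    have := sz_pos neg
    omega
  · simp only [Option.some.injEq] at h
    rw [← h]
    have h6 := sz_mulc_le P [((4, (num, den)) : Tok)]
    simp only [sz_cons, sz_nil, sz_pair, sz_nat] at h6
    have := sz_pos neg
    omega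
  · rw [h, sz_some]
    omega

theorem sz_perr_le (s : PS) : sz (perr s) ≤ sz s + 60 := by
  obtain ⟨fr, S, m⟩ := s
  unfold perr
  simp only [sz_pair, sz_nat, sz_none, sz_nil]
  have := sz_bool false
  omega

theorem sz_pdig_le (s : PS) (b : Bool) : sz (pdig s b) ≤ sz s + 60 := by
  obtain ⟨fr, S, tag, P, neg, num, den⟩ := s
  have hb := sz_bool b
  have hf := sz_bool false
  have hn := sz_pos neg
  have h1 := sz_append num [b]
  have h2 := sz_append den [b]
  have h3 := sz_pos num
  have h4 := sz_pos den
  rw [sz_cons, sz_nil] at h1 h2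
  unfold pdig
  dsimp only
  split_ifs
  · simp only [sz_pair, sz_nat, sz_cons, sz_nil]; omega
  · simp only [sz_pair, sz_nat]; omega
  · simp only [sz_pair, sz_nat]; omega
  · simp only [sz_pair, sz_nat]; omega
  · exact sz_perr_le _

theorem sz_padd_le (s : PS) (k : ℕ) (hk : k ≤ 1) : sz (padd s k) ≤ sz s + 200 := by
  have he := sz_perr_le s
  obtain ⟨fr, S, m⟩ := s
  unfold padd
  dsimp only
  cases hf : finish m with
  | none => dsimp only; omega
  | some T =>
    have h1 := sz_finish_le hf
    have h2 := sz_addc_le S T
    have h3 := sz_bool false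
    simp only [sz_pair, sz_nat, sz_nil, sz_none, sz_some]
    omega

theorem sz_pmul_le (s : PS) : sz (pmul s) ≤ sz s + 200 := by
  have he := sz_perr_le s
  obtain ⟨fr, S, m⟩ := s
  unfold pmul
  dsimp only
  cases hf : finish m with
  | none => dsimp only; omega
  | some T =>
    have h1 := sz_finish_le hf
    have h3 := sz_bool false
    simp only [sz_pair, sz_nat, sz_nil, sz_some]
    omega

theorem sz_prp_le (s : PS) : sz (prp s) ≤ sz s + 200 := by
  have he := sz_perr_le s
  obtain ⟨fr, S, m⟩ := s
  unfold prp
  dsimp only
  cases hf : finish m with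
  | none => dsimp only; omega
  | some T =>
    cases fr with
    | nil => dsimp only; omega
    | cons f r =>
      obtain ⟨f1, f2⟩ := f
      have h1 := sz_finish_le hf
      have h2 := sz_addc_le S T
      have h4 := sz_mulc_le f2 (addc S T)
      have h3 := sz_bool false
      simp only [sz_pair, sz_nat, sz_nil, sz_some, sz_cons]
      omega

theorem sz_pstepS_le (s : PS) (c : Sy) : sz (pstepS s c) ≤ sz s + 200 := by
  have he := sz_perr_le s
  cases c with
  | zero => have := sz_pdig_le s false; show sz (pdig s false) ≤ _; omega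
  | one => have := sz_pdig_le s true; show sz (pdig s true) ≤ _; omega
  | plus => exact sz_padd_le s 0 (by omega)
  | times => exact sz_pmul_le s
  | rp => exact sz_prp_le s
  | x =>
    obtain ⟨fr, S, tag, P, neg, num, den⟩ := s
    unfold pstepS
    dsimp only
    split_ifs
    · have h3 := sz_bool false
      have h1 := sz_pos num
      have h2 := sz_pos den
      simp only [sz_pair, sz_nat, sz_nil]
      omega
    · omega
  | slash =>
    obtain ⟨fr, S, tag, P, neg, num, den⟩ := s
    unfold pstepS
    dsimp only
    split_ifs
    · have h1 := sz_pos num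
      have h2 := sz_pos den
      simp only [sz_pair, sz_nat, sz_nil]
      omega
    · omega
  | minus =>
    unfold pstepS
    dsimp only
    split_ifs
    · obtain ⟨fr, S, tag, P, neg, num, den⟩ := s
      have h3 := sz_bool true
      have h1 := sz_pos num
      have h2 := sz_pos den
      simp only [sz_pair, sz_nat, sz_nil]
      omega
    · exact sz_padd_le s 1 (by omega)
  | lp =>
    obtain ⟨fr, S, tag, P, neg, num, den⟩ := s
    unfold pstepS
    dsimp only
    split_ifs
    · have h3 := sz_bool false
      have h1 := sz_pos num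
      have h2 := sz_pos den
      simp only [sz_pair, sz_nat, sz_nil, sz_cons, sz_none]
      omega
    · omega

theorem sz_foldl_pstepS (l : List Sy) : ∀ s : PS, sz (l.foldl pstepS s) ≤ sz s + 200 * l.length := by
  induction l with
  | nil => intro s; simp
  | cons c l ih =>
    intro s
    have h1 := ih (pstepS s c)
    have h2 := sz_pstepS_le s c
    rw [List.foldl_cons, List.length_cons]
    omega

@[fun_prop]
theorem parse_ptf {s : α → List Sy} (hs : PTF s) : PTF (fun a => parse (s a)) := by
  have h1 : PTF (fun a => (s a).foldl pstepS pinit) := by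
    exact PTF.foldl_add (l := s) (init := fun _ => pinit)
      (step := fun p : α × (PS × Sy) => pstepS p.2.1 p.2.2) hs (PTF.const pinit)
      (pstepS_ptf.comp PTF.snd) (fun _ => 200) (PB.const 200)
      (fun a st b _ => sz_pstepS_le st b)
  unfold parse
  dsimp only
  have h0 : PTF (fun a => ((s a).foldl pstepS pinit).1.isEmpty) := (PTF.fst.comp h1).isEmpty
  refine PTF.ite (PTF.beq_of (p := fun a => ((s a).foldl pstepS pinit).1 = []) h0
    (fun a => List.isEmpty_iff)) ?_ (PTF.const none)
  refine PTF.optionMap' (f := fun a T => addc ((s a).foldl pstepS pinit).2.1 T) ?_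
    (finish_ptf (PTF.snd.comp (PTF.snd.comp h1)))
  have h2 : PTF (fun p : α × List Tok => ((s p.1).foldl pstepS pinit).2.1) :=
    PTF.fst.comp (PTF.snd.comp (h1.comp PTF.fst))
  exact addc_ptf h2 PTF.snd

theorem sz_parse_le {s : List Sy} {t : List Tok} (h : parse s = some t) :
    sz t ≤ 400 * (sz s + 1) := by
  unfold parse at h
  dsimp only at h
  split_ifs at h with h1
  cases hf : finish (s.foldl pstepS pinit).2.2 with
  | none => rw [hf] at h; simp at h
  | some T =>
    rw [hf] at h
    simp only [Option.map_some, Option.some.injEq] at h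
    rw [← h]
    have h2 := sz_finish_le hf
    have h3 := sz_addc_le (s.foldl pstepS pinit).2.1 T
    have h4 := sz_foldl_pstepS s pinit
    have h5 : sz (s.foldl pstepS pinit) = sz (s.foldl pstepS pinit).1 +
      (sz (s.foldl pstepS pinit).2.1 + sz (s.foldl pstepS pinit).2.2 + 1) + 1 := by
      rw [← sz_pair, ← sz_pair]
    have h6 : sz pinit ≤ 30 := by
      unfold pinit
      simp only [sz_pair, sz_nil, sz_none, sz_nat]
      have := sz_bool false
      omega
    have h7 := length_le_sz s
    omega

end

/-- The decision procedure on strings. -/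
def decideS (s : List Sy) : Bool :=
  match parse s with
  | none => false
  | some t => solve t

/-- **Correctness on strings.** -/
theorem decideS_iff (s : List Sy) : decideS s = true ↔ ∃ E, Der 0 s E ∧ E.poly ≠ 0 := by
  unfold decideS
  cases h : parse s with
  | none =>
    simp only [Bool.false_eq_true, false_iff]
    rintro ⟨E, hE, _⟩
    rw [parse_of_der hE] at h
    simp at h
  | some t =>
    obtain ⟨E, hE, rfl⟩ := der_of_parse h
    simp only
    rw [solve_iff (der_ok hE)]
    constructor
    · exact fun h => ⟨E, hE, h⟩
    · rintro ⟨E', hE', h'⟩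
      rw [der_unique hE hE']
      exact h'

/-- **Running time on strings.** -/
theorem decideS_etf : ETF decideS := by
  have h1 : PTF (fun s : List Sy => (parse s).getD []) := by fun_prop
  have h2 : ETF (fun s : List Sy => solve ((parse s).getD [])) := by
    refine ETF.comp_right (c := 400) solve_etf h1 (fun s => ?_)
    cases h : parse s with
    | none => simp only [Option.getD_none, sz_nil]; omega
    | some t => exact sz_parse_le h
  have h3 : ETF (fun s : List Sy => (solve ((parse s).getD []), s)) :=
    h2.pair (etf_of_ptf PTF.id)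
  have h4 : PTF (fun p : Bool × List Sy => (parse p.2).isSome && p.1) := by fun_prop
  refine (ETF.comp_left (f := fun p : Bool × List Sy => (parse p.2).isSome && p.1) h4 h3).congr
    (fun s => ?_)
  unfold decideS
  cases parse s <;> simp

end Pool.Agent.PIT
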