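import Mathlib
import Pool.Agent.Work.MP_3c5c20_lc.ParsePT
import Pool.Agent.Work.PT.Bridge

/-!
# Binary encoding of strings, polynomials in variables indexed by numbers, and machines
-/

set_option autoImplicit false

namespace Pool.Agent.PIT

open Pool.Agent.PT Function MvPolynomial Turing

/-! ### Polynomials in the variables `x_1, x_2, …` -/

theorem Ex.npoly_eq (E : Ex) : E.npoly = rename natOf E.poly := by
  induction E with
  | var v => simp [Ex.npoly, Ex.poly]
  | const neg num den => simp [Ex.npoly, Ex.poly]
  | add a b iha ihb => simp [Ex.npoly, Ex.poly, iha, ihb]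
  | sub a b iha ihb => simp [Ex.npoly, Ex.poly, iha, ihb]
  | mul a b iha ihb => simp [Ex.npoly, Ex.poly, iha, ihb]

theorem natOf_append (l : List Bool) (b : Bool) :
    natOf (l ++ [b]) = 2 * natOf l + (if b then 1 else 0) := by
  unfold natOf
  rw [List.foldl_append]
  rfl

theorem natOf_true_pos (l : List Bool) : 0 < natOf (true :: l) := by
  have h : natOf (true :: l) ≠ 0 := by
    rw [natOf_ne_zero_iff]
    exact List.mem_cons_self
  omega

theorem natOf_inj : ∀ {l m : List Bool}, natOf (true :: l) = natOf (true :: m) → l = m := by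
  intro l
  induction l using List.reverseRecOn with
  | nil =>
    intro m h
    induction m using List.reverseRecOn with
    | nil => rfl
    | append_singleton m b _ =>
      exfalso
      rw [← List.cons_append, natOf_append] at h
      have h1 := natOf_true_pos m
      have h2 : natOf [true] = 1 := rfl
      rw [h2] at h
      omega
  | append_singleton l a ih =>
    intro m h
    induction m using List.reverseRecOn with
    | nil =>
      exfalso
      rw [← List.cons_append, natOf_append] at h
      have h1 := natOf_true_pos l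
      have h2 : natOf [true] = 1 := rfl
      rw [h2] at h
      omega
    | append_singleton m b _ =>
      rw [← List.cons_append, natOf_append, ← List.cons_append, natOf_append] at h
      have h1 : a = b := by
        cases a <;> cases b <;> simp at h ⊢ <;> omega
      subst h1
      have h2 : natOf (true :: l) = natOf (true :: m) := by omega
      rw [ih h2]

open Classical in
/-- A left inverse of `natOf` on binary representations. -/
noncomputable def nameOf (j : ℕ) : Name :=
  if h : ∃ l : List Bool, natOf (true :: l) = j then true :: h.choose else []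

theorem nameOf_natOf (l : List Bool) : nameOf (natOf (true :: l)) = true :: l := by
  unfold nameOf
  have h : ∃ m : List Bool, natOf (true :: m) = natOf (true :: l) := ⟨l, rfl⟩
  rw [dif_pos h, natOf_inj h.choose_spec]

theorem Ex.rename_npoly {E : Ex} (h : ∀ v ∈ E.names, ∃ l, v = true :: l) :
    rename nameOf E.npoly = E.poly := by
  induction E with
  | var v =>
    obtain ⟨l, rfl⟩ := h v (by simp [Ex.names])
    simp [Ex.npoly, Ex.poly, nameOf_natOf]
  | const neg num den => simp [Ex.npoly, Ex.poly]
  | add a b iha ihb =>
    simp only [Ex.npoly, Ex.poly, map_add]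
    rw [iha (fun v hv => h v (List.mem_append_left _ hv)),
      ihb (fun v hv => h v (List.mem_append_right _ hv))]
  | sub a b iha ihb =>
    simp only [Ex.npoly, Ex.poly, map_sub]
    rw [iha (fun v hv => h v (List.mem_append_left _ hv)),
      ihb (fun v hv => h v (List.mem_append_right _ hv))]
  | mul a b iha ihb =>
    simp only [Ex.npoly, Ex.poly, map_mul]
    rw [iha (fun v hv => h v (List.mem_append_left _ hv)),
      ihb (fun v hv => h v (List.mem_append_right _ hv))]

theorem npoly_ne_zero_iff {s : List Sy} {E : Ex} (h : Der 0 s E) : E.npoly ≠ 0 ↔ E.poly ≠ 0 := by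
  rw [Ne, Ne, not_iff_not]
  constructor
  · intro h0
    rw [← Ex.rename_npoly (der_names h), h0, map_zero]
  · intro h0
    rw [Ex.npoly_eq, h0, map_zero]

/-! ### Binary encoding of strings -/

/-- Decoding of a block of four bits. -/
def symOf (l : List Bool) : Sy :=
  if l = [false, false, false, false] then .x
  else if l = [false, false, false, true] then .zero
  else if l = [false, false, true, false] then .one
  else if l = [false, false, true, true] then .slash
  else if l = [false, true, false, false] then .plus
  else if l = [false, true, false, true] then .minus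
  else if l = [false, true, true, false] then .times
  else if l = [false, true, true, true] then .lp
  else .rp

/-- Decoding. -/
def sdec (w : List Bool) : List Sy :=
  (List.range (w.length / 4)).map (fun i => symOf ((w.drop (4 * i)).take 4))

theorem length_scode (s : List Sy) : (scode s).length = 4 * s.length := by
  unfold scode
  induction s with
  | nil => rfl
  | cons c s ih =>
    rw [List.flatMap_cons, List.length_append, ih, List.length_cons]
    cases c <;> simp [Sy.bits] <;> omega

theorem sdec_scode (s : List Sy) : sdec (scode s) = s := by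
  unfold sdec
  rw [length_scode]
  have h : 4 * s.length / 4 = s.length := by omega
  rw [h]
  apply List.ext_getElem
  · simp
  · intro i h1 h2
    rw [List.getElem_map, List.getElem_range]
    have key : ∀ (s : List Sy) (i : ℕ) (hi : i < s.length),
        ((scode s).drop (4 * i)).take 4 = (s[i]).bits := by
      intro s
      induction s with
      | nil => intro i hi; simp at hi
      | cons c s ih =>
        intro i hi
        have e : scode (c :: s) = c.bits ++ scode s := rfl
        have hc : c.bits.length = 4 := by cases c <;> rfl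
        cases i with
        | zero =>
          rw [e]
          simp [hc]
        | succ i =>
          have h3 := ih i (by simpa using hi)
          rw [e, List.getElem_cons_succ, ← h3]
          congr 1
          have h4 : 4 * (i + 1) = c.bits.length + 4 * i := by rw [hc]; ring
          rw [h4, List.drop_append]
          simp
    rw [key s i h2]
    cases s[i] <;> rfl

theorem sdec_ptf : PTF sdec := by
  unfold sdec symOf
  fun_prop

theorem sz_sdec_le (w : List Bool) : sz (sdec w) ≤ 20 * (sz w + 1) := by
  have h1 : sz (sdec w) ≤ (sdec w).length * (17 + 1) + 1 := sz_list_le (fun c _ => sz_sy c)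
  have h2 : (sdec w).length = w.length / 4 := by simp [sdec]
  have h3 := length_le_sz w
  rw [h2] at h1
  omega

/-! ### The machine -/

theorem Phi_le (n : ℕ) : Phi n ≤ 3 * (Nat.sqrt (n * Nat.log 2 n) + 1) := by
  rcases Nat.lt_or_ge n 2 with h | h
  · have h1 : Phi n ≤ 3 := by
      unfold Phi
      have h2 : lg n ≤ 3 := by
        have h3 := lg_mono (m := n) (n := 1) (by omega)
        have h4 : lg 1 = 3 := by
          unfold lg
          have : Nat.log 2 (1 + 5) = 2 := by
            rw [Nat.log_eq_iff (by norm_num)]
            norm_num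
          rw [this]
        omega
      have h3 : n * lg n ≤ 3 * 3 := Nat.mul_le_mul (by omega) h2
      exact (Nat.sqrt_le_sqrt h3).trans (by rw [Nat.sqrt_eq])
    omega
  · set r := Nat.sqrt (n * Nat.log 2 n) with hr
    have hr1 : n * Nat.log 2 n < (r + 1) * (r + 1) := Nat.lt_succ_sqrt _
    have hlog : 1 ≤ Nat.log 2 n := Nat.log_pos (by norm_num) h
    have hlg : lg n ≤ Nat.log 2 n + 4 := by
      unfold lg
      have h1 : n + 5 ≤ 2 ^ (Nat.log 2 n + 3) * 2 := by
        have h2 : n < 2 ^ (Nat.log 2 n + 1) := Nat.lt_pow_succ_log_self (by norm_num) _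
        have h3 : 2 ^ (Nat.log 2 n + 3) = 2 ^ (Nat.log 2 n + 1) * 4 := by
          rw [show Nat.log 2 n + 3 = (Nat.log 2 n + 1) + 2 by ring, pow_add]; norm_num
        omega
      have h4 : n + 5 < 2 ^ (Nat.log 2 n + 4) := by
        have h2 : n < 2 ^ (Nat.log 2 n + 1) := Nat.lt_pow_succ_log_self (by norm_num) _
        have h3 : 2 ^ (Nat.log 2 n + 4) = 2 ^ (Nat.log 2 n + 1) * 8 := by
          rw [show Nat.log 2 n + 4 = (Nat.log 2 n + 1) + 3 by ring, pow_add]; norm_num
        omega
      have h5 : Nat.log 2 (n + 5) < Nat.log 2 n + 4 := Nat.log_lt_of_lt_pow (by omega) h4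
      omega
    have h6 : n * lg n ≤ 5 * (n * Nat.log 2 n) := by
      calc n * lg n ≤ n * (Nat.log 2 n + 4) := Nat.mul_le_mul_left _ hlg
        _ ≤ n * (Nat.log 2 n + 4 * Nat.log 2 n) := by gcongr; omega
        _ = 5 * (n * Nat.log 2 n) := by ring
    unfold Phi
    by_contra hcon
    push Not at hcon
    have h7 := Nat.sqrt_le (n * lg n)
    have h8 := Nat.mul_self_lt_mul_self hcon
    nlinarith

/-- The decision procedure on bit strings. -/
def decideW (w : List Bool) : List Bool := [decideS (sdec w)]

theorem decideW_etf : ETF decideW := by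
  have h1 : ETF (fun w : List Bool => decideS (sdec w)) :=
    ETF.comp_right (c := 20) decideS_etf sdec_ptf sz_sdec_le
  exact ETF.comp_left (f := fun b : Bool => [b]) (by fun_prop) h1

theorem sz_bits_le' (l : List Bool) : sz l ≤ 4 * l.length + 1 := by
  induction l with
  | nil => simp [sz_nil]
  | cons b x ih =>
    rw [sz_cons]
    have := sz_bool b
    simp only [List.length_cons]
    omega

/-- The time bound of the machine. -/
theorem exists_machine : ∃ (C : ℕ) (T : TM2ComputableInTime scode (fun b : Bool => [b]) decideS),
    ∀ n, T.time n ≤ 2 ^ (C * (Nat.sqrt (n * Nat.log 2 n) + 1)) := by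
  obtain ⟨B, h1, C, h2⟩ := decideW_etf
  obtain ⟨M, hM⟩ := h1.tm2_raw
  refine ⟨64 * C + 74, { M with
    time := fun n => 20 * 2 ^ (C * (Phi (4 * n + 1) + 1)) + 100 * (4 * n + 1) + 100
    outputsFun := fun s => Classical.choice ?_ }, fun n => ?_⟩
  · have hs := hM (scode s)
    have h6 : decideW (scode s) = [decideS s] := by rw [decideW, sdec_scode]
    rw [h6] at hs
    obtain ⟨⟨h4, h5⟩⟩ := hs
    refine ⟨⟨h4, h5.trans ?_⟩⟩
    have h7 := h2 (scode s)
    have h8 := sz_bits_le' (scode s)
    have h9 : 2 ^ (C * (Phi (sz (scode s)) + 1)) ≤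
        2 ^ (C * (Phi (4 * (scode s).length + 1) + 1)) :=
      Nat.pow_le_pow_right (by norm_num) (Nat.mul_le_mul_left _
        (Nat.add_le_add_right (Phi_mono h8) 1))
    show 20 * B (scode s) + 100 * sz (scode s) + 100 ≤
      20 * 2 ^ (C * (Phi (4 * (scode s).length + 1) + 1)) + 100 * (4 * (scode s).length + 1) + 100
    omega
  · show 20 * 2 ^ (C * (Phi (4 * n + 1) + 1)) + 100 * (4 * n + 1) + 100 ≤ _
    set X := Nat.sqrt (n * Nat.log 2 n) + 1 with hX
    have hX1 : 1 ≤ X := by omega
    have h3 := Phi_le n
    rw [← hX] at h3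
    have h4 := Phi_linear 5 (n := n) (m := 4 * n + 1) (by omega)
    have h5 : Phi (4 * n + 1) + 1 ≤ 64 * X := by omega
    have h6 : 20 * 2 ^ (C * (Phi (4 * n + 1) + 1)) ≤ 2 ^ 5 * 2 ^ (C * (64 * X)) :=
      Nat.mul_le_mul (by norm_num)
        (Nat.pow_le_pow_right (by norm_num) (Nat.mul_le_mul_left _ h5))
    have h7 : n + 5 ≤ 2 ^ (64 * X) := by
      have h8 := lt_two_pow_lg n
      have h9 := lg_le_Phi n
      have h10 : 2 ^ lg n ≤ 2 ^ (64 * X) := Nat.pow_le_pow_right (by norm_num) (by omega)
      omega
    have h11 : 100 * (4 * n + 1) + 100 ≤ 2 ^ 9 * 2 ^ (64 * X) := by omega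
    have h12 : 2 ^ 5 * 2 ^ (C * (64 * X)) ≤ 2 ^ 9 * 2 ^ ((64 * C + 64) * X) := by
      refine Nat.mul_le_mul (by norm_num) (Nat.pow_le_pow_right (by norm_num) ?_)
      nlinarith
    have h13 : 2 ^ 9 * 2 ^ (64 * X) ≤ 2 ^ 9 * 2 ^ ((64 * C + 64) * X) := by
      refine Nat.mul_le_mul (by norm_num) (Nat.pow_le_pow_right (by norm_num) ?_)
      nlinarith [Nat.zero_le (C * X)]
    have h14 : 2 ^ 10 * 2 ^ ((64 * C + 64) * X) ≤ 2 ^ ((64 * C + 74) * X) := by
      rw [← pow_add]
      refine Nat.pow_le_pow_right (by norm_num) ?_
      nlinarith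
    omega

end Pool.Agent.PIT
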