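import Mathlib
import Pool.Agent.Work.MP_3c5c20_lc.BRAlg
import Pool.Agent.Work.MP_3c5c20_lc.Code

/-!
# The local search algorithm runs in polynomial time
-/

set_option autoImplicit false

namespace Pool.Agent.PIT.BR

open Pool.Agent.PT Function Turing

section

variable {α : Type} [Enc α]

theorem joinBlocks_ptf {l m : α → List Name} (hl : PTF l) (hm : PTF m) :
    PTF (fun a => joinBlocks (l a) (m a)) := by
  unfold joinBlocks
  fun_prop

theorem sz_joinBlocks_le (l m : List Name) : sz (joinBlocks l m) ≤ sz l + sz m := by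
  unfold joinBlocks
  have h1 := sz_append l m
  split_ifs <;> omega

theorem sz_bstep_le (st : List (List Name)) (t : Tok) : sz (bstep st t) ≤ sz st + (sz t + 10) := by
  obtain ⟨t1, t2, t3⟩ := t
  unfold bstep
  have h1 := sz_tail_le st
  have h2 := sz_tail_le st.tail
  have h0 : sz (t1, t2, t3) = sz t1 + (sz t2 + sz t3 + 1) + 1 := by
    rw [sz_pair, sz_pair]
  split_ifs
  · rw [sz_cons, sz_cons, sz_nil]
    dsimp only
    omega
  · rw [sz_cons, sz_nil]; omega
  · rw [sz_cons, sz_nil]; omega
  · have h3 := sz_joinBlocks_le (st.tail.headD []) (st.headD [])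
    rw [sz_cons]
    cases st with
    | nil =>
      simp only [List.tail_nil, List.headD_nil, sz_nil] at *
      omega
    | cons x st =>
      cases st with
      | nil =>
        simp only [List.tail_nil, List.tail_cons, List.headD_nil, List.headD_cons, sz_nil,
          sz_cons] at *
        omega
      | cons y st =>
        simp only [List.tail_cons, List.headD_cons, sz_cons] at *
        omega

theorem blocksT_ptf {toks : α → List Tok} (ht : PTF toks) : PTF (fun a => blocksT (toks a)) := by
  unfold blocksT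
  refine PTF.headD ?_ (PTF.const [])
  refine PTF.foldl_add (l := toks) (init := fun _ => ([] : List (List Name)))
    (step := fun p : α × (List (List Name) × Tok) => bstep p.2.1 p.2.2) ht (PTF.const []) ?_
    (fun a => sz (toks a) + 10) (ht.size.add (PB.const 10)) (fun a s b hb => ?_)
  · unfold bstep
    have h1 : PTF (fun p : α × (List (List Name) × Tok) =>
        joinBlocks (p.2.1.tail.headD []) (p.2.1.headD [])) :=
      joinBlocks_ptf (by fun_prop) (by fun_prop)
    fun_prop
  · have h1 := sz_bstep_le s b
    have h2 := sz_le_of_mem hb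
    exact h1.trans (by omega)

theorem lightV_ptf {toks : α → List Tok} (ht : PTF toks) (k : ℕ) :
    PTF (fun a => lightV k (toks a)) := by
  unfold lightV
  refine PTF.filter (l := fun a => dedupN (namesT (toks a)))
    (p := fun p : α × Name => decide ((blocksT (toks p.1)).count p.2 ≤ k))
    (dedupN_ptf (namesT_ptf ht)) ?_
  exact ((PTF.count PTF.snd ((blocksT_ptf ht).comp PTF.fst)).congr (fun a => by
    congr 1
    exact lawful_beq_subsingleton _ _)).le (PTF.const k)

theorem heavyV_ptf {toks : α → List Tok} (ht : PTF toks) (k : ℕ) :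
    PTF (fun a => heavyV k (toks a)) := by
  unfold heavyV
  refine PTF.filter (l := fun a => dedupN (namesT (toks a)))
    (p := fun p : α × Name => decide (k < (blocksT (toks p.1)).count p.2))
    (dedupN_ptf (namesT_ptf ht)) ?_
  exact (PTF.const k).lt ((PTF.count PTF.snd ((blocksT_ptf ht).comp PTF.fst)).congr (fun a => by
    congr 1
    exact lawful_beq_subsingleton _ _))

theorem sizeT_ptf {toks : α → List Tok} (ht : PTF toks) : PTF (fun a => sizeT (toks a)) := by
  unfold sizeT
  fun_prop

theorem boundB_ptf {toks : α → List Tok} (ht : PTF toks) : PTF (fun a => boundB (toks a)) := by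
  unfold boundB
  have := sizeT_ptf ht
  fun_prop

theorem boundb_ptf {toks : α → List Tok} (ht : PTF toks) : PTF (fun a => boundb (toks a)) := by
  unfold boundb
  have := boundB_ptf ht
  fun_prop

theorem cands_ptf {vs : α → List Name} {B : α → ℕ} {p : α → Env} (hv : PTF vs) (hB : PTF B)
    (hp : PTF p) (w : ℕ) : PTF (fun a => cands (vs a) (B a) w (p a)) := by
  induction w with
  | zero => exact hp.cons (PTF.const [])
  | succ w ih =>
    simp only [cands]
    refine PTF.flatMap (l := fun a => cands (vs a) (B a) w (p a))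
      (g := fun r : α × Env => r.2 :: (vs r.1).flatMap (fun v =>
        (List.range (B r.1 + 1)).map (fun x => (v, x) :: r.2))) ih (PTF.snd.cons ?_)
    refine PTF.flatMap (l := fun r : α × Env => vs r.1)
      (g := fun u : (α × Env) × Name => (List.range (B u.1.1 + 1)).map
        (fun x => (u.2, x) :: u.1.2)) (hv.comp PTF.fst) ?_
    exact PTF.map (l := fun u : (α × Env) × Name => List.range (B u.1.1 + 1))
      (g := fun z : ((α × Env) × Name) × ℕ => (z.1.2, z.2) :: z.1.1.2)
      (hB.comp (PTF.fst.comp PTF.fst)).succ.range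
      (((PTF.snd.comp PTF.fst).pair PTF.snd).cons (PTF.snd.comp (PTF.fst.comp PTF.fst)))

theorem nzP_ptf {b : α → ℕ} {c : α → Env} {pre : α → List Tok} (hb : PTF b) (hc : PTF c)
    (hpre : PTF pre) : PTF (fun a => nzP (b a) (c a) (pre a)) := by
  unfold nzP
  exact PTF.any (l := fun a => List.range (b a))
    (p := fun r : α × ℕ => !decide (evalT (r.2 + 1) (c r.1) (pre r.1) = 0)) hb.range
    ((evalT_ptf PTF.snd (hc.comp PTF.fst) (hpre.comp PTF.fst)).eq (PTF.const 0)).not

theorem better_ptf {b : α → ℕ} {toks : α → List Tok} {p c : α → Env} (hb : PTF b)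
    (ht : PTF toks) (hp : PTF p) (hc : PTF c) :
    PTF (fun a => better (b a) (toks a) (p a) (c a)) := by
  unfold better
  have h1 : PTF (fun r : α × ℕ => nzP (b r.1) (p r.1) ((toks r.1).take r.2)) :=
    nzP_ptf (hb.comp PTF.fst) (hp.comp PTF.fst) ((ht.comp PTF.fst).take PTF.snd)
  have h2 : PTF (fun r : α × ℕ => nzP (b r.1) (c r.1) ((toks r.1).take r.2)) :=
    nzP_ptf (hb.comp PTF.fst) (hc.comp PTF.fst) ((ht.comp PTF.fst).take PTF.snd)
  exact (PTF.all (l := fun a => List.range ((toks a).length + 1))
    (p := fun r : α × ℕ => !nzP (b r.1) (p r.1) ((toks r.1).take r.2) ||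
      nzP (b r.1) (c r.1) ((toks r.1).take r.2)) ht.length.succ.range (h1.not.or h2)).and
    (PTF.any (l := fun a => List.range ((toks a).length + 1))
    (p := fun r : α × ℕ => nzP (b r.1) (c r.1) ((toks r.1).take r.2) &&
      !nzP (b r.1) (p r.1) ((toks r.1).take r.2)) ht.length.succ.range (h2.and h1.not))

theorem moveStep_ptf {b B : α → ℕ} {vs : α → List Name} {toks : α → List Tok} {p : α → Env}
    (w : ℕ) (hb : PTF b) (hB : PTF B) (hv : PTF vs) (ht : PTF toks) (hp : PTF p) :
    PTF (fun a => moveStep w (b a) (B a) (vs a) (toks a) (p a)) := by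
  unfold moveStep
  refine PTF.headD (PTF.filter (l := fun a => cands (vs a) (B a) w (p a))
    (p := fun r : α × Env => better (b r.1) (toks r.1) (p r.1) r.2) (cands_ptf hv hB hp w) ?_) hp
  exact better_ptf (hb.comp PTF.fst) (ht.comp PTF.fst) (hp.comp PTF.fst) PTF.snd

theorem sz_cands_le {vs : List Name} {B w : ℕ} {p c : Env} (hc : c ∈ cands vs B w p) :
    sz c ≤ sz p + w * (sz vs + 2 * B + 4) := by
  induction w generalizing c with
  | zero =>
    rw [cands, List.mem_singleton] at hc
    subst hc
    omega
  | succ w ih =>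
    rw [cands, List.mem_flatMap] at hc
    obtain ⟨d, hd, hc⟩ := hc
    have h1 := ih hd
    rw [Nat.succ_mul]
    rcases List.mem_cons.1 hc with rfl | hc
    · omega
    · rw [List.mem_flatMap] at hc
      obtain ⟨v, hv, hc⟩ := hc
      obtain ⟨x, hx, rfl⟩ := List.mem_map.1 hc
      rw [List.mem_range] at hx
      have h2 := sz_le_of_mem hv
      rw [sz_cons, sz_pair, sz_nat]
      omega

theorem sz_moveStep_le (w b B : ℕ) (vs : List Name) (toks : List Tok) (p : Env) :
    sz (moveStep w b B vs toks p) ≤ sz p + w * (sz vs + 2 * B + 4) := by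
  rcases moveStep_cases w b B vs toks p with h | h
  · rw [h.1]; omega
  · exact sz_cands_le h.1

theorem climb_ptf {b B : α → ℕ} {vs : α → List Name} {toks : α → List Tok} {p : α → Env}
    (w : ℕ) (hb : PTF b) (hB : PTF B) (hv : PTF vs) (ht : PTF toks) (hp : PTF p) :
    PTF (fun a => climb w (b a) (B a) (vs a) (toks a) (p a)) := by
  unfold climb
  refine PTF.nat_iterate_add (n := fun a => (toks a).length + 2) (init := p)
    (step := fun r : α × Env => moveStep w (b r.1) (B r.1) (vs r.1) (toks r.1) r.2)
    ht.length.succ.succ hp (moveStep_ptf w (hb.comp PTF.fst) (hB.comp PTF.fst)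
      (hv.comp PTF.fst) (ht.comp PTF.fst) PTF.snd)
    (fun a => w * (sz (vs a) + sz (B a) + 4)) ((PB.const w).mul ((hv.size.add hB.size).add
      (PB.const 4))) (fun a s => ?_)
  refine (sz_moveStep_le w (b a) (B a) (vs a) (toks a) s).trans ?_
  have : sz (B a) = 2 * B a + 1 := sz_nat _
  exact Nat.add_le_add_left (Nat.mul_le_mul_left _ (by omega)) _

theorem answer_ptf {toks : α → List Tok} (ht : PTF toks) (k c w : ℕ) :
    PTF (fun a => answer k c w (toks a)) := by
  unfold answer
  refine ((heavyV_ptf ht k).length.le (PTF.const c)).and ?_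
  refine PTF.any (l := fun a => cands (heavyV k (toks a)) (boundB (toks a)) c [])
    (p := fun r : α × Env => nzP (boundb (toks r.1)) (climb w (boundb (toks r.1))
      (boundB (toks r.1)) (lightV k (toks r.1)) (toks r.1) r.2) (toks r.1))
    (cands_ptf (heavyV_ptf ht k) (boundB_ptf ht) (PTF.const []) c) ?_
  exact nzP_ptf ((boundb_ptf ht).comp PTF.fst) (climb_ptf w ((boundb_ptf ht).comp PTF.fst)
    ((boundB_ptf ht).comp PTF.fst) ((lightV_ptf ht k).comp PTF.fst) (ht.comp PTF.fst) PTF.snd)
    (ht.comp PTF.fst)

end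

/-- The decision procedure on strings. -/
def decideB (k c w : ℕ) (s : List Sy) : Bool :=
  match parse s with
  | none => false
  | some t => answer k c w t

theorem decideB_ptf (k c w : ℕ) : PTF (decideB k c w) := by
  refine (PTF.option_case (o := fun s : List Sy => parse s) (f := fun _ => false)
    (g := fun p : List Sy × List Tok => answer k c w p.2) (parse_ptf PTF.id) (PTF.const false)
    (answer_ptf PTF.snd k c w)).congr (fun s => ?_)
  unfold decideB
  cases parse s <;> rfl

/-- **Correctness on strings.** -/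
theorem decideB_iff {k w : ℕ} (hw : LS k w) (c : ℕ) (s : List Sy) :
    decideB k c w s = true ↔ s ∈ Nonzero ∩ FewBlocks k c := by
  unfold decideB
  cases h : parse s with
  | none =>
    simp only [Bool.false_eq_true, false_iff]
    rintro ⟨⟨E, hE, _⟩, _⟩
    rw [parse_of_der hE] at h
    simp at h
  | some t =>
    obtain ⟨E, hE, rfl⟩ := der_of_parse h
    simp only
    rw [answer_iff hw c (der_ok hE)]
    constructor
    · rintro ⟨h1, h2⟩
      exact ⟨⟨E, hE, (npoly_ne_zero_iff hE).2 h1⟩, ⟨E, hE, h2⟩⟩
    · rintro ⟨⟨E', hE', h1⟩, ⟨E'', hE'', h2⟩⟩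
      have e1 := der_unique hE hE'
      have e2 := der_unique hE hE''
      subst e1
      subst e2
      exact ⟨(npoly_ne_zero_iff hE).1 h1, h2⟩

/-- A polynomial-time machine. -/
theorem exists_machine (k c w : ℕ) :
    Nonempty (TM2ComputableInPolyTime scode (fun b : Bool => [b]) (decideB k c w)) := by
  have h1 : PTF (fun l : List Bool => [decideB k c w (sdec l)]) :=
    ((decideB_ptf k c w).comp sdec_ptf).cons (PTF.const [])
  obtain ⟨M⟩ := h1.tm2_raw
  refine ⟨{ M with outputsFun := fun s => ?_ }⟩
  have h2 := M.outputsFun (scode s)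
  rw [sdec_scode] at h2
  exact h2

/-- **Main theorem.** -/
theorem main (k c : ℕ) : ∃ f : List Sy → Bool, (∀ s, f s = true ↔ s ∈ Nonzero ∩ FewBlocks k c) ∧
    Nonempty (TM2ComputableInPolyTime scode (fun b : Bool => [b]) f) := by
  obtain ⟨w, hw⟩ := local_search (K := ℚ) (ι := Name) k
  exact ⟨decideB k c w, decideB_iff hw c, exists_machine k c w⟩

end Pool.Agent.PIT.BR
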